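import Mathlib

open MeasureTheory Polynomial

namespace Pool.Agent.H27Mahler

/-- Integral over the circle group of a function of the form `f ∘ toCircle`. -/
theorem circleAverage_eq_integral_unitAddCircle (f : ℂ → ℝ) :
    Real.circleAverage f 0 1 = ∫ τ : UnitAddCircle, f (AddCircle.toCircle τ : ℂ) := by
  have h := UnitAddCircle.intervalIntegral_preimage 0
    (fun τ : UnitAddCircle => f (AddCircle.toCircle τ : ℂ))
  rw [← h, Real.circleAverage, zero_add]
  have h2 : ∀ a : ℝ, ((AddCircle.toCircle (a : UnitAddCircle) : Circle) : ℂ)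
      = circleMap 0 1 (2 * Real.pi * a) := by
    intro a
    rw [AddCircle.toCircle_apply_mk]
    simp [circleMap]
  simp_rw [h2]
  have h3 := intervalIntegral.smul_integral_comp_mul_left (a := 0) (b := 1)
    (fun x => f (circleMap 0 1 x)) (2 * Real.pi)
  rw [mul_zero, mul_one] at h3
  rw [← h3, smul_smul, inv_mul_cancel₀ (by positivity), one_smul]

theorem integrable_log_norm_eval (p : ℂ[X]) :
    Integrable (fun τ : UnitAddCircle => Real.log ‖p.eval (AddCircle.toCircle τ : ℂ)‖) := by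
  have h := p.intervalIntegrable_mahlerMeasure
  have h2 : ∀ a : ℝ, ((AddCircle.toCircle (a : UnitAddCircle) : Circle) : ℂ)
      = circleMap 0 1 (2 * Real.pi * a) := by
    intro a
    rw [AddCircle.toCircle_apply_mk]
    simp [circleMap]
  have h3 : IntervalIntegrable
      (fun a : ℝ => Real.log ‖p.eval ((AddCircle.toCircle (a : UnitAddCircle) : Circle) : ℂ)‖)
      volume 0 1 := by
    simp_rw [h2]
    have := h.comp_mul_left (c := 2 * Real.pi)
    simpa using this
  have h4 := UnitAddCircle.measurePreserving_mk 0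
  rw [← h4.map_eq]
  rw [intervalIntegrable_iff_integrableOn_Ioc_of_le zero_le_one] at h3
  have hm : AEStronglyMeasurable
      (fun τ : UnitAddCircle => Real.log ‖p.eval (AddCircle.toCircle τ : ℂ)‖)
      (Measure.map (fun x : ℝ => (x : UnitAddCircle)) (volume.restrict (Set.Ioc 0 (0 + 1)))) := by
    apply Measurable.aestronglyMeasurable
    apply Real.measurable_log.comp
    apply Continuous.measurable
    have := AddCircle.continuous_toCircle (T := (1:ℝ))
    fun_prop
  rw [integrable_map_measure hm h4.measurable.aemeasurable]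
  simpa [IntegrableOn, Function.comp_def] using h3

theorem integral_log_norm_eval (p : ℂ[X]) :
    ∫ τ : UnitAddCircle, Real.log ‖p.eval (AddCircle.toCircle τ : ℂ)‖ = p.logMahlerMeasure := by
  rw [Polynomial.logMahlerMeasure_def, circleAverage_eq_integral_unitAddCircle]

/-- coefficient bound in logarithmic form -/
theorem log_coeff_le (p : ℂ[X]) (n : ℕ) (hn : p.coeff n ≠ 0) (e : ℕ) (he : p.natDegree ≤ e) :
    Real.log ‖p.coeff n‖ ≤ e * Real.log 2 +
      ∫ τ : UnitAddCircle, Real.log ‖p.eval (AddCircle.toCircle τ : ℂ)‖ := by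
  have hp : p ≠ 0 := by rintro rfl; simp at hn
  rw [integral_log_norm_eval, Polynomial.logMahlerMeasure_eq_log_MahlerMeasure]
  have h1 := p.norm_coeff_le_choose_mul_mahlerMeasure n
  have h2 : ((p.natDegree).choose n : ℝ) ≤ 2 ^ e := by
    have : (p.natDegree).choose n ≤ 2 ^ e :=
      (Nat.choose_le_two_pow _ _).trans (Nat.pow_le_pow_right (by norm_num) he)
    exact_mod_cast this
  have h3 := Polynomial.mahlerMeasure_pos_of_ne_zero hp
  have h4 : ‖p.coeff n‖ ≤ 2 ^ e * p.mahlerMeasure := h1.trans (by gcongr)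
  calc Real.log ‖p.coeff n‖ ≤ Real.log (2 ^ e * p.mahlerMeasure) :=
        Real.log_le_log (norm_pos_iff.mpr hn) h4
    _ = _ := by rw [Real.log_mul (by positivity) h3.ne', Real.log_pow]

theorem log_coeff_zero_le (p : ℂ[X]) (hn : p.coeff 0 ≠ 0) :
    Real.log ‖p.coeff 0‖ ≤
      ∫ τ : UnitAddCircle, Real.log ‖p.eval (AddCircle.toCircle τ : ℂ)‖ := by
  have hp : p ≠ 0 := by rintro rfl; simp at hn
  rw [integral_log_norm_eval, Polynomial.logMahlerMeasure_eq_log_MahlerMeasure]
  have h1 := p.norm_coeff_le_choose_mul_mahlerMeasure 0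
  simp only [Nat.choose_zero_right, Nat.cast_one, one_mul] at h1
  exact Real.log_le_log (norm_pos_iff.mpr hn) h1

theorem volume_singleton_circle (x : UnitAddCircle) : volume ({x} : Set UnitAddCircle) = 0 := by
  have h := AddCircle.volume_closedBall (T := (1 : ℝ)) (x := x) 0
  rw [Metric.closedBall_zero] at h
  rw [h]
  simp

theorem ae_eval_ne_zero (p : ℂ[X]) (hp : p ≠ 0) :
    ∀ᵐ τ : UnitAddCircle, p.eval (AddCircle.toCircle τ : ℂ) ≠ 0 := by
  have hfin : Set.Finite {τ : UnitAddCircle | p.eval (AddCircle.toCircle τ : ℂ) = 0} := by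
    have h1 : Set.Finite {z : ℂ | p.eval z = 0} := by
      have := p.roots.toFinset.finite_toSet
      refine this.subset ?_
      intro z hz
      simpa [hp] using hz
    have hinj : Function.Injective (fun τ : UnitAddCircle => (AddCircle.toCircle τ : ℂ)) :=
      fun a b hab => AddCircle.injective_toCircle one_ne_zero (Circle.coe_injective hab)
    exact h1.preimage hinj.injOn
  have h0 : volume {τ : UnitAddCircle | p.eval (AddCircle.toCircle τ : ℂ) = 0} = 0 := by
    have : NullSingletonClass (volume : Measure UnitAddCircle) := ⟨volume_singleton_circle⟩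
    exact hfin.measure_zero _
  rw [ae_iff]
  simpa using h0

/-- integrability of `log (|f|^2+|g|^2)` from that of `log |f|`. -/
theorem integrable_log_sq_add {α : Type*} [MeasurableSpace α] {μ : Measure α} [IsFiniteMeasure μ]
    {f g : α → ℂ} (hf : Measurable f) (hg : Measurable g) {C : ℝ}
    (hC : ∀ x, ‖f x‖ ^ 2 + ‖g x‖ ^ 2 ≤ C)
    (hint : Integrable (fun x => Real.log ‖f x‖) μ) (hne : ∀ᵐ x ∂μ, f x ≠ 0) :
    Integrable (fun x => Real.log (‖f x‖ ^ 2 + ‖g x‖ ^ 2)) μ := by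
  have hb : Integrable (fun x => |2 * Real.log ‖f x‖| + |Real.log C|) μ :=
    ((hint.const_mul 2).abs).add (integrable_const _)
  refine hb.mono' ?_ ?_
  · exact (Real.measurable_log.comp
      ((hf.norm.pow_const 2).add (hg.norm.pow_const 2))).aestronglyMeasurable
  · filter_upwards [hne] with x hx
    have h1 : 0 < ‖f x‖ := norm_pos_iff.mpr hx
    have h2 : 0 < ‖f x‖ ^ 2 + ‖g x‖ ^ 2 := by positivity
    rw [Real.norm_eq_abs, abs_le]
    constructor
    · have : 2 * Real.log ‖f x‖ ≤ Real.log (‖f x‖ ^ 2 + ‖g x‖ ^ 2) := by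
        have : 2 * Real.log ‖f x‖ = Real.log (‖f x‖ ^ 2) := by rw [Real.log_pow]; norm_num
        rw [this]
        exact Real.log_le_log (by positivity) (by nlinarith [sq_nonneg ‖g x‖])
      have h3 := neg_abs_le (2 * Real.log ‖f x‖)
      have h4 := abs_nonneg (Real.log C)
      linarith
    · have : Real.log (‖f x‖ ^ 2 + ‖g x‖ ^ 2) ≤ Real.log C := Real.log_le_log h2 (hC x)
      have h3 := le_abs_self (Real.log C)
      have h4 := abs_nonneg (2 * Real.log ‖f x‖)
      linarith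

theorem exists_bound_eval (p : ℂ[X]) :
    ∃ C : ℝ, ∀ τ : UnitAddCircle, ‖p.eval (AddCircle.toCircle τ : ℂ)‖ ≤ C := by
  have hc : Continuous (fun τ : UnitAddCircle => ‖p.eval (AddCircle.toCircle τ : ℂ)‖) := by
    have := AddCircle.continuous_toCircle (T := (1:ℝ))
    fun_prop
  obtain ⟨C, hC⟩ := (isCompact_range hc).bddAbove
  exact ⟨C, fun τ => hC ⟨τ, rfl⟩⟩

theorem continuous_eval_toCircle (p : ℂ[X]) :
    Continuous (fun τ : UnitAddCircle => p.eval (AddCircle.toCircle τ : ℂ)) := by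
  have := AddCircle.continuous_toCircle (T := (1:ℝ))
  fun_prop

theorem integrable_log_sq_eval (P Q : ℂ[X]) (hP : P ≠ 0) :
    Integrable (fun τ : UnitAddCircle => Real.log (‖P.eval (AddCircle.toCircle τ : ℂ)‖ ^ 2 +
      ‖Q.eval (AddCircle.toCircle τ : ℂ)‖ ^ 2)) := by
  obtain ⟨C, hC⟩ := exists_bound_eval P
  obtain ⟨C', hC'⟩ := exists_bound_eval Q
  refine integrable_log_sq_add (C := C ^ 2 + C' ^ 2) (continuous_eval_toCircle P).measurable
    (continuous_eval_toCircle Q).measurable ?_ (integrable_log_norm_eval P) (ae_eval_ne_zero P hP)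
  intro x
  have h1 := hC x
  have h2 := hC' x
  gcongr

/-- vector valued Jensen inequality -/
theorem log_sq_le_integral (S D : ℂ[X]) (hW : 0 < ‖S.coeff 0‖ ^ 2 + ‖D.coeff 0‖ ^ 2)
    (hS : S ≠ 0) :
    Real.log (‖S.coeff 0‖ ^ 2 + ‖D.coeff 0‖ ^ 2) ≤
      ∫ τ : UnitAddCircle, Real.log (‖S.eval (AddCircle.toCircle τ : ℂ)‖ ^ 2 +
        ‖D.eval (AddCircle.toCircle τ : ℂ)‖ ^ 2) := by
  set W : ℝ := ‖S.coeff 0‖ ^ 2 + ‖D.coeff 0‖ ^ 2 with hWdef
  set u : ℂ[X] := C (starRingEnd ℂ (S.coeff 0)) * S + C (starRingEnd ℂ (D.coeff 0)) * D with hu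
  have hu0 : u.coeff 0 = (W : ℂ) := by
    simp only [hu, coeff_add, coeff_C_mul, hWdef]
    push_cast
    rw [Complex.conj_mul', Complex.conj_mul']
  have hune : u ≠ 0 := by
    intro h
    rw [h, coeff_zero] at hu0
    have : (W : ℂ) ≠ 0 := by exact_mod_cast hW.ne'
    exact this hu0.symm
  have h1 := log_coeff_zero_le u (by rw [hu0]; exact_mod_cast hW.ne')
  rw [hu0, Complex.norm_real, Real.norm_of_nonneg hW.le] at h1
  have h2 : ∫ τ : UnitAddCircle, 2 * Real.log ‖u.eval (AddCircle.toCircle τ : ℂ)‖ ≤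
      ∫ τ : UnitAddCircle, (Real.log W + Real.log (‖S.eval (AddCircle.toCircle τ : ℂ)‖ ^ 2 +
        ‖D.eval (AddCircle.toCircle τ : ℂ)‖ ^ 2)) := by
    refine integral_mono_ae ((integrable_log_norm_eval u).const_mul 2)
      ((integrable_const _).add (integrable_log_sq_eval S D hS)) ?_
    filter_upwards [ae_eval_ne_zero u hune, ae_eval_ne_zero S hS] with τ hτ hSτ
    have hpos : 0 < ‖u.eval (AddCircle.toCircle τ : ℂ)‖ := norm_pos_iff.mpr hτ
    have hSpos : 0 < ‖S.eval (AddCircle.toCircle τ : ℂ)‖ := norm_pos_iff.mpr hSτ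
    have h3 : ‖u.eval (AddCircle.toCircle τ : ℂ)‖ ^ 2 ≤
        W * (‖S.eval (AddCircle.toCircle τ : ℂ)‖ ^ 2 +
        ‖D.eval (AddCircle.toCircle τ : ℂ)‖ ^ 2) := by
      have h4 : ‖u.eval (AddCircle.toCircle τ : ℂ)‖ ≤
          ‖S.coeff 0‖ * ‖S.eval (AddCircle.toCircle τ : ℂ)‖ +
          ‖D.coeff 0‖ * ‖D.eval (AddCircle.toCircle τ : ℂ)‖ := by
        simp only [hu, eval_add, eval_mul, eval_C]
        refine (norm_add_le _ _).trans ?_
        rw [norm_mul, norm_mul, RCLike.norm_conj, RCLike.norm_conj]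
      have h5 : ‖u.eval (AddCircle.toCircle τ : ℂ)‖ ^ 2 ≤
          (‖S.coeff 0‖ * ‖S.eval (AddCircle.toCircle τ : ℂ)‖ +
          ‖D.coeff 0‖ * ‖D.eval (AddCircle.toCircle τ : ℂ)‖) ^ 2 := by gcongr
      refine h5.trans ?_
      rw [hWdef]
      nlinarith [sq_nonneg (‖S.coeff 0‖ * ‖D.eval (AddCircle.toCircle τ : ℂ)‖ -
        ‖D.coeff 0‖ * ‖S.eval (AddCircle.toCircle τ : ℂ)‖)]
    have h6 : 2 * Real.log ‖u.eval (AddCircle.toCircle τ : ℂ)‖ =
        Real.log (‖u.eval (AddCircle.toCircle τ : ℂ)‖ ^ 2) := by rw [Real.log_pow]; norm_num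
    show 2 * Real.log ‖u.eval (AddCircle.toCircle τ : ℂ)‖ ≤ _
    rw [h6, ← Real.log_mul hW.ne' (by positivity)]
    exact Real.log_le_log (by positivity) h3
  rw [integral_const_mul, integral_add (integrable_const _) (integrable_log_sq_eval S D hS),
    integral_const] at h2
  have h7 : (volume : Measure UnitAddCircle).real Set.univ = 1 := by
    simp [Measure.real]
  rw [h7, one_smul] at h2
  linarith

/-- one variable gain inequality -/
theorem gain_one_var (P Q E : ℂ[X]) (l : ℕ)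
    (hN : 0 < ‖P.coeff 0‖ ^ 2 + ‖Q.coeff 0‖ ^ 2) (hP : P ≠ 0)
    (hE : C (P.coeff 0) * Q - C (Q.coeff 0) * P = X ^ l * E) :
    Real.log (‖P.coeff 0‖ ^ 2 + ‖Q.coeff 0‖ ^ 2 +
      ‖E.coeff 0‖ ^ 2 / (‖P.coeff 0‖ ^ 2 + ‖Q.coeff 0‖ ^ 2)) ≤
      ∫ τ : UnitAddCircle, Real.log (‖P.eval (AddCircle.toCircle τ : ℂ)‖ ^ 2 +
        ‖Q.eval (AddCircle.toCircle τ : ℂ)‖ ^ 2) := by
  set N : ℝ := ‖P.coeff 0‖ ^ 2 + ‖Q.coeff 0‖ ^ 2 with hNdef
  set S : ℂ[X] := C (starRingEnd ℂ (P.coeff 0)) * P + C (starRingEnd ℂ (Q.coeff 0)) * Q with hS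
  have hS0 : S.coeff 0 = (N : ℂ) := by
    simp only [hS, coeff_add, coeff_C_mul, hNdef]
    push_cast
    rw [Complex.conj_mul', Complex.conj_mul']
  have hSne : S ≠ 0 := by
    intro h
    rw [h, coeff_zero] at hS0
    have : (N : ℂ) ≠ 0 := by exact_mod_cast hN.ne'
    exact this hS0.symm
  have hSn : ‖S.coeff 0‖ = N := by rw [hS0, Complex.norm_real, Real.norm_of_nonneg hN.le]
  have hW : 0 < ‖S.coeff 0‖ ^ 2 + ‖E.coeff 0‖ ^ 2 := by rw [hSn]; positivity
  have h1 := log_sq_le_integral S E hW hSne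
  have key : ∀ τ : UnitAddCircle, ‖S.eval (AddCircle.toCircle τ : ℂ)‖ ^ 2 +
        ‖E.eval (AddCircle.toCircle τ : ℂ)‖ ^ 2 = N * (‖P.eval (AddCircle.toCircle τ : ℂ)‖ ^ 2 +
        ‖Q.eval (AddCircle.toCircle τ : ℂ)‖ ^ 2) := by
    intro τ
    have e1 : ‖E.eval (AddCircle.toCircle τ : ℂ)‖ =
        ‖(C (P.coeff 0) * Q - C (Q.coeff 0) * P).eval (AddCircle.toCircle τ : ℂ)‖ := by
      rw [hE]; simp [Circle.norm_coe]
    rw [e1]
    simp only [hS, eval_add, eval_mul, eval_C, eval_sub, hNdef]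
    generalize P.eval (AddCircle.toCircle τ : ℂ) = p
    generalize Q.eval (AddCircle.toCircle τ : ℂ) = q
    generalize P.coeff 0 = a
    generalize Q.coeff 0 = b
    have hh : ∀ z : ℂ, ‖z‖ ^ 2 = z.re ^ 2 + z.im ^ 2 := by
      intro z; rw [← Complex.normSq_eq_norm_sq, Complex.normSq_apply]; ring
    simp only [hh, Complex.add_re, Complex.add_im, Complex.mul_re, Complex.mul_im,
      Complex.sub_re, Complex.sub_im, Complex.conj_re, Complex.conj_im]
    ring
  have h2 : ∫ τ : UnitAddCircle, Real.log (‖S.eval (AddCircle.toCircle τ : ℂ)‖ ^ 2 +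
        ‖E.eval (AddCircle.toCircle τ : ℂ)‖ ^ 2) =
      ∫ τ : UnitAddCircle, (Real.log N + Real.log (‖P.eval (AddCircle.toCircle τ : ℂ)‖ ^ 2 +
        ‖Q.eval (AddCircle.toCircle τ : ℂ)‖ ^ 2)) := by
    refine integral_congr_ae ?_
    filter_upwards [ae_eval_ne_zero P hP] with τ hτ
    have hpos : 0 < ‖P.eval (AddCircle.toCircle τ : ℂ)‖ := norm_pos_iff.mpr hτ
    rw [key τ, Real.log_mul hN.ne' (by positivity)]
  rw [h2, integral_add (integrable_const _) (integrable_log_sq_eval P Q hP),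
    integral_const] at h1
  have h7 : (volume : Measure UnitAddCircle).real Set.univ = 1 := by
    simp [Measure.real]
  rw [h7, one_smul, hSn] at h1
  have h8 : N ^ 2 + ‖E.coeff 0‖ ^ 2 = N * (N + ‖E.coeff 0‖ ^ 2 / N) := by
    field_simp
  rw [h8, Real.log_mul hN.ne' (by positivity)] at h1
  linarith

/-- elementary inequality used for the gain -/
theorem log_one_add_exp_ge (u c : ℝ) (hc : 0 ≤ c) :
    Real.exp (-c) * (u + c) ≤ Real.log (1 + Real.exp u) := by
  rcases le_or_gt (u + c) 0 with h | h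
  · have h1 : Real.exp (-c) * (u + c) ≤ 0 := mul_nonpos_of_nonneg_of_nonpos (Real.exp_pos _).le h
    have h2 : 0 ≤ Real.log (1 + Real.exp u) := Real.log_nonneg (by linarith [Real.exp_pos u])
    linarith
  · set θ := Real.exp (-c) with hθ
    have hθ0 : 0 < θ := Real.exp_pos _
    have hθ1 : θ ≤ 1 := by rw [hθ]; exact Real.exp_le_one_iff.mpr (by linarith)
    have h1 : (1 + Real.exp (u + c)) ^ θ ≤ 1 + θ * Real.exp (u + c) :=
      rpow_one_add_le_one_add_mul_self (by linarith [Real.exp_pos (u + c)]) hθ0.le hθ1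
    have h2 : θ * Real.exp (u + c) = Real.exp u := by
      rw [hθ, ← Real.exp_add]; congr 1; ring
    rw [h2] at h1
    have h3 : Real.log ((1 + Real.exp (u + c)) ^ θ) ≤ Real.log (1 + Real.exp u) :=
      Real.log_le_log (by positivity) h1
    rw [Real.log_rpow (by positivity)] at h3
    have h4 : u + c ≤ Real.log (1 + Real.exp (u + c)) := by
      have : Real.log (Real.exp (u + c)) ≤ Real.log (1 + Real.exp (u + c)) :=
        Real.log_le_log (Real.exp_pos _) (by linarith)
      rwa [Real.log_exp] at this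
    calc θ * (u + c) ≤ θ * Real.log (1 + Real.exp (u + c)) := by gcongr
      _ ≤ _ := h3

end Pool.Agent.H27Mahler
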