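import Mathlib
import Pool.Agent.H27Mahler.OneVar

open MeasureTheory Polynomial

namespace Pool.Agent.H27Mahler

/-- reflected root -/
noncomputable def rt (α : ℂ) : ℂ := if ‖α‖ ≤ 1 then α else ((starRingEnd ℂ) α)⁻¹

/-- constant for the reflected root -/
noncomputable def cst (α : ℂ) : ℂ := if ‖α‖ ≤ 1 then 1 else -(starRingEnd ℂ) α

theorem norm_rt_le (α : ℂ) : ‖rt α‖ ≤ 1 := by
  unfold rt
  split_ifs with h
  · exact h
  · push Not at h
    rw [norm_inv, RCLike.norm_conj]
    exact inv_le_one_of_one_le₀ h.le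

theorem norm_cst (α : ℂ) : ‖cst α‖ = max 1 ‖α‖ := by
  unfold cst
  split_ifs with h
  · rw [max_eq_left h]; simp
  · push Not at h
    rw [norm_neg, RCLike.norm_conj, max_eq_right h.le]

theorem norm_sub_rt (α z : ℂ) (hz : ‖z‖ = 1) : ‖cst α‖ * ‖z - rt α‖ = ‖z - α‖ := by
  unfold cst rt
  split_ifs with h
  · simp
  · push Not at h
    have hα : (starRingEnd ℂ) α ≠ 0 := by
      intro h0
      have : ‖(starRingEnd ℂ) α‖ = 0 := by rw [h0]; simp
      rw [RCLike.norm_conj] at this
      linarith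
    have hzz : z * (starRingEnd ℂ) z = 1 := by
      rw [Complex.mul_conj, Complex.normSq_eq_norm_sq, hz]; simp
    rw [← norm_mul]
    have h1 : -(starRingEnd ℂ) α * (z - ((starRingEnd ℂ) α)⁻¹) = z * (starRingEnd ℂ) (z - α) := by
      rw [map_sub, mul_sub, mul_sub, hzz]
      field_simp
      ring
    rw [h1, norm_mul, hz, one_mul, RCLike.norm_conj]

/-- the reflected polynomial, with all roots in the closed unit disc -/
noncomputable def flip (p : ℂ[X]) : ℂ[X] :=
  C (p.leadingCoeff * (p.roots.map cst).prod) * ((p.roots.map rt).map fun β => X - C β).prod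

theorem prod_cst_ne_zero (s : Multiset ℂ) : (s.map cst).prod ≠ 0 := by
  intro hcon
  rw [Multiset.prod_eq_zero_iff] at hcon
  obtain ⟨α, -, h0⟩ := Multiset.mem_map.mp hcon
  have h1 := norm_cst α
  rw [h0, norm_zero] at h1
  have := le_max_left 1 ‖α‖
  linarith

theorem norm_prod_cst (s : Multiset ℂ) : ‖(s.map cst).prod‖ = (s.map (fun a => max 1 ‖a‖)).prod := by
  induction s using Multiset.induction_on with
  | empty => simp
  | cons a s ih => simp only [Multiset.map_cons, Multiset.prod_cons, norm_mul, ih, norm_cst]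

theorem flip_lead_ne_zero {p : ℂ[X]} (hp : p ≠ 0) :
    p.leadingCoeff * (p.roots.map cst).prod ≠ 0 :=
  mul_ne_zero (leadingCoeff_ne_zero.mpr hp) (prod_cst_ne_zero _)

theorem flip_ne_zero {p : ℂ[X]} (hp : p ≠ 0) : flip p ≠ 0 := by
  unfold flip
  refine mul_ne_zero (C_ne_zero.mpr (flip_lead_ne_zero hp)) ?_
  exact (monic_multiset_prod_of_monic _ _ fun β _ => monic_X_sub_C β).ne_zero

theorem roots_flip {p : ℂ[X]} (hp : p ≠ 0) : (flip p).roots = p.roots.map rt := by
  unfold flip
  rw [roots_C_mul _ (flip_lead_ne_zero hp), roots_multiset_prod_X_sub_C]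

theorem natDegree_flip {p : ℂ[X]} (hp : p ≠ 0) : (flip p).natDegree = p.natDegree := by
  rw [(IsAlgClosed.splits (flip p)).natDegree_eq_card_roots, roots_flip hp, Multiset.card_map,
    (IsAlgClosed.splits p).natDegree_eq_card_roots]

theorem norm_leadingCoeff_flip {p : ℂ[X]} : ‖(flip p).leadingCoeff‖ = p.mahlerMeasure := by
  unfold flip
  rw [leadingCoeff_mul, leadingCoeff_C,
    (monic_multiset_prod_of_monic _ _ fun β _ => monic_X_sub_C β).leadingCoeff, mul_one, norm_mul,
    norm_prod_cst, mahlerMeasure_eq_leadingCoeff_mul_prod_roots]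

theorem norm_eval_flip (p : ℂ[X]) (z : ℂ) (hz : ‖z‖ = 1) : ‖(flip p).eval z‖ = ‖p.eval z‖ := by
  conv_rhs => rw [(IsAlgClosed.splits p).eval_eq_prod_roots]
  unfold flip
  rw [eval_mul, eval_C, eval_multiset_prod, Multiset.map_map, Multiset.map_map, norm_mul, norm_mul,
    norm_mul, mul_assoc]
  congr 1
  induction p.roots using Multiset.induction_on with
  | empty => simp
  | cons a s ih =>
    simp only [Multiset.map_cons, Multiset.prod_cons, norm_mul, Function.comp_apply, eval_sub,
      eval_X, eval_C] at ih ⊢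
    rw [← norm_sub_rt a z hz, ← ih]
    ring

/-- the pointwise comparison for one root -/
theorem root_cmp (α z : ℂ) (hz : ‖z‖ = 1) (hα : z ≠ α) :
    (z * (1 / (z - rt α))).im = (z * (1 / (z - α))).im ∧
    (z * (1 / (z - α))).re ≤ (z * (1 / (z - rt α))).re ∧
    1 - (z * (1 / (z - α))).re ≤ (z * (1 / (z - rt α))).re := by
  have hzz : z * (starRingEnd ℂ) z = 1 := by
    rw [Complex.mul_conj, Complex.normSq_eq_norm_sq, hz]; simp
  have hd : z - α ≠ 0 := sub_ne_zero.mpr hα
  have hn : 0 < ‖z - α‖ := norm_pos_iff.mpr hd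
  have key : 2 * (z * (1 / (z - α))).re - 1 = (1 - ‖α‖ ^ 2) / ‖z - α‖ ^ 2 := by
    have h1 : z * (1 / (z - α)) = (1 - z * (starRingEnd ℂ) α) / ((‖z - α‖ ^ 2 : ℝ) : ℂ) := by
      have h2 : ((‖z - α‖ ^ 2 : ℝ) : ℂ) = (z - α) * (starRingEnd ℂ) (z - α) := by
        rw [Complex.mul_conj, Complex.normSq_eq_norm_sq]
      have h3 : (starRingEnd ℂ) (z - α) ≠ 0 := by
        intro h0
        apply hd
        have := congrArg (starRingEnd ℂ) h0
        simpa using this
      rw [h2, eq_div_iff (mul_ne_zero hd h3)]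
      have h4 : z * (1 / (z - α)) * ((z - α) * (starRingEnd ℂ) (z - α)) =
          z * (starRingEnd ℂ) (z - α) := by
        field_simp
      rw [h4, map_sub, mul_sub, hzz]
    have h5 : ‖z - α‖ ^ 2 = 1 + ‖α‖ ^ 2 - 2 * (z * (starRingEnd ℂ) α).re := by
      rw [← Complex.normSq_eq_norm_sq, Complex.normSq_sub, Complex.normSq_eq_norm_sq,
        Complex.normSq_eq_norm_sq, hz]
      ring
    have h6 : (z * (1 / (z - α))).re = (1 - (z * (starRingEnd ℂ) α).re) / ‖z - α‖ ^ 2 := by
      rw [h1, Complex.div_ofReal_re]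
      simp
    rw [h6]
    field_simp
    linarith
  unfold rt
  split_ifs with h
  · refine ⟨rfl, le_rfl, ?_⟩
    have h1 : 0 ≤ (1 - ‖α‖ ^ 2) / ‖z - α‖ ^ 2 := by
      apply div_nonneg _ (by positivity)
      nlinarith [norm_nonneg α]
    linarith
  · push Not at h
    have hα0 : (starRingEnd ℂ) α ≠ 0 := by
      intro h0
      have : ‖(starRingEnd ℂ) α‖ = 0 := by rw [h0]; simp
      rw [RCLike.norm_conj] at this
      linarith
    have h1 : z * (1 / (z - ((starRingEnd ℂ) α)⁻¹)) = 1 - (starRingEnd ℂ) (z * (1 / (z - α))) := by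
      have h3 : (starRingEnd ℂ) (z - α) ≠ 0 := by
        intro h0
        apply hd
        have := congrArg (starRingEnd ℂ) h0
        simpa using this
      have h4 : z * (starRingEnd ℂ) (z - α) = -(starRingEnd ℂ) α * (z - ((starRingEnd ℂ) α)⁻¹) := by
        rw [map_sub, mul_sub, hzz]
        field_simp
        ring
      have hz0 : z ≠ 0 := by
        intro h0; rw [h0] at hz; simp at hz
      have h5 : z - ((starRingEnd ℂ) α)⁻¹ ≠ 0 := by
        intro h0
        rw [h0, mul_zero] at h4
        exact (mul_ne_zero hz0 h3) h4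
      rw [map_mul, map_div₀, map_one]
      rw [map_sub] at h3 h4 ⊢
      have h6 : (starRingEnd ℂ) z = z⁻¹ := by
        exact eq_inv_of_mul_eq_one_right hzz
      rw [h6] at h3 h4 ⊢
      have h7 : 1 - z * (starRingEnd ℂ) α ≠ 0 := by
        intro h0
        apply h3
        rw [sub_eq_zero] at h0 ⊢
        rw [inv_eq_one_div, div_eq_iff hz0, h0, mul_comm]
      have h8 : z - ((starRingEnd ℂ) α)⁻¹ = -(1 - z * (starRingEnd ℂ) α) / (starRingEnd ℂ) α := by
        field_simp
        ring
      have h9 : z⁻¹ - (starRingEnd ℂ) α = (1 - z * (starRingEnd ℂ) α) / z := by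
        field_simp
      rw [h8, h9]
      field_simp
      ring
    have h2 : 0 ≤ (‖α‖ ^ 2 - 1) / ‖z - α‖ ^ 2 := by
      apply div_nonneg _ (by positivity)
      nlinarith [norm_nonneg α]
    have h3 : (1 - ‖α‖ ^ 2) / ‖z - α‖ ^ 2 = - ((‖α‖ ^ 2 - 1) / ‖z - α‖ ^ 2) := by ring
    rw [h3] at key
    rw [h1]
    simp only [Complex.sub_im, Complex.one_im, Complex.conj_im, Complex.sub_re, Complex.one_re,
      Complex.conj_re]
    refine ⟨by ring, by linarith, by linarith⟩

theorem norm_le_of_re_im (a b : ℂ) (him : b.im = a.im) (h1 : a.re ≤ b.re) (h2 : -b.re ≤ a.re) :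
    ‖a‖ ≤ ‖b‖ := by
  rw [← Real.sqrt_sq (norm_nonneg a), ← Real.sqrt_sq (norm_nonneg b)]
  apply Real.sqrt_le_sqrt
  rw [← Complex.normSq_eq_norm_sq, ← Complex.normSq_eq_norm_sq, Complex.normSq_apply,
    Complex.normSq_apply, him]
  have : a.re * a.re ≤ b.re * b.re := by
    have := abs_le_abs (a := a.re) (b := b.re) h1 (by linarith)
    have h3 := mul_self_le_mul_self (abs_nonneg _) this
    rwa [abs_mul_abs_self, abs_mul_abs_self] at h3
  linarith

theorem sum_cmp (s : Multiset ℂ) (z : ℂ) (hz : ‖z‖ = 1) (hs : ∀ α ∈ s, z ≠ α) :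
    (s.map fun α => z * (1 / (z - rt α))).sum.im = (s.map fun α => z * (1 / (z - α))).sum.im ∧
    (s.map fun α => z * (1 / (z - α))).sum.re ≤ (s.map fun α => z * (1 / (z - rt α))).sum.re ∧
    (s.card : ℝ) - (s.map fun α => z * (1 / (z - α))).sum.re ≤
      (s.map fun α => z * (1 / (z - rt α))).sum.re := by
  induction s using Multiset.induction_on with
  | empty => simp
  | cons a s ih =>
    obtain ⟨h1, h2, h3⟩ := ih (fun α hα => hs α (Multiset.mem_cons_of_mem hα))
    obtain ⟨g1, g2, g3⟩ := root_cmp a z hz (hs a (Multiset.mem_cons_self a s))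
    simp only [Multiset.map_cons, Multiset.sum_cons, Complex.add_im, Complex.add_re,
      Multiset.card_cons, Nat.cast_add, Nat.cast_one]
    refine ⟨by rw [g1, h1], by linarith, by linarith⟩

theorem pointwise_deriv (p : ℂ[X]) (hp : p ≠ 0) (z : ℂ) (hz : ‖z‖ = 1) (hpz : p.eval z ≠ 0) :
    ‖(X * derivative p).eval z‖ ≤ ‖(derivative (flip p)).eval z‖ ∧
    ‖(C (p.natDegree : ℂ) * p - X * derivative p).eval z‖ ≤ ‖(derivative (flip p)).eval z‖ := by
  have hs : ∀ α ∈ p.roots, z ≠ α := by
    rintro α hα rfl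
    exact hpz (by simpa [hp] using hα)
  have hqz : (flip p).eval z ≠ 0 := by
    rw [← norm_pos_iff, norm_eval_flip p z hz]; exact norm_pos_iff.mpr hpz
  have e1 := (IsAlgClosed.splits p).eval_derivative_eq_eval_mul_sum hpz
  have e2 := (IsAlgClosed.splits (flip p)).eval_derivative_eq_eval_mul_sum hqz
  rw [roots_flip hp, Multiset.map_map] at e2
  obtain ⟨h1, h2, h3⟩ := sum_cmp p.roots z hz hs
  have e3 : ‖(derivative (flip p)).eval z‖ = ‖p.eval z‖ *
      ‖(p.roots.map fun α => z * (1 / (z - rt α))).sum‖ := by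
    rw [e2, norm_mul, norm_eval_flip p z hz, Multiset.sum_map_mul_left, norm_mul, hz, one_mul]
    rfl
  have e4 : (X * derivative p).eval z = p.eval z *
      (p.roots.map fun α => z * (1 / (z - α))).sum := by
    rw [eval_mul, eval_X, e1, Multiset.sum_map_mul_left]
    ring
  have hcard : (p.roots.card : ℝ) = (p.natDegree : ℝ) := by
    rw [(IsAlgClosed.splits p).natDegree_eq_card_roots]
  rw [hcard] at h3
  have hn0 : (0 : ℝ) ≤ p.natDegree := Nat.cast_nonneg _
  rw [e3]
  have e6 : (C (p.natDegree : ℂ) * p - X * derivative p).eval z = (p.natDegree : ℂ) * p.eval z -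
      p.eval z * (p.roots.map fun α => z * (1 / (z - α))).sum := by
    rw [eval_sub, e4, eval_mul, eval_C]
  rw [e4, e6]
  constructor
  · rw [norm_mul]
    refine mul_le_mul_of_nonneg_left (norm_le_of_re_im _ _ h1 h2 ?_) (norm_nonneg _)
    linarith
  · have e5 : (p.natDegree : ℂ) * p.eval z - p.eval z *
        (p.roots.map fun α => z * (1 / (z - α))).sum =
        - (p.eval z * ((p.roots.map fun α => z * (1 / (z - α))).sum - (p.natDegree : ℂ))) := by ring
    rw [e5, norm_neg, norm_mul]
    refine mul_le_mul_of_nonneg_left (norm_le_of_re_im _ _ ?_ ?_ ?_) (norm_nonneg _)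
    · rw [h1]; simp
    · simp only [Complex.sub_re, Complex.natCast_re]
      linarith
    · simp only [Complex.sub_re, Complex.natCast_re]
      linarith

theorem mahler_mono (P Q : ℂ[X]) (h : ∀ᵐ τ : UnitAddCircle,
    ‖P.eval (AddCircle.toCircle τ : ℂ)‖ ≤ ‖Q.eval (AddCircle.toCircle τ : ℂ)‖) :
    P.mahlerMeasure ≤ Q.mahlerMeasure := by
  by_cases hP : P = 0
  · rw [hP, mahlerMeasure_zero]; exact mahlerMeasure_nonneg _
  have hQ : Q ≠ 0 := by
    rintro rfl
    obtain ⟨τ, h1, h2⟩ := (h.and (ae_eval_ne_zero P hP)).exists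
    rw [eval_zero, norm_zero] at h1
    exact h2 (norm_le_zero_iff.mp h1)
  have h1 : P.logMahlerMeasure ≤ Q.logMahlerMeasure := by
    rw [← integral_log_norm_eval, ← integral_log_norm_eval]
    refine integral_mono_ae (integrable_log_norm_eval P) (integrable_log_norm_eval Q) ?_
    filter_upwards [h, ae_eval_ne_zero P hP] with τ h1 h2
    exact Real.log_le_log (norm_pos_iff.mpr h2) h1
  rw [logMahlerMeasure_eq_log_MahlerMeasure, logMahlerMeasure_eq_log_MahlerMeasure] at h1
  exact (Real.log_le_log_iff (mahlerMeasure_pos_of_ne_zero hP)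
    (mahlerMeasure_pos_of_ne_zero hQ)).mp h1

theorem mahler_derivative_flip (p : ℂ[X]) (hp : p ≠ 0) :
    (derivative (flip p)).mahlerMeasure ≤ p.natDegree * p.mahlerMeasure := by
  have hq0 := flip_ne_zero hp
  by_cases hn : p.natDegree = 0
  · have h1 : (flip p).natDegree = 0 := by rw [natDegree_flip hp, hn]
    rw [derivative_of_natDegree_zero h1, mahlerMeasure_zero, hn]
    simp
  have hdeg : 0 < (flip p).degree := by
    rw [← natDegree_pos_iff_degree_pos, natDegree_flip hp]; omega
  rw [mahlerMeasure_eq_leadingCoeff_mul_prod_roots]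
  have h1 : ((derivative (flip p)).roots.map (fun a => max 1 ‖a‖)).prod = 1 := by
    apply Multiset.prod_eq_one
    intro x hx
    obtain ⟨α, hα, rfl⟩ := Multiset.mem_map.mp hx
    apply max_eq_left
    have h2 := rootSet_derivative_subset_convexHull_rootSet hdeg (a := α) (by
      rw [mem_rootSet]
      have := (mem_roots').mp hα
      exact ⟨this.1, by simpa using this.2⟩)
    have h3 : convexHull ℝ ((flip p).rootSet ℂ) ⊆ Metric.closedBall 0 1 := by
      apply convexHull_min _ (convex_closedBall _ _)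
      intro β hβ
      rw [mem_rootSet] at hβ
      have h4 : β ∈ (flip p).roots := by
        rw [mem_roots']
        exact ⟨hβ.1, by simpa using hβ.2⟩
      rw [roots_flip hp] at h4
      obtain ⟨γ, -, rfl⟩ := Multiset.mem_map.mp h4
      rw [mem_closedBall_zero_iff]
      exact norm_rt_le γ
    have h5 := h3 h2
    rwa [mem_closedBall_zero_iff] at h5
  rw [h1, mul_one]
  rw [leadingCoeff_derivative, norm_mul, norm_leadingCoeff_flip, natDegree_flip hp, mul_comm]
  simp

/-- Mahler's inequality for the derivative and the reversed derivative -/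
theorem mahler_deriv_le (p : ℂ[X]) :
    (X * derivative p).mahlerMeasure ≤ p.natDegree * p.mahlerMeasure ∧
    (C (p.natDegree : ℂ) * p - X * derivative p).mahlerMeasure ≤
      p.natDegree * p.mahlerMeasure := by
  by_cases hp : p = 0
  · simp [hp]
  have h1 := mahler_derivative_flip p hp
  constructor
  · refine le_trans (mahler_mono _ _ ?_) h1
    filter_upwards [ae_eval_ne_zero p hp] with τ hτ
    exact (pointwise_deriv p hp _ (Circle.norm_coe _) hτ).1
  · refine le_trans (mahler_mono _ _ ?_) h1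
    filter_upwards [ae_eval_ne_zero p hp] with τ hτ
    exact (pointwise_deriv p hp _ (Circle.norm_coe _) hτ).2

end Pool.Agent.H27Mahler
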