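import Mathlib

open Finsupp

namespace Pool.Agent.H27Mahler

variable {σ : Type*} [Fintype σ]

theorem weight_eq_sum {M : Type*} [CommSemiring M] (x : σ → M) (s : σ →₀ ℕ) :
    weight x s = ∑ i, (s i : M) * x i := by
  rw [weight_apply, Finsupp.sum_fintype _ _ (by simp)]
  simp

/-- a real direction can be replaced by an integer direction inducing the same order on a given
finite set of exponents -/
theorem exists_int_direction (T : Finset (σ →₀ ℕ)) (x : σ → ℝ) :
    ∃ lam : σ → ℤ, ∀ s ∈ T, ∀ s' ∈ T,
      (weight x s < weight x s' ↔ weight lam s < weight lam s') := by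
  classical
  set V : Submodule ℚ ℝ := Submodule.span ℚ (Set.range x) with hV
  have : FiniteDimensional ℚ V := FiniteDimensional.span_of_finite ℚ (Set.finite_range x)
  set b := Module.finBasis ℚ V with hb
  set m := Module.finrank ℚ V with hm
  have hxV : ∀ i, x i ∈ V := fun i => Submodule.subset_span ⟨i, rfl⟩
  set q : σ → Fin m → ℚ := fun i j => b.repr ⟨x i, hxV i⟩ j with hq
  have hx : ∀ i, x i = ∑ j, (q i j : ℝ) * (b j : ℝ) := by
    intro i
    have h1 := b.sum_repr ⟨x i, hxV i⟩
    have h2 := congrArg (Subtype.val) h1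
    simp only [Submodule.coe_sum, Submodule.coe_smul, Rat.smul_def] at h2
    exact h2.symm
  -- weights as functions of `c`
  set g : (σ →₀ ℕ) → (Fin m → ℝ) → ℝ := fun s c => ∑ i, (s i : ℝ) * ∑ j, (q i j : ℝ) * c j with hg
  have hgb : ∀ s, g s (fun j => (b j : ℝ)) = weight x s := by
    intro s
    rw [weight_eq_sum]
    simp only [hg]
    refine Finset.sum_congr rfl fun i _ => ?_
    rw [← hx i]
  have hgc : ∀ s, Continuous (g s) := by
    intro s
    simp only [hg]
    fun_prop
  -- equalities persist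
  have heq : ∀ s s', weight x s = weight x s' → ∀ c, g s c = g s' c := by
    intro s s' h c
    have hlin : ∀ (s : σ →₀ ℕ) (c : Fin m → ℝ),
        g s c = ∑ j, ((∑ i, (s i : ℚ) * q i j : ℚ) : ℝ) * c j := by
      intro s c
      simp only [hg]
      push_cast
      simp_rw [Finset.mul_sum, Finset.sum_mul]
      rw [Finset.sum_comm]
      refine Finset.sum_congr rfl fun j _ => Finset.sum_congr rfl fun i _ => by ring
    rw [hlin, hlin]
    have hlinind := b.linearIndependent
    rw [Fintype.linearIndependent_iff] at hlinind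
    have h3 := hlinind (fun j => (∑ i, (s i : ℚ) * q i j) - (∑ i, (s' i : ℚ) * q i j)) (by
      apply Subtype.ext
      simp only [Submodule.coe_sum, Submodule.coe_smul, Rat.smul_def, ZeroMemClass.coe_zero]
      have h4 := hgb s
      have h5 := hgb s'
      rw [hlin] at h4 h5
      push_cast at h4 h5 ⊢
      simp_rw [sub_mul]
      rw [Finset.sum_sub_distrib]
      linarith)
    refine Finset.sum_congr rfl fun j _ => ?_
    have := h3 j
    have h6 : (∑ i, (s i : ℚ) * q i j) = (∑ i, (s' i : ℚ) * q i j) := by linarith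
    rw [h6]
  have hev : ∀ᶠ c in nhds (fun j => (b j : ℝ)), ∀ s ∈ T, ∀ s' ∈ T,
      weight x s < weight x s' → g s c < g s' c := by
    rw [Filter.eventually_all_finset]
    intro s _
    rw [Filter.eventually_all_finset]
    intro s' _
    by_cases h : weight x s < weight x s'
    · have h1 : g s (fun j => (b j : ℝ)) < g s' (fun j => (b j : ℝ)) := by rwa [hgb, hgb]
      filter_upwards [(hgc s).continuousAt.eventually_lt (hgc s').continuousAt h1] with c hc _
      exact hc
    · exact Filter.Eventually.of_forall fun c hc => absurd hc h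
  obtain ⟨ε, hε, hball⟩ := Metric.eventually_nhds_iff.mp hev
  have hrat : ∀ j : Fin m, ∃ r : ℚ, |(r : ℝ) - (b j : ℝ)| < ε := by
    intro j
    obtain ⟨r, hr1, hr2⟩ := exists_rat_btwn (show (b j : ℝ) < (b j : ℝ) + ε by linarith)
    exact ⟨r, by rw [abs_lt]; constructor <;> linarith⟩
  choose c hc using hrat
  have hcc := hball (y := fun j => (c j : ℝ)) (by
    rw [dist_pi_lt_iff hε]
    intro j
    rw [Real.dist_eq]
    exact hc j)
  -- clear denominators
  set y : σ → ℚ := fun i => ∑ j, q i j * c j with hy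
  set N : ℕ := ∏ i, (y i).den with hN
  have hNpos : 0 < N := Finset.prod_pos fun i _ => (y i).den_pos
  have hint : ∀ i, ∃ z : ℤ, (z : ℚ) = N * y i := by
    intro i
    have hd : (y i).den ∣ N := Finset.dvd_prod_of_mem _ (Finset.mem_univ i)
    obtain ⟨k, hk⟩ := hd
    refine ⟨k * (y i).num, ?_⟩
    rw [hk]
    push_cast
    have := Rat.mul_den_eq_num (y i)
    rw [← this]
    ring
  choose lam hlam using hint
  have hw : ∀ s : σ →₀ ℕ, ((weight lam s : ℤ) : ℝ) = N * g s (fun j => (c j : ℝ)) := by
    intro s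
    rw [weight_eq_sum]
    push_cast
    simp only [hg]
    rw [Finset.mul_sum]
    refine Finset.sum_congr rfl fun i _ => ?_
    have h1 : ((lam i : ℤ) : ℝ) = N * (y i : ℝ) := by
      have := hlam i
      exact_mod_cast this
    rw [h1, hy]
    push_cast
    ring
  refine ⟨lam, fun s hs s' hs' => ?_⟩
  have hNR : (0 : ℝ) < N := by exact_mod_cast hNpos
  have key : weight lam s < weight lam s' ↔ g s (fun j => (c j : ℝ)) < g s' (fun j => (c j : ℝ)) := by
    rw [← @Int.cast_lt ℝ, hw, hw]
    exact mul_lt_mul_iff_right₀ hNR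
  rw [key]
  constructor
  · intro h
    exact hcc s hs s' hs' h
  · intro h
    by_contra hcon
    rcases lt_or_eq_of_le (not_lt.mp hcon) with h1 | h1
    · exact absurd (hcc s' hs' s hs h1) (not_lt.mpr h.le)
    · rw [heq s' s h1] at h
      exact lt_irrefl _ h

theorem exists_mem_avoid {V ι : Type*} [AddCommGroup V] [Module ℝ V] (E : Submodule ℝ V)
    (S : Finset ι) (W : ι → Submodule ℝ V) (h : ∀ i ∈ S, ¬ E ≤ W i) :
    ∃ e ∈ E, ∀ i ∈ S, e ∉ W i := by
  classical
  have h1 : (⊤ : Submodule ℝ E) ∉ S.image (fun i => (W i).comap E.subtype) := by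
    intro hmem
    obtain ⟨i, hi, h2⟩ := Finset.mem_image.mp hmem
    refine h i hi fun e he => ?_
    have h3 : (⟨e, he⟩ : E) ∈ (W i).comap E.subtype := by rw [h2]; trivial
    exact h3
  have h2 := Subspace.biUnion_ne_univ_of_top_notMem h1
  rw [Ne, Set.eq_univ_iff_forall, not_forall] at h2
  obtain ⟨e, he⟩ := h2
  refine ⟨e, e.2, fun i hi hmem => he ?_⟩
  simp only [Set.mem_iUnion]
  exact ⟨_, Finset.mem_image_of_mem _ hi, hmem⟩

end Pool.Agent.H27Mahler
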