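import Mathlib
import Pool.Agent.H27Mahler.Dir

open Finsupp (weight)
open MvPolynomial

set_option linter.unusedSectionVars false

namespace Pool.Agent.H27Mahler

section general

variable {σ : Type*} {Γ : Type*} [AddCommGroup Γ] [LinearOrder Γ] [IsOrderedAddMonoid Γ]

/-- minimal weight of a monomial of `A` in the direction `x` -/
noncomputable def minw (x : σ → Γ) (A : MvPolynomial σ ℤ) : Γ :=
  if h : A.support.Nonempty then A.support.inf' h (fun s => weight x s) else 0

/-- the part of `A` of minimal weight in the direction `x` -/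
noncomputable def face (x : σ → Γ) (A : MvPolynomial σ ℤ) : MvPolynomial σ ℤ :=
  weightedHomogeneousComponent x (minw x A) A

theorem minw_le {x : σ → Γ} {A : MvPolynomial σ ℤ} {s : σ →₀ ℕ} (hs : s ∈ A.support) :
    minw x A ≤ weight x s := by
  have h : A.support.Nonempty := ⟨s, hs⟩
  rw [minw, dif_pos h]
  exact Finset.inf'_le _ hs

theorem exists_minw_eq (x : σ → Γ) {A : MvPolynomial σ ℤ} (hA : A ≠ 0) :
    ∃ s ∈ A.support, minw x A = weight x s := by
  have h : A.support.Nonempty := support_nonempty.mpr hA
  rw [minw, dif_pos h]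
  exact Finset.exists_mem_eq_inf' h _

theorem whc_ne_zero_iff {x : σ → Γ} {A : MvPolynomial σ ℤ} {c : Γ} :
    weightedHomogeneousComponent x c A ≠ 0 ↔ ∃ s ∈ A.support, weight x s = c := by
  classical
  rw [← support_nonempty, support_weightedHomogeneousComponent]
  constructor
  · rintro ⟨s, hs⟩
    rw [Finset.mem_filter] at hs
    exact ⟨s, hs.1, hs.2⟩
  · rintro ⟨s, hs, h⟩
    exact ⟨s, Finset.mem_filter.mpr ⟨hs, h⟩⟩

theorem face_ne_zero (x : σ → Γ) {A : MvPolynomial σ ℤ} (hA : A ≠ 0) : face x A ≠ 0 := by
  rw [face, whc_ne_zero_iff]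
  obtain ⟨s, hs, h⟩ := exists_minw_eq x hA
  exact ⟨s, hs, h.symm⟩

theorem minw_eq_of {x : σ → Γ} {A : MvPolynomial σ ℤ} {c : Γ}
    (hc : ∀ s ∈ A.support, c ≤ weight x s)
    (hne : weightedHomogeneousComponent x c A ≠ 0) : minw x A = c := by
  obtain ⟨s, hs, h⟩ := whc_ne_zero_iff.mp hne
  have hA : A ≠ 0 := by rintro rfl; simp at hs
  refine le_antisymm ((minw_le hs).trans h.le) ?_
  obtain ⟨s', hs', h'⟩ := exists_minw_eq x hA
  rw [h']
  exact hc s' hs'

theorem face_eq_of {x : σ → Γ} {A : MvPolynomial σ ℤ} {c : Γ}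
    (hc : ∀ s ∈ A.support, c ≤ weight x s)
    (hne : weightedHomogeneousComponent x c A ≠ 0) :
    face x A = weightedHomogeneousComponent x c A := by
  rw [face, minw_eq_of hc hne]

@[simp] theorem minw_zero (x : σ → Γ) : minw x 0 = 0 := by simp [minw]
@[simp] theorem face_zero (x : σ → Γ) : face x 0 = 0 := by simp [face]

theorem whc_mul {x : σ → Γ} {A B : MvPolynomial σ ℤ} {a b : Γ}
    (ha : ∀ s ∈ A.support, a ≤ weight x s) (hb : ∀ s ∈ B.support, b ≤ weight x s) :
    weightedHomogeneousComponent x (a + b) (A * B) =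
      weightedHomogeneousComponent x a A * weightedHomogeneousComponent x b B := by
  classical
  ext d
  rw [coeff_weightedHomogeneousComponent]
  by_cases hd : weight x d = a + b
  · rw [if_pos hd, coeff_mul, coeff_mul]
    refine Finset.sum_congr rfl fun p hp => ?_
    rw [Finset.HasAntidiagonal.mem_antidiagonal] at hp
    rw [coeff_weightedHomogeneousComponent, coeff_weightedHomogeneousComponent]
    by_cases h1 : coeff p.1 A = 0
    · simp [h1]
    by_cases h2 : coeff p.2 B = 0
    · simp [h2]
    have h3 := ha p.1 (mem_support_iff.mpr h1)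
    have h4 := hb p.2 (mem_support_iff.mpr h2)
    have h5 : weight x p.1 + weight x p.2 = a + b := by
      rw [← map_add, hp, hd]
    have h6 : weight x p.1 = a := by
      refine le_antisymm ?_ h3
      by_contra hcon
      exact absurd h5 (ne_of_gt (add_lt_add_of_lt_of_le (not_le.mp hcon) h4))
    have h7 : weight x p.2 = b := by
      rw [h6] at h5
      exact add_left_cancel h5
    rw [if_pos h6, if_pos h7]
  · rw [if_neg hd]
    have h := (weightedHomogeneousComponent_isWeightedHomogeneous (w := x) a A).mul
      (weightedHomogeneousComponent_isWeightedHomogeneous (w := x) b B)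
    exact (h.coeff_eq_zero d hd).symm

theorem support_mul_weight_ge {x : σ → Γ} {A B : MvPolynomial σ ℤ} {a b : Γ}
    (ha : ∀ s ∈ A.support, a ≤ weight x s) (hb : ∀ s ∈ B.support, b ≤ weight x s) :
    ∀ s ∈ (A * B).support, a + b ≤ weight x s := by
  classical
  intro s hs
  have := support_mul A B hs
  rw [Finset.mem_add] at this
  obtain ⟨u, hu, v, hv, rfl⟩ := this
  rw [map_add]
  exact add_le_add (ha u hu) (hb v hv)

theorem minw_mul (x : σ → Γ) {A B : MvPolynomial σ ℤ} (hA : A ≠ 0) (hB : B ≠ 0) :
    minw x (A * B) = minw x A + minw x B := by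
  refine minw_eq_of (support_mul_weight_ge (fun s hs => minw_le hs) (fun s hs => minw_le hs)) ?_
  rw [whc_mul (fun s hs => minw_le hs) (fun s hs => minw_le hs)]
  exact mul_ne_zero (face_ne_zero x hA) (face_ne_zero x hB)

theorem face_mul (x : σ → Γ) {A B : MvPolynomial σ ℤ} :
    face x (A * B) = face x A * face x B := by
  by_cases hA : A = 0
  · simp [hA]
  by_cases hB : B = 0
  · simp [hB]
  rw [face, minw_mul x hA hB, whc_mul (fun s hs => minw_le hs) (fun s hs => minw_le hs), face, face]

theorem support_face [DecidableEq Γ] (x : σ → Γ) (A : MvPolynomial σ ℤ) :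
    (face x A).support = {s ∈ A.support | weight x s = minw x A} := by
  rw [face, support_weightedHomogeneousComponent]

theorem mem_support_face {x : σ → Γ} {A : MvPolynomial σ ℤ} {s : σ →₀ ℕ} :
    s ∈ (face x A).support ↔ s ∈ A.support ∧ weight x s = minw x A := by
  classical
  rw [support_face, Finset.mem_filter]

theorem coeff_face_ite [DecidableEq Γ] (x : σ → Γ) (A : MvPolynomial σ ℤ) (d : σ →₀ ℕ) :
    coeff d (face x A) = if weight x d = minw x A then coeff d A else 0 := by
  rw [face, coeff_weightedHomogeneousComponent]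

theorem coeff_face (x : σ → Γ) (A : MvPolynomial σ ℤ) {s : σ →₀ ℕ}
    (hs : s ∈ (face x A).support) : coeff s (face x A) = coeff s A := by
  classical
  rw [mem_support_face] at hs
  rw [face, coeff_weightedHomogeneousComponent, if_pos hs.2]

/-- `A` is its own face iff all its monomials have the same weight -/
theorem face_eq_self_iff {x : σ → Γ} {A : MvPolynomial σ ℤ} :
    face x A = A ↔ ∀ s ∈ A.support, ∀ s' ∈ A.support, weight x s = weight x s' := by
  classical
  by_cases hA : A = 0
  · simp [hA]
  constructor
  · intro h s hs s' hs'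
    rw [← h, mem_support_face] at hs hs'
    rw [hs.2, hs'.2]
  · intro h
    obtain ⟨s0, hs0, h0⟩ := exists_minw_eq x hA
    ext d
    rw [face, coeff_weightedHomogeneousComponent]
    by_cases hd : d ∈ A.support
    · rw [if_pos (by rw [h0]; exact h d hd s0 hs0)]
    · rw [notMem_support_iff.mp hd, ite_self]

theorem minw_of_homog {x : σ → Γ} {A : MvPolynomial σ ℤ} (h : face x A = A)
    {s : σ →₀ ℕ} (hs : s ∈ A.support) : minw x A = weight x s := by
  rw [← h, mem_support_face] at hs
  exact hs.2.symm

theorem face_idem (x : σ → Γ) (A : MvPolynomial σ ℤ) : face x (face x A) = face x A := by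
  rw [face_eq_self_iff]
  intro s hs s' hs'
  rw [mem_support_face] at hs hs'
  rw [hs.2, hs'.2]

theorem minw_face (x : σ → Γ) (A : MvPolynomial σ ℤ) : minw x (face x A) = minw x A := by
  by_cases hA : A = 0
  · simp [hA]
  obtain ⟨s, hs, h⟩ := exists_minw_eq x (face_ne_zero x hA)
  rw [h]
  exact (mem_support_face.mp hs).2

theorem le_minw {x : σ → Γ} {A : MvPolynomial σ ℤ} (hA : A ≠ 0) {c : Γ}
    (h : ∀ s ∈ A.support, c ≤ weight x s) : c ≤ minw x A := by
  obtain ⟨s, hs, h'⟩ := exists_minw_eq x hA
  rw [h']
  exact h s hs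

theorem le_minw_sub (x : σ → Γ) {A B : MvPolynomial σ ℤ} (h : A - B ≠ 0)
    (hAB : minw x A = minw x B) : minw x A ≤ minw x (A - B) := by
  classical
  refine le_minw h fun s hs => ?_
  have := support_sub σ A B hs
  rcases Finset.mem_union.mp this with h1 | h1
  · exact minw_le h1
  · rw [hAB]; exact minw_le h1

/-- the leading terms cancel iff the minimal weight goes up -/
theorem lt_minw_sub_iff (x : σ → Γ) {A B : MvPolynomial σ ℤ} (h : A - B ≠ 0)
    (hAB : minw x A = minw x B) : minw x A < minw x (A - B) ↔ face x A = face x B := by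
  classical
  have hle := le_minw_sub x h hAB
  have hgood : ∀ s ∈ (A - B).support, minw x A ≤ weight x s := fun s hs =>
    hle.trans (minw_le hs)
  have hcomp : weightedHomogeneousComponent x (minw x A) (A - B) = face x A - face x B := by
    rw [map_sub, face, face, ← hAB]
  constructor
  · intro hlt
    by_contra hne
    have h1 : weightedHomogeneousComponent x (minw x A) (A - B) ≠ 0 := by
      rw [hcomp]; exact sub_ne_zero.mpr hne
    exact absurd (minw_eq_of hgood h1) hlt.ne'
  · intro heq
    refine lt_of_le_of_ne hle fun hcon => ?_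
    have h1 := face_ne_zero x h
    rw [face, ← hcon, hcomp, heq, sub_self] at h1
    exact h1 rfl

end general

section real

variable {σ : Type*} [Fintype σ]

theorem weight_add_smul (x μ : σ → ℝ) (ε : ℝ) (s : σ →₀ ℕ) :
    weight (x + ε • μ) s = weight x s + ε * weight μ s := by
  simp only [weight_eq_sum, Pi.add_apply, Pi.smul_apply, smul_eq_mul, Finset.mul_sum,
    ← Finset.sum_add_distrib]
  exact Finset.sum_congr rfl fun i _ => by ring

theorem weight_add_dir (x μ : σ → ℝ) (s : σ →₀ ℕ) :
    weight (x + μ) s = weight x s + weight μ s := by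
  simpa using weight_add_smul x μ 1 s

theorem weight_smul_dir (x : σ → ℝ) (c : ℝ) (s : σ →₀ ℕ) :
    weight (c • x) s = c * weight x s := by
  simp only [weight_eq_sum, Pi.smul_apply, smul_eq_mul, Finset.mul_sum]
  exact Finset.sum_congr rfl fun i _ => by ring

/-- iterated faces are faces in perturbed directions -/
theorem face_perturb (x μ : σ → ℝ) {A : MvPolynomial σ ℤ} (hA : A ≠ 0) :
    ∀ᶠ ε in nhdsWithin (0 : ℝ) (Set.Ioi 0),
      minw (x + ε • μ) A = minw x A + ε * minw μ (face x A) ∧
      face (x + ε • μ) A = face μ (face x A) := by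
  classical
  set m := minw x A with hm
  set m' := minw μ (face x A) with hm'
  have hG := face_ne_zero x hA
  have h1 : ∀ s ∈ A.support, ∀ᶠ ε in nhdsWithin (0 : ℝ) (Set.Ioi 0),
      m + ε * m' ≤ weight (x + ε • μ) s ∧
      (weight (x + ε • μ) s = m + ε * m' ↔ (weight x s = m ∧ weight μ s = m')) := by
    intro s hs
    rcases eq_or_lt_of_le (minw_le (x := x) hs) with h | h
    · have hsG : s ∈ (face x A).support := mem_support_face.mpr ⟨hs, h.symm⟩
      have h2 : m' ≤ weight μ s := minw_le hsG
      filter_upwards [self_mem_nhdsWithin] with ε hε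
      have hε' : 0 < ε := hε
      rw [weight_add_smul, ← h, ← hm]
      refine ⟨by gcongr, ?_⟩
      constructor
      · intro h3
        exact ⟨rfl, mul_left_cancel₀ hε'.ne' (by linarith)⟩
      · rintro ⟨-, h3⟩
        rw [h3]
    · have h3 : Filter.Tendsto (fun ε : ℝ => m + ε * m') (nhdsWithin 0 (Set.Ioi 0))
          (nhds (m + 0 * m')) := by
        refine (Continuous.tendsto ?_ 0).mono_left nhdsWithin_le_nhds
        fun_prop
      have h4 : Filter.Tendsto (fun ε : ℝ => weight x s + ε * weight μ s)
          (nhdsWithin 0 (Set.Ioi 0)) (nhds (weight x s + 0 * weight μ s)) := by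
        refine (Continuous.tendsto ?_ 0).mono_left nhdsWithin_le_nhds
        fun_prop
      have h5 := h3.eventually_lt h4 (by simpa using h)
      filter_upwards [h5] with ε hε
      rw [weight_add_smul]
      refine ⟨hε.le, ?_⟩
      constructor
      · intro h6; exact absurd h6 hε.ne'
      · rintro ⟨h6, -⟩; exact absurd h6 h.ne'
  have h2 := (Filter.eventually_all_finset A.support).mpr h1
  filter_upwards [h2] with ε hε
  have hcomp : weightedHomogeneousComponent (x + ε • μ) (m + ε * m') A = face μ (face x A) := by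
    ext d
    rw [coeff_weightedHomogeneousComponent, coeff_face_ite μ (face x A), coeff_face_ite x A,
      ← hm', ← hm]
    by_cases hd : d ∈ A.support
    · have h3 := (hε d hd).2
      by_cases h4 : weight (x + ε • μ) d = m + ε * m'
      · rw [if_pos h4, if_pos (h3.mp h4).2, if_pos (h3.mp h4).1]
      · rw [if_neg h4]
        by_cases h5 : weight μ d = m'
        · rw [if_pos h5, if_neg]
          intro h6
          exact h4 (h3.mpr ⟨h6, h5⟩)
        · rw [if_neg]
          exact h5
    · rw [notMem_support_iff.mp hd]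
      simp
  have hne : weightedHomogeneousComponent (x + ε • μ) (m + ε * m') A ≠ 0 := by
    rw [hcomp]; exact face_ne_zero μ hG
  exact ⟨minw_eq_of (fun s hs => (hε s hs).1) hne,
    by rw [face_eq_of (fun s hs => (hε s hs).1) hne, hcomp]⟩

theorem face_congr_dir {x : σ → ℝ} {lam : σ → ℤ} {A : MvPolynomial σ ℤ}
    (h : ∀ s ∈ A.support, ∀ s' ∈ A.support,
      (weight x s < weight x s' ↔ weight lam s < weight lam s')) : face lam A = face x A := by
  classical
  by_cases hA : A = 0
  · simp [hA]
  obtain ⟨s0, hs0, h0⟩ := exists_minw_eq x hA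
  obtain ⟨s1, hs1, h1⟩ := exists_minw_eq lam hA
  ext d
  rw [face, face, coeff_weightedHomogeneousComponent, coeff_weightedHomogeneousComponent]
  by_cases hd : d ∈ A.support
  · have h2 : weight lam d = minw lam A ↔ weight x d = minw x A := by
      constructor
      · intro h3
        refine le_antisymm ?_ (minw_le hd)
        rw [h0]
        by_contra hcon
        have h4 := (h s0 hs0 d hd).mp (not_le.mp hcon)
        rw [h3] at h4
        exact absurd (minw_le (x := lam) hs0) (not_le.mpr h4)
      · intro h3
        refine le_antisymm ?_ (minw_le hd)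
        rw [h1]
        by_contra hcon
        have h4 := (h s1 hs1 d hd).mpr (not_le.mp hcon)
        rw [h3] at h4
        exact absurd (minw_le (x := x) hs1) (not_le.mpr h4)
    by_cases h3 : weight x d = minw x A
    · rw [if_pos h3, if_pos (h2.mpr h3)]
    · rw [if_neg h3, if_neg (fun h4 => h3 (h2.mp h4))]
  · rw [notMem_support_iff.mp hd]
    simp

theorem exists_int_dir_face (x : σ → ℝ) (A B : MvPolynomial σ ℤ) :
    ∃ lam : σ → ℤ, face lam A = face x A ∧ face lam B = face x B := by
  classical
  obtain ⟨lam, hlam⟩ := exists_int_direction (A.support ∪ B.support) x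
  refine ⟨lam, face_congr_dir fun s hs s' hs' => hlam s ?_ s' ?_,
    face_congr_dir fun s hs s' hs' => hlam s ?_ s' ?_⟩
  · exact Finset.mem_union_left _ hs
  · exact Finset.mem_union_left _ hs'
  · exact Finset.mem_union_right _ hs
  · exact Finset.mem_union_right _ hs'

end real

end Pool.Agent.H27Mahler
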