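import Mathlib
import Pool.Agent.H27Mahler.OneVar

open MeasureTheory

namespace Pool.Agent.H27Mahler

/-- the torus -/
abbrev Tor (σ : Type*) := σ → UnitAddCircle

instance instProbCircle : IsProbabilityMeasure (volume : Measure UnitAddCircle) :=
  ⟨UnitAddCircle.measure_univ⟩

variable {σ : Type*} [Fintype σ]

theorem isAddHaar_prod :
    ((volume : Measure (Tor σ)).prod (volume : Measure (UnitAddCircle))).IsAddHaarMeasure :=
  Measure.prod.instIsAddHaarMeasure _ _

/-- a surjective continuous homomorphism of tori preserves the measure -/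
theorem measurePreserving_of_surjective {τ : Type*} [Fintype τ] (f : Tor σ →+ Tor τ)
    (hc : Continuous f) (hs : Function.Surjective f) :
    MeasurePreserving f volume volume :=
  f.measurePreserving hc hs (by simp)

/-- shear homomorphism -/
def shear (lam : σ → ℤ) : (Tor σ × UnitAddCircle) →+ Tor σ where
  toFun p := fun i => p.1 i + lam i • p.2
  map_zero' := by ext; simp
  map_add' p q := by
    funext i
    simp only [Prod.fst_add, Prod.snd_add, Pi.add_apply, smul_add]
    abel

omit [Fintype σ] in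
theorem continuous_shear (lam : σ → ℤ) : Continuous (shear lam) := by
  unfold shear
  refine continuous_pi fun i => ?_
  show Continuous fun p : Tor σ × UnitAddCircle => p.1 i + lam i • p.2
  fun_prop

omit [Fintype σ] in
theorem shear_apply (lam : σ → ℤ) (t : Tor σ) (τ : UnitAddCircle) (i : σ) :
    shear lam (t, τ) i = t i + lam i • τ := rfl

theorem measurePreserving_shear (lam : σ → ℤ) :
    MeasurePreserving (shear lam)
      ((volume : Measure (Tor σ)).prod (volume : Measure UnitAddCircle)) volume := by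
  have := isAddHaar_prod (σ := σ)
  refine (shear lam).measurePreserving (continuous_shear lam) ?_ (by simp)
  intro t
  exact ⟨(t, 0), by funext i; simp [shear_apply]⟩

theorem integral_eq_shear (lam : σ → ℤ) (G : Tor σ → ℝ) (hG : Integrable G) :
    ∫ t, G t = ∫ t, ∫ τ, G (shear lam (t, τ)) := by
  have hmp := measurePreserving_shear lam
  have h1 : ∫ p : Tor σ × UnitAddCircle, G (shear lam p)
      ∂((volume : Measure (Tor σ)).prod (volume : Measure UnitAddCircle)) = ∫ t, G t := by
    have h2 := integral_map hmp.measurable.aemeasurable (f := G)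
      (by rw [hmp.map_eq]; exact hG.aestronglyMeasurable)
    rw [hmp.map_eq] at h2
    exact h2.symm
  rw [← h1]
  have hG2 : Integrable (fun p : Tor σ × UnitAddCircle => G (shear lam p))
      ((volume : Measure (Tor σ)).prod (volume : Measure UnitAddCircle)) := hmp.integrable_comp_of_integrable hG
  exact integral_prod _ hG2

theorem integrable_shear_left (lam : σ → ℤ) (G : Tor σ → ℝ) (hG : Integrable G) :
    Integrable (fun t => ∫ τ, G (shear lam (t, τ))) := by
  have hmp := measurePreserving_shear lam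
  have hG2 : Integrable (fun p : Tor σ × UnitAddCircle => G (shear lam p))
      ((volume : Measure (Tor σ)).prod (volume : Measure UnitAddCircle)) := hmp.integrable_comp_of_integrable hG
  exact hG2.integral_prod_left

theorem lintegral_eq_shear (lam : σ → ℤ) (G : Tor σ → ENNReal) (hG : Measurable G) :
    ∫⁻ t, G t = ∫⁻ t, ∫⁻ τ, G (shear lam (t, τ)) := by
  have hmp := measurePreserving_shear lam
  have h1 := hmp.lintegral_comp hG
  rw [← h1]
  exact lintegral_prod _ (hG.comp hmp.measurable).aemeasurable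

theorem ae_of_shear (lam : σ → ℤ) {p : Tor σ → Prop} (hm : MeasurableSet {t | p t})
    (h : ∀ᵐ t : Tor σ, ∀ᵐ τ : UnitAddCircle, p (shear lam (t, τ))) : ∀ᵐ t, p t := by
  have hmp := measurePreserving_shear lam
  rw [← hmp.map_eq]
  rw [ae_map_iff hmp.measurable.aemeasurable hm]
  exact (Measure.ae_prod_iff_ae_ae (hmp.measurable hm)).mpr h

/-- evaluation of an integer polynomial at a point of the torus -/
noncomputable def ev (t : Tor σ) : MvPolynomial σ ℤ →+* ℂ :=
  MvPolynomial.eval₂Hom (Int.castRingHom ℂ) (fun i => (AddCircle.toCircle (t i) : ℂ))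

/-- value of a monomial -/
noncomputable def mon (t : Tor σ) (s : σ →₀ ℕ) : ℂ := ∏ i, (AddCircle.toCircle (t i) : ℂ) ^ (s i)

theorem norm_mon (t : Tor σ) (s : σ →₀ ℕ) : ‖mon t s‖ = 1 := by
  simp [mon, Circle.norm_coe]

theorem ev_eq_sum (t : Tor σ) (A : MvPolynomial σ ℤ) :
    ev t A = ∑ s ∈ A.support, ((A.coeff s : ℤ) : ℂ) * mon t s := by
  simp only [ev, MvPolynomial.coe_eval₂Hom, MvPolynomial.eval₂_eq', mon, eq_intCast]

theorem continuous_ev (A : MvPolynomial σ ℤ) : Continuous fun t : Tor σ => ev t A := by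
  simp only [ev_eq_sum, mon]
  have := AddCircle.continuous_toCircle (T := (1:ℝ))
  fun_prop

theorem mon_shear (lam : σ → ℤ) (t : Tor σ) (τ : UnitAddCircle) (s : σ →₀ ℕ) :
    mon (shear lam (t, τ)) s =
      mon t s * (AddCircle.toCircle τ : ℂ) ^ (Finsupp.weight lam s) := by
  simp only [mon, shear_apply, AddCircle.toCircle_add, AddCircle.toCircle_zsmul, Circle.coe_mul,
    Circle.coe_zpow, mul_pow, Finset.prod_mul_distrib]
  congr 1
  rw [Finsupp.weight_apply, Finsupp.sum_fintype _ _ (by simp)]
  have h0 : (AddCircle.toCircle τ : ℂ) ≠ 0 := Circle.coe_ne_zero _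
  have : ∀ (u : Finset σ), ∏ i ∈ u, ((AddCircle.toCircle τ : ℂ) ^ lam i) ^ s i =
      (AddCircle.toCircle τ : ℂ) ^ (∑ i ∈ u, s i • lam i) := by
    intro u
    induction u using Finset.cons_induction with
    | empty => simp
    | cons a u ha ih =>
      rw [Finset.prod_cons, Finset.sum_cons, ih, zpow_add₀ h0, ← zpow_natCast, ← zpow_mul]
      simp [mul_comm]
  exact this _

/-- the one-variable polynomial obtained by slicing in the direction `lam` -/
noncomputable def slice (lam : σ → ℤ) (a : ℤ) (A : MvPolynomial σ ℤ) (t : Tor σ) :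
    Polynomial ℂ :=
  ∑ s ∈ A.support,
    Polynomial.monomial (Finsupp.weight lam s - a).toNat (((A.coeff s : ℤ) : ℂ) * mon t s)

theorem ev_shear (lam : σ → ℤ) (a : ℤ) (A : MvPolynomial σ ℤ)
    (ha : ∀ s ∈ A.support, a ≤ Finsupp.weight lam s) (t : Tor σ) (τ : UnitAddCircle) :
    ev (shear lam (t, τ)) A =
      (AddCircle.toCircle τ : ℂ) ^ a * (slice lam a A t).eval (AddCircle.toCircle τ : ℂ) := by
  have h0 : (AddCircle.toCircle τ : ℂ) ≠ 0 := Circle.coe_ne_zero _
  rw [ev_eq_sum, slice, Polynomial.eval_finsetSum, Finset.mul_sum]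
  refine Finset.sum_congr rfl fun s hs => ?_
  rw [mon_shear, Polynomial.eval_monomial, ← zpow_natCast,
    Int.toNat_of_nonneg (sub_nonneg.mpr (ha s hs)), zpow_sub₀ h0]
  have : (AddCircle.toCircle τ : ℂ) ^ a ≠ 0 := zpow_ne_zero _ h0
  field_simp

theorem norm_ev_shear (lam : σ → ℤ) (a : ℤ) (A : MvPolynomial σ ℤ)
    (ha : ∀ s ∈ A.support, a ≤ Finsupp.weight lam s) (t : Tor σ) (τ : UnitAddCircle) :
    ‖ev (shear lam (t, τ)) A‖ = ‖(slice lam a A t).eval (AddCircle.toCircle τ : ℂ)‖ := by
  rw [ev_shear lam a A ha, norm_mul, norm_zpow, Circle.norm_coe, one_zpow, one_mul]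

theorem coeff_slice (lam : σ → ℤ) (a : ℤ) (A : MvPolynomial σ ℤ)
    (ha : ∀ s ∈ A.support, a ≤ Finsupp.weight lam s) (t : Tor σ) (n : ℕ) :
    (slice lam a A t).coeff n =
      ev t (MvPolynomial.weightedHomogeneousComponent lam (a + n) A) := by
  classical
  rw [slice, Polynomial.finsetSum_coeff, ev_eq_sum,
    MvPolynomial.support_weightedHomogeneousComponent, Finset.sum_filter]
  refine Finset.sum_congr rfl fun s hs => ?_
  rw [Polynomial.coeff_monomial, MvPolynomial.coeff_weightedHomogeneousComponent]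
  have := ha s hs
  by_cases h : Finsupp.weight lam s = a + n
  · rw [if_pos h, if_pos h, if_pos (by omega)]
  · rw [if_neg h, if_neg (by omega)]

end Pool.Agent.H27Mahler
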