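import Mathlib
import Pool.Agent.H27Mahler.Torus
import Pool.Agent.H27Mahler.Face

open Finsupp (weight)
open MvPolynomial MeasureTheory

set_option linter.unusedSectionVars false

namespace Pool.Agent.H27Mahler

variable {σ : Type*} [Fintype σ]

/-- the weight as a linear functional of the direction -/
noncomputable def wlin (s : σ →₀ ℕ) : (σ → ℝ) →ₗ[ℝ] ℝ where
  toFun x := weight x s
  map_add' x y := weight_add_dir x y s
  map_smul' c x := by simp [weight_smul_dir]

@[simp] theorem wlin_apply (s : σ →₀ ℕ) (x : σ → ℝ) : wlin s x = weight x s := rfl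

theorem exists_real_injective (T : Finset (σ →₀ ℕ)) :
    ∃ x : σ → ℝ, ∀ s ∈ T, ∀ s' ∈ T, weight x s = weight x s' → s = s' := by
  classical
  obtain ⟨x, -, hx⟩ := exists_mem_avoid (⊤ : Submodule ℝ (σ → ℝ))
    ((T ×ˢ T).filter (fun p => p.1 ≠ p.2)) (fun p => LinearMap.ker (wlin p.1 - wlin p.2)) (by
      intro p hp hle
      have hne := (Finset.mem_filter.mp hp).2
      obtain ⟨i, hi⟩ : ∃ i, p.1 i ≠ p.2 i := by
        by_contra hcon
        push Not at hcon
        exact hne (Finsupp.ext hcon)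
      have h1 := hle (x := Pi.single i 1) trivial
      simp only [LinearMap.mem_ker, LinearMap.sub_apply, wlin_apply,
        Finsupp.weight_single_index] at h1
      simp only [nsmul_eq_mul, mul_one] at h1
      exact hi (by exact_mod_cast sub_eq_zero.mp h1))
  refine ⟨x, fun s hs s' hs' h => ?_⟩
  by_contra hne
  refine hx (s, s') (Finset.mem_filter.mpr ⟨Finset.mem_product.mpr ⟨hs, hs'⟩, hne⟩) ?_
  simp [h]

theorem exists_int_injective (T : Finset (σ →₀ ℕ)) :
    ∃ lam : σ → ℤ, ∀ s ∈ T, ∀ s' ∈ T, weight lam s = weight lam s' → s = s' := by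
  obtain ⟨x, hx⟩ := exists_real_injective T
  obtain ⟨lam, hlam⟩ := exists_int_direction T x
  refine ⟨lam, fun s hs s' hs' h => hx s hs s' hs' ?_⟩
  rcases lt_trichotomy (weight x s) (weight x s') with h1 | h1 | h1
  · exact absurd h ((hlam s hs s' hs').mp h1).ne
  · exact h1
  · exact absurd h ((hlam s' hs' s hs).mp h1).ne'

theorem norm_ev_whc_of_injective {lam : σ → ℤ} {F : MvPolynomial σ ℤ}
    (hinj : ∀ s ∈ F.support, ∀ s' ∈ F.support, weight lam s = weight lam s' → s = s')
    {s : σ →₀ ℕ} (hs : s ∈ F.support) (t : Tor σ) :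
    ‖ev t (weightedHomogeneousComponent lam (weight lam s) F)‖ = |((F.coeff s : ℤ) : ℝ)| := by
  classical
  have hsupp : (weightedHomogeneousComponent lam (weight lam s) F).support = {s} := by
    rw [support_weightedHomogeneousComponent]
    ext d
    simp only [Finset.mem_filter, Finset.mem_singleton]
    constructor
    · rintro ⟨h1, h2⟩
      exact hinj d h1 s hs h2
    · rintro rfl
      exact ⟨hs, rfl⟩
  rw [ev_eq_sum, hsupp, Finset.sum_singleton, norm_mul, norm_mon, mul_one,
    coeff_weightedHomogeneousComponent, if_pos rfl]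
  rw [← Complex.ofReal_intCast, Complex.norm_real, Real.norm_eq_abs]

theorem one_le_abs_coeff {F : MvPolynomial σ ℤ} {s : σ →₀ ℕ} (hs : s ∈ F.support) :
    1 ≤ |((F.coeff s : ℤ) : ℝ)| := by
  have h := mem_support_iff.mp hs
  have h1 : 1 ≤ |F.coeff s| := Int.one_le_abs h
  exact_mod_cast h1

theorem exists_slice_dir {F : MvPolynomial σ ℤ} (hF : F ≠ 0) :
    ∃ (lam : σ → ℤ), ∀ t : Tor σ, 1 ≤ ‖(slice lam (minw lam F) F t).coeff 0‖ := by
  obtain ⟨lam, hlam⟩ := exists_int_injective F.support
  refine ⟨lam, fun t => ?_⟩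
  obtain ⟨s, hs, h⟩ := exists_minw_eq lam hF
  rw [coeff_slice lam _ F (fun s hs => minw_le hs), Nat.cast_zero, add_zero, h,
    norm_ev_whc_of_injective hlam hs]
  exact one_le_abs_coeff hs

theorem ae_ev_ne_zero {F : MvPolynomial σ ℤ} (hF : F ≠ 0) : ∀ᵐ t : Tor σ, ev t F ≠ 0 := by
  obtain ⟨lam, hlam⟩ := exists_slice_dir hF
  refine ae_of_shear lam ?_ (Filter.Eventually.of_forall fun t => ?_)
  · exact ((isClosed_singleton (x := (0 : ℂ))).preimage (continuous_ev F)).measurableSet.compl
  · have hne : slice lam (minw lam F) F t ≠ 0 := by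
      intro h
      have := hlam t
      rw [h] at this
      simp at this
      linarith
    filter_upwards [ae_eval_ne_zero _ hne] with τ hτ
    rw [← norm_pos_iff, norm_ev_shear lam (minw lam F) F (fun s hs => minw_le hs)]
    exact norm_pos_iff.mpr hτ

theorem exists_bound_ev (F : MvPolynomial σ ℤ) : ∃ C : ℝ, 1 ≤ C ∧ ∀ t : Tor σ, ‖ev t F‖ ≤ C := by
  obtain ⟨C, hC⟩ := (isCompact_range (continuous_ev F).norm).bddAbove
  exact ⟨max C 1, le_max_right _ _, fun t => (hC ⟨t, rfl⟩).trans (le_max_left _ _)⟩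

/-- logarithmic Mahler measure -/
noncomputable def mm (F : MvPolynomial σ ℤ) : ℝ := ∫ t : Tor σ, Real.log ‖ev t F‖

/-- the two-polynomial height -/
noncomputable def LL (A B : MvPolynomial σ ℤ) : ℝ :=
  ∫ t : Tor σ, Real.log (‖ev t A‖ ^ 2 + ‖ev t B‖ ^ 2)

theorem measurable_log_ev (F : MvPolynomial σ ℤ) :
    Measurable fun t : Tor σ => Real.log ‖ev t F‖ :=
  Real.measurable_log.comp (continuous_ev F).norm.measurable

theorem integrable_log_ev {F : MvPolynomial σ ℤ} (hF : F ≠ 0) :
    Integrable fun t : Tor σ => Real.log ‖ev t F‖ := by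
  obtain ⟨lam, hlam⟩ := exists_slice_dir hF
  obtain ⟨C, hC1, hC⟩ := exists_bound_ev F
  have hle : ∀ t : Tor σ, Real.log ‖ev t F‖ ≤ Real.log C := by
    intro t
    rcases eq_or_ne (ev t F) 0 with h | h
    · rw [h]; simpa using Real.log_nonneg hC1
    · exact Real.log_le_log (norm_pos_iff.mpr h) (hC t)
  have hnn : ∀ t : Tor σ, 0 ≤ Real.log C - Real.log ‖ev t F‖ := fun t => by
    have := hle t
    linarith
  have hmeas : Measurable fun t : Tor σ => Real.log C - Real.log ‖ev t F‖ :=
    measurable_const.sub (measurable_log_ev F)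
  have hG : Integrable fun t : Tor σ => Real.log C - Real.log ‖ev t F‖ := by
    refine ⟨hmeas.aestronglyMeasurable, ?_⟩
    rw [hasFiniteIntegral_iff_ofReal (Filter.Eventually.of_forall hnn)]
    rw [lintegral_eq_shear lam _ hmeas.ennreal_ofReal]
    have hin : ∀ t : Tor σ, ∫⁻ τ, ENNReal.ofReal
        (Real.log C - Real.log ‖ev (shear lam (t, τ)) F‖) ≤ ENNReal.ofReal (Real.log C) := by
      intro t
      have hi := integrable_log_norm_eval (slice lam (minw lam F) F t)
      have h1 : ∀ τ : UnitAddCircle, Real.log ‖ev (shear lam (t, τ)) F‖ =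
          Real.log ‖(slice lam (minw lam F) F t).eval (AddCircle.toCircle τ : ℂ)‖ := by
        intro τ
        rw [norm_ev_shear lam (minw lam F) F (fun s hs => minw_le hs)]
      have hi2 : Integrable fun τ : UnitAddCircle =>
          Real.log C - Real.log ‖ev (shear lam (t, τ)) F‖ := by
        simp_rw [h1]
        exact (integrable_const _).sub hi
      rw [← ofReal_integral_eq_lintegral_ofReal hi2
        (Filter.Eventually.of_forall fun τ => hnn _)]
      refine ENNReal.ofReal_le_ofReal ?_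
      simp_rw [h1]
      rw [integral_sub (integrable_const _) hi, integral_const]
      have h2 := log_coeff_zero_le (slice lam (minw lam F) F t) (by
        have := hlam t
        intro h
        rw [h] at this
        simp at this
        linarith)
      have h3 : 0 ≤ Real.log ‖(slice lam (minw lam F) F t).coeff 0‖ := Real.log_nonneg (hlam t)
      simp only [probReal_univ, one_smul]
      linarith
    refine (lintegral_mono hin).trans_lt ?_
    simp
  have := (integrable_const (Real.log C)).sub hG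
  exact this.congr (Filter.Eventually.of_forall fun t => by simp)

theorem mm_eq_slice {F : MvPolynomial σ ℤ} (hF : F ≠ 0) (lam : σ → ℤ) (a : ℤ)
    (ha : ∀ s ∈ F.support, a ≤ weight lam s) :
    mm F = ∫ t : Tor σ, ∫ τ : UnitAddCircle,
      Real.log ‖(slice lam a F t).eval (AddCircle.toCircle τ : ℂ)‖ := by
  rw [mm, integral_eq_shear lam _ (integrable_log_ev hF)]
  simp_rw [norm_ev_shear lam a F ha]

theorem integrable_slice {F : MvPolynomial σ ℤ} (hF : F ≠ 0) (lam : σ → ℤ) (a : ℤ)
    (ha : ∀ s ∈ F.support, a ≤ weight lam s) :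
    Integrable fun t : Tor σ => ∫ τ : UnitAddCircle,
      Real.log ‖(slice lam a F t).eval (AddCircle.toCircle τ : ℂ)‖ := by
  have := integrable_shear_left lam _ (integrable_log_ev hF)
  simp_rw [norm_ev_shear lam a F ha] at this
  exact this

theorem mm_nonneg (F : MvPolynomial σ ℤ) : 0 ≤ mm F := by
  by_cases hF : F = 0
  · simp [mm, hF]
  obtain ⟨lam, hlam⟩ := exists_slice_dir hF
  rw [mm_eq_slice hF lam (minw lam F) (fun s hs => minw_le hs)]
  refine integral_nonneg fun t => ?_
  have h2 := log_coeff_zero_le (slice lam (minw lam F) F t) (by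
    have := hlam t
    intro h
    rw [h] at this
    simp at this
    linarith)
  exact (Real.log_nonneg (hlam t)).trans h2

theorem mm_mul {F G : MvPolynomial σ ℤ} (hF : F ≠ 0) (hG : G ≠ 0) : mm (F * G) = mm F + mm G := by
  rw [mm, mm, mm, ← integral_add (integrable_log_ev hF) (integrable_log_ev hG)]
  refine integral_congr_ae ?_
  filter_upwards [ae_ev_ne_zero hF, ae_ev_ne_zero hG] with t h1 h2
  rw [map_mul, norm_mul, Real.log_mul (norm_ne_zero_iff.mpr h1) (norm_ne_zero_iff.mpr h2)]

theorem integrable_LL {A : MvPolynomial σ ℤ} (hA : A ≠ 0) (B : MvPolynomial σ ℤ) :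
    Integrable fun t : Tor σ => Real.log (‖ev t A‖ ^ 2 + ‖ev t B‖ ^ 2) := by
  obtain ⟨C, hC1, hC⟩ := exists_bound_ev A
  obtain ⟨C', hC1', hC'⟩ := exists_bound_ev B
  refine integrable_log_sq_add (C := C ^ 2 + C' ^ 2) (continuous_ev A).measurable
    (continuous_ev B).measurable ?_ (integrable_log_ev hA) (ae_ev_ne_zero hA)
  intro x
  have h1 := hC x
  have h2 := hC' x
  gcongr

theorem two_mm_le_LL {A : MvPolynomial σ ℤ} (hA : A ≠ 0) (B : MvPolynomial σ ℤ) :
    2 * mm A ≤ LL A B := by
  rw [mm, LL, ← integral_const_mul]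
  refine integral_mono_ae ((integrable_log_ev hA).const_mul 2) (integrable_LL hA B) ?_
  filter_upwards [ae_ev_ne_zero hA] with t ht
  have h0 : 0 < ‖ev t A‖ := norm_pos_iff.mpr ht
  have : 2 * Real.log ‖ev t A‖ = Real.log (‖ev t A‖ ^ 2) := by rw [Real.log_pow]; norm_num
  show 2 * Real.log ‖ev t A‖ ≤ _
  rw [this]
  exact Real.log_le_log (by positivity) (by nlinarith [sq_nonneg ‖ev t B‖])

theorem LL_nonneg {A : MvPolynomial σ ℤ} (hA : A ≠ 0) (B : MvPolynomial σ ℤ) : 0 ≤ LL A B := by
  have := two_mm_le_LL hA B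
  have h2 := mm_nonneg A
  linarith

theorem LL_mul {A B D : MvPolynomial σ ℤ} (hA : A ≠ 0) (hD : D ≠ 0) :
    LL (D * A) (D * B) = 2 * mm D + LL A B := by
  rw [LL, LL, mm, ← integral_const_mul, ← integral_add ((integrable_log_ev hD).const_mul 2)
    (integrable_LL hA B)]
  refine integral_congr_ae ?_
  filter_upwards [ae_ev_ne_zero hA, ae_ev_ne_zero hD] with t h1 h2
  have h1' : 0 < ‖ev t A‖ := norm_pos_iff.mpr h1
  have h2' : 0 < ‖ev t D‖ := norm_pos_iff.mpr h2
  have h3 : 2 * Real.log ‖ev t D‖ = Real.log (‖ev t D‖ ^ 2) := by rw [Real.log_pow]; norm_num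
  rw [h3, ← Real.log_mul (by positivity) (by positivity)]
  congr 1
  rw [map_mul, map_mul, norm_mul, norm_mul]
  ring

end Pool.Agent.H27Mahler
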