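import Mathlib
import Pool.Agent.H27Mahler.Analysis

open Finsupp (weight)
open MvPolynomial MeasureTheory

set_option linter.unusedSectionVars false

namespace Pool.Agent.H27Mahler

variable {σ : Type*} [Fintype σ]

theorem whc_mul_homog {Γ : Type*} [AddCommGroup Γ] {x : σ → Γ} {G B : MvPolynomial σ ℤ} {a c : Γ}
    (hG : IsWeightedHomogeneous x G a) :
    weightedHomogeneousComponent x (a + c) (G * B) =
      G * weightedHomogeneousComponent x c B := by
  classical
  ext d
  rw [coeff_weightedHomogeneousComponent, coeff_mul]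
  by_cases hd : weight x d = a + c
  · rw [if_pos hd, coeff_mul]
    refine Finset.sum_congr rfl fun p hp => ?_
    rw [Finset.HasAntidiagonal.mem_antidiagonal] at hp
    rw [coeff_weightedHomogeneousComponent]
    by_cases h1 : coeff p.1 G = 0
    · simp [h1]
    have h2 : weight x p.1 = a := hG h1
    have h3 : weight x p.2 = c := by
      rw [← hp, map_add, h2] at hd
      exact add_left_cancel hd
    rw [if_pos h3]
  · rw [if_neg hd]
    have h := hG.mul (weightedHomogeneousComponent_isWeightedHomogeneous (w := x) c B)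
    exact (h.coeff_eq_zero d hd).symm

theorem log_add_sq_div_ge (N r c : ℝ) (hN : 0 < N) (hr : 0 < r) (hc : 0 ≤ c) :
    Real.log N + Real.exp (-c) * (2 * Real.log r - 2 * Real.log N + c) ≤
      Real.log (N + r ^ 2 / N) := by
  have h4 : N + r ^ 2 / N = N * (1 + r ^ 2 / N ^ 2) := by
    field_simp
  have h5 : r ^ 2 / N ^ 2 = Real.exp (2 * Real.log r - 2 * Real.log N) := by
    rw [Real.exp_sub]
    congr 1
    · rw [mul_comm, Real.exp_mul, Real.exp_log hr]; norm_num
    · rw [mul_comm, Real.exp_mul, Real.exp_log hN]; norm_num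
  rw [h4, Real.log_mul hN.ne' (by positivity), h5]
  have h6 := log_one_add_exp_ge (2 * Real.log r - 2 * Real.log N) c hc
  linarith

theorem slice_comb (lam : σ → ℤ) (A B : MvPolynomial σ ℤ) (t : Tor σ) :
    Polynomial.C ((slice lam (minw lam A) A t).coeff 0) * slice lam (minw lam B) B t -
      Polynomial.C ((slice lam (minw lam B) B t).coeff 0) * slice lam (minw lam A) A t =
    slice lam (minw lam A + minw lam B) (face lam A * B - face lam B * A) t := by
  set a := minw lam A
  set b := minw lam B
  have h1 : ∀ s ∈ (face lam A * B - face lam B * A).support, a + b ≤ weight lam s := by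
    classical
    intro s hs
    rcases Finset.mem_union.mp (support_sub σ _ _ hs) with h | h
    · refine support_mul_weight_ge (fun s hs => ?_) (fun s hs => minw_le hs) s h
      exact (mem_support_face.mp hs).2.ge
    · rw [add_comm]
      refine support_mul_weight_ge (fun s hs => ?_) (fun s hs => minw_le hs) s h
      exact (mem_support_face.mp hs).2.ge
  ext n
  rw [Polynomial.coeff_sub, Polynomial.coeff_C_mul, Polynomial.coeff_C_mul,
    coeff_slice lam _ _ h1, coeff_slice lam _ A (fun s hs => minw_le hs),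
    coeff_slice lam _ B (fun s hs => minw_le hs), coeff_slice lam _ A (fun s hs => minw_le hs),
    coeff_slice lam _ B (fun s hs => minw_le hs), map_sub]
  have h2 : weightedHomogeneousComponent lam (a + b + n) (face lam A * B) =
      face lam A * weightedHomogeneousComponent lam (b + n) B := by
    rw [add_assoc]
    exact whc_mul_homog (weightedHomogeneousComponent_isWeightedHomogeneous _ _)
  have h3 : weightedHomogeneousComponent lam (a + b + n) (face lam B * A) =
      face lam B * weightedHomogeneousComponent lam (a + n) A := by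
    rw [add_comm a b, add_assoc]
    exact whc_mul_homog (weightedHomogeneousComponent_isWeightedHomogeneous _ _)
  rw [h2, h3, map_sub, map_mul, map_mul]
  simp only [Nat.cast_zero, add_zero]
  rfl

theorem ev_face_eq_coeff (lam : σ → ℤ) (A : MvPolynomial σ ℤ) (t : Tor σ) :
    (slice lam (minw lam A) A t).coeff 0 = ev t (face lam A) := by
  rw [coeff_slice lam _ A (fun s hs => minw_le hs), Nat.cast_zero, add_zero, face]

/-- the pointwise gain inequality -/
theorem gain_pointwise (lam : σ → ℤ) {A B : MvPolynomial σ ℤ} (hA : A ≠ 0) (hB : B ≠ 0)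
    (t : Tor σ) (htA : ev t (face lam A) ≠ 0) :
    Real.log (‖ev t (face lam A)‖ ^ 2 + ‖ev t (face lam B)‖ ^ 2 +
      ‖ev t (face lam (face lam A * B - face lam B * A))‖ ^ 2 /
        (‖ev t (face lam A)‖ ^ 2 + ‖ev t (face lam B)‖ ^ 2)) ≤
      ∫ τ : UnitAddCircle, Real.log (‖ev (shear lam (t, τ)) A‖ ^ 2 +
        ‖ev (shear lam (t, τ)) B‖ ^ 2) := by
  set D := face lam A * B - face lam B * A with hD
  set P := slice lam (minw lam A) A t with hP
  set Q := slice lam (minw lam B) B t with hQ
  have hP0 : P.coeff 0 = ev t (face lam A) := ev_face_eq_coeff lam A t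
  have hQ0 : Q.coeff 0 = ev t (face lam B) := ev_face_eq_coeff lam B t
  have hPne : P ≠ 0 := by
    intro h
    rw [h, Polynomial.coeff_zero] at hP0
    exact htA hP0.symm
  have hN : 0 < ‖P.coeff 0‖ ^ 2 + ‖Q.coeff 0‖ ^ 2 := by
    have : 0 < ‖P.coeff 0‖ := by rw [hP0]; exact norm_pos_iff.mpr htA
    positivity
  have hcomb := slice_comb lam A B t
  have hE : ∃ (l : ℕ) (E : Polynomial ℂ), Polynomial.C (P.coeff 0) * Q -
      Polynomial.C (Q.coeff 0) * P = Polynomial.X ^ l * E ∧ E.coeff 0 = ev t (face lam D) := by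
    by_cases hD0 : D = 0
    · refine ⟨0, 0, ?_, ?_⟩
      · rw [hcomb, ← hD, hD0]
        simp [slice]
      · rw [hD0]; simp
    · have hge : minw lam A + minw lam B ≤ minw lam D := by
        refine le_minw hD0 ?_
        classical
        intro s hs
        rcases Finset.mem_union.mp (support_sub σ _ _ hs) with h | h
        · refine support_mul_weight_ge (fun s hs => ?_) (fun s hs => minw_le hs) s h
          exact (mem_support_face.mp hs).2.ge
        · rw [add_comm]
          refine support_mul_weight_ge (fun s hs => ?_) (fun s hs => minw_le hs) s h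
          exact (mem_support_face.mp hs).2.ge
      set l := (minw lam D - (minw lam A + minw lam B)).toNat with hl
      have hl' : (minw lam A + minw lam B) + (l : ℤ) = minw lam D := by omega
      have hc : ∀ n : ℕ, (slice lam (minw lam A + minw lam B) D t).coeff n =
          ev t (weightedHomogeneousComponent lam (minw lam A + minw lam B + n) D) := fun n =>
        coeff_slice lam _ _ (fun s hs => hge.trans (minw_le hs)) t n
      have hdvd : Polynomial.X ^ l ∣ slice lam (minw lam A + minw lam B) D t := by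
        rw [Polynomial.X_pow_dvd_iff]
        intro n hn
        rw [hc n]
        have : weightedHomogeneousComponent lam (minw lam A + minw lam B + n) D = 0 := by
          by_contra hne
          obtain ⟨s, hs, h⟩ := whc_ne_zero_iff.mp hne
          have := minw_le (x := lam) hs
          omega
        rw [this, map_zero]
      obtain ⟨E, hE⟩ := hdvd
      refine ⟨l, E, by rw [hcomb, ← hD]; exact hE, ?_⟩
      have h1 := hc l
      rw [hE, hl'] at h1
      rw [Polynomial.coeff_X_pow_mul'] at h1
      simpa [face] using h1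
  obtain ⟨l, E, hE1, hE2⟩ := hE
  have hmain := gain_one_var P Q E l hN hPne hE1
  rw [hP0, hQ0, hE2] at hmain
  simp_rw [norm_ev_shear lam (minw lam A) A (fun s hs => minw_le hs),
    norm_ev_shear lam (minw lam B) B (fun s hs => minw_le hs)]
  exact hmain

theorem LL_face_le_int (lam : σ → ℤ) {A B : MvPolynomial σ ℤ} (hA : A ≠ 0) (hB : B ≠ 0) :
    LL (face lam A) (face lam B) ≤ LL A B := by
  have h1 : LL A B = ∫ t : Tor σ, ∫ τ : UnitAddCircle,
      Real.log (‖ev (shear lam (t, τ)) A‖ ^ 2 + ‖ev (shear lam (t, τ)) B‖ ^ 2) :=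
    integral_eq_shear lam _ (integrable_LL hA B)
  rw [h1, LL]
  refine integral_mono_ae (integrable_LL (face_ne_zero lam hA) _)
    (integrable_shear_left lam _ (integrable_LL hA B)) ?_
  filter_upwards [ae_ev_ne_zero (face_ne_zero lam hA)] with t ht
  have h0 : 0 < ‖ev t (face lam A)‖ := norm_pos_iff.mpr ht
  refine le_trans (Real.log_le_log (by positivity) ?_) (gain_pointwise lam hA hB t ht)
  have : 0 ≤ ‖ev t (face lam (face lam A * B - face lam B * A))‖ ^ 2 /
      (‖ev t (face lam A)‖ ^ 2 + ‖ev t (face lam B)‖ ^ 2) := by positivity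
  linarith

theorem LL_gain_int (lam : σ → ℤ) {A B : MvPolynomial σ ℤ} (hA : A ≠ 0) (hB : B ≠ 0)
    (hne : face lam A * B ≠ face lam B * A) {T : ℝ}
    (hT : LL (face lam A) (face lam B) ≤ T) :
    LL (face lam A) (face lam B) + Real.exp (-(2 * T + 1)) ≤ LL A B := by
  have h1 : LL A B = ∫ t : Tor σ, ∫ τ : UnitAddCircle,
      Real.log (‖ev (shear lam (t, τ)) A‖ ^ 2 + ‖ev (shear lam (t, τ)) B‖ ^ 2) :=
    integral_eq_shear lam _ (integrable_LL hA B)
  set A' := face lam A with hA'
  set B' := face lam B with hB'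
  set R := face lam (A' * B - B' * A) with hR
  have hA'0 : A' ≠ 0 := face_ne_zero lam hA
  have hR0 : R ≠ 0 := face_ne_zero lam (sub_ne_zero.mpr hne)
  set c : ℝ := 2 * T + 1 with hc
  have hT0 : 0 ≤ T := (LL_nonneg hA'0 B').trans hT
  have hc0 : 0 ≤ c := by linarith
  set θ := Real.exp (-c) with hθ
  have hθ0 : 0 < θ := Real.exp_pos _
  have iLL := integrable_LL hA'0 B'
  have iR := integrable_log_ev hR0
  have i2 : Integrable fun t : Tor σ => 2 * Real.log ‖ev t R‖ := iR.const_mul 2
  have i3 : Integrable fun t : Tor σ => 2 * Real.log (‖ev t A'‖ ^ 2 + ‖ev t B'‖ ^ 2) :=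
    iLL.const_mul 2
  have i4 : Integrable fun t : Tor σ => 2 * Real.log ‖ev t R‖ -
      2 * Real.log (‖ev t A'‖ ^ 2 + ‖ev t B'‖ ^ 2) := i2.sub i3
  have i5 : Integrable fun t : Tor σ => 2 * Real.log ‖ev t R‖ -
      2 * Real.log (‖ev t A'‖ ^ 2 + ‖ev t B'‖ ^ 2) + c := i4.add (integrable_const c)
  have i6 : Integrable fun t : Tor σ => θ * (2 * Real.log ‖ev t R‖ -
      2 * Real.log (‖ev t A'‖ ^ 2 + ‖ev t B'‖ ^ 2) + c) := i5.const_mul θ
  have h2 : ∫ t : Tor σ, (Real.log (‖ev t A'‖ ^ 2 + ‖ev t B'‖ ^ 2) +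
      θ * (2 * Real.log ‖ev t R‖ - 2 * Real.log (‖ev t A'‖ ^ 2 + ‖ev t B'‖ ^ 2) + c)) =
      LL A' B' + θ * (2 * mm R - 2 * LL A' B' + c) := by
    rw [integral_add iLL i6, integral_const_mul, integral_add i4 (integrable_const c),
      integral_sub i2 i3, integral_const_mul, integral_const_mul, integral_const]
    simp [LL, mm]
  have h3 : ∫ t : Tor σ, (Real.log (‖ev t A'‖ ^ 2 + ‖ev t B'‖ ^ 2) +
      θ * (2 * Real.log ‖ev t R‖ - 2 * Real.log (‖ev t A'‖ ^ 2 + ‖ev t B'‖ ^ 2) + c)) ≤
      LL A B := by
    rw [h1]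
    refine integral_mono_ae (iLL.add i6)
      (integrable_shear_left lam _ (integrable_LL hA B)) ?_
    filter_upwards [ae_ev_ne_zero hA'0, ae_ev_ne_zero hR0] with t ht htR
    have h0 : 0 < ‖ev t A'‖ := norm_pos_iff.mpr ht
    have h0R : 0 < ‖ev t R‖ := norm_pos_iff.mpr htR
    refine le_trans ?_ (gain_pointwise lam hA hB t ht)
    exact log_add_sq_div_ge _ _ c (by positivity) h0R hc0
  have h7 := mm_nonneg R
  rw [h2] at h3
  have h8 : θ * 1 ≤ θ * (2 * mm R - 2 * LL A' B' + c) := by
    refine mul_le_mul_of_nonneg_left ?_ hθ0.le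
    linarith
  linarith

theorem LL_face_le (x : σ → ℝ) {A B : MvPolynomial σ ℤ} (hA : A ≠ 0) (hB : B ≠ 0) :
    LL (face x A) (face x B) ≤ LL A B := by
  obtain ⟨lam, h1, h2⟩ := exists_int_dir_face x A B
  rw [← h1, ← h2]
  exact LL_face_le_int lam hA hB

theorem LL_gain (x : σ → ℝ) {A B : MvPolynomial σ ℤ} (hA : A ≠ 0) (hB : B ≠ 0)
    (hne : face x A * B ≠ face x B * A) {T : ℝ}
    (hT : LL (face x A) (face x B) ≤ T) :
    LL (face x A) (face x B) + Real.exp (-(2 * T + 1)) ≤ LL A B := by
  obtain ⟨lam, h1, h2⟩ := exists_int_dir_face x A B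
  rw [← h1, ← h2] at hne hT ⊢
  exact LL_gain_int lam hA hB hne hT

/-- bound for the pair of two components of a polynomial in a direction of bounded width -/
theorem LL_components_le (lam : σ → ℤ) (a : ℤ) (e : ℕ) {F : MvPolynomial σ ℤ} (hF : F ≠ 0)
    (ha : ∀ s ∈ F.support, a ≤ weight lam s) (he : ∀ s ∈ F.support, weight lam s ≤ a + e)
    (i j : ℕ) (hi : weightedHomogeneousComponent lam (a + i) F ≠ 0)
    (hj : weightedHomogeneousComponent lam (a + j) F ≠ 0) :
    LL (weightedHomogeneousComponent lam (a + i) F) (weightedHomogeneousComponent lam (a + j) F) ≤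
      Real.log 2 + 2 * (e * Real.log 2 + mm F) := by
  have hdeg : ∀ t : Tor σ, (slice lam a F t).natDegree ≤ e := by
    intro t
    refine Polynomial.natDegree_sum_le_of_forall_le _ _ fun s hs => ?_
    refine (Polynomial.natDegree_monomial_le _).trans ?_
    have h1 := ha s hs
    have h2 := he s hs
    omega
  have hI := integrable_slice hF lam a ha
  have hI2 : Integrable fun t : Tor σ => (e * Real.log 2 + ∫ τ : UnitAddCircle,
      Real.log ‖(slice lam a F t).eval (AddCircle.toCircle τ : ℂ)‖) :=
    (integrable_const _).add hI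
  have hI3 : Integrable fun t : Tor σ => 2 * (e * Real.log 2 + ∫ τ : UnitAddCircle,
      Real.log ‖(slice lam a F t).eval (AddCircle.toCircle τ : ℂ)‖) := hI2.const_mul 2
  have hI4 : Integrable fun t : Tor σ => Real.log 2 + 2 * (e * Real.log 2 + ∫ τ : UnitAddCircle,
      Real.log ‖(slice lam a F t).eval (AddCircle.toCircle τ : ℂ)‖) :=
    (integrable_const _).add hI3
  have h1 : ∫ t : Tor σ, (Real.log 2 + 2 * (e * Real.log 2 + ∫ τ : UnitAddCircle,
      Real.log ‖(slice lam a F t).eval (AddCircle.toCircle τ : ℂ)‖)) =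
      Real.log 2 + 2 * (e * Real.log 2 + mm F) := by
    rw [integral_add (integrable_const _) hI3,
      integral_const_mul, integral_add (integrable_const _) hI, ← mm_eq_slice hF lam a ha]
    simp
  rw [← h1, LL]
  refine integral_mono_ae (integrable_LL hi _) hI4 ?_
  filter_upwards [ae_ev_ne_zero hi, ae_ev_ne_zero hj] with t hti htj
  have hci := coeff_slice lam a F ha t i
  have hcj := coeff_slice lam a F ha t j
  rw [← hci] at hti
  rw [← hcj] at htj
  have h2 := log_coeff_le (slice lam a F t) i hti e (hdeg t)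
  have h3 := log_coeff_le (slice lam a F t) j htj e (hdeg t)
  rw [← hci, ← hcj]
  set K := (e * Real.log 2 + ∫ τ : UnitAddCircle,
      Real.log ‖(slice lam a F t).eval (AddCircle.toCircle τ : ℂ)‖) with hK
  have h4 : ∀ z : ℂ, z ≠ 0 → Real.log ‖z‖ ≤ K → ‖z‖ ^ 2 ≤ Real.exp (2 * K) := by
    intro z hz h
    have hz0 : 0 < ‖z‖ := norm_pos_iff.mpr hz
    rw [← Real.log_le_iff_le_exp (by positivity), Real.log_pow]
    push_cast
    linarith
  have h5 := h4 _ hti h2
  have h6 := h4 _ htj h3
  have h7 : 0 < ‖(slice lam a F t).coeff i‖ := norm_pos_iff.mpr hti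
  calc Real.log (‖(slice lam a F t).coeff i‖ ^ 2 + ‖(slice lam a F t).coeff j‖ ^ 2)
      ≤ Real.log (2 * Real.exp (2 * K)) := Real.log_le_log (by positivity) (by linarith)
    _ = Real.log 2 + 2 * K := by
        rw [Real.log_mul (by norm_num) (Real.exp_pos _).ne', Real.log_exp]

/-- coefficient bound -/
theorem log_abs_coeff_le (lam : σ → ℤ) (a : ℤ) (e : ℕ) {F : MvPolynomial σ ℤ} (hF : F ≠ 0)
    (ha : ∀ s ∈ F.support, a ≤ weight lam s) (he : ∀ s ∈ F.support, weight lam s ≤ a + e)
    (hinj : ∀ s ∈ F.support, ∀ s' ∈ F.support, weight lam s = weight lam s' → s = s')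
    {s : σ →₀ ℕ} (hs : s ∈ F.support) :
    Real.log |((F.coeff s : ℤ) : ℝ)| ≤ e * Real.log 2 + mm F := by
  have hdeg : ∀ t : Tor σ, (slice lam a F t).natDegree ≤ e := by
    intro t
    refine Polynomial.natDegree_sum_le_of_forall_le _ _ fun s hs => ?_
    refine (Polynomial.natDegree_monomial_le _).trans ?_
    have h1 := ha s hs
    have h2 := he s hs
    omega
  have hI := integrable_slice hF lam a ha
  have h1 : ∫ t : Tor σ, (e * Real.log 2 + ∫ τ : UnitAddCircle,
      Real.log ‖(slice lam a F t).eval (AddCircle.toCircle τ : ℂ)‖) =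
      e * Real.log 2 + mm F := by
    rw [integral_add (integrable_const _) hI, ← mm_eq_slice hF lam a ha]
    simp
  have h2 : ∫ _ : Tor σ, Real.log |((F.coeff s : ℤ) : ℝ)| = Real.log |((F.coeff s : ℤ) : ℝ)| := by
    simp
  rw [← h1, ← h2]
  refine integral_mono (integrable_const _) ((integrable_const _).add hI) fun t => ?_
  have hn : a + ((weight lam s - a).toNat : ℤ) = weight lam s := by
    have := ha s hs
    omega
  have h3 : ‖(slice lam a F t).coeff (weight lam s - a).toNat‖ = |((F.coeff s : ℤ) : ℝ)| := by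
    rw [coeff_slice lam a F ha, hn, norm_ev_whc_of_injective hinj hs]
  have h4 := one_le_abs_coeff hs
  have h5 : (slice lam a F t).coeff (weight lam s - a).toNat ≠ 0 := by
    rw [← norm_pos_iff, h3]; linarith
  have h6 := log_coeff_le (slice lam a F t) _ h5 e (hdeg t)
  rw [h3] at h6
  exact h6

end Pool.Agent.H27Mahler
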