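import Mathlib
import Pool.Agent.H27Mahler.Dir

open Filter Topology

namespace Pool.Agent.H27Mahler

variable {V : Type*} [NormedAddCommGroup V] [NormedSpace ℝ V]

/-- the space of directions along which `h` is globally affine -/
def Lin (h : V → ℝ) : Submodule ℝ V where
  carrier := {e | ∃ a : ℝ, ∀ (c : ℝ) (μ : V), h (μ + c • e) = h μ + c * a}
  zero_mem' := ⟨0, fun c μ => by simp⟩
  add_mem' := by
    rintro e e' ⟨a, ha⟩ ⟨a', ha'⟩
    refine ⟨a + a', fun c μ => ?_⟩
    rw [smul_add, ← add_assoc, ha', ha]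
    ring
  smul_mem' := by
    rintro r e ⟨a, ha⟩
    refine ⟨r * a, fun c μ => ?_⟩
    rw [smul_smul, ha]
    ring

theorem mem_Lin {h : V → ℝ} {e : V} :
    e ∈ Lin h ↔ ∃ a : ℝ, ∀ (c : ℝ) (μ : V), h (μ + c • e) = h μ + c * a := Iff.rfl

theorem Lin_apply {h : V → ℝ} (h0 : h 0 = 0) {e : V} (he : e ∈ Lin h) (c : ℝ) (μ : V) :
    h (μ + c • e) = h μ + c * h e := by
  obtain ⟨a, ha⟩ := he
  have h1 := ha 1 0
  rw [one_smul, zero_add, h0, zero_add, one_mul] at h1
  rw [h1, ha]

/-- A system of piecewise linear functions closed under taking germs. -/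
structure GermSys (V : Type*) [NormedAddCommGroup V] [NormedSpace ℝ V] (F : Type*) where
  h : F → V → ℝ
  face : F → V → F
  eqv : F → F → Prop
  cont : ∀ f, Continuous (h f)
  homog : ∀ f (c : ℝ) x, 0 ≤ c → h f (c • x) = c * h f x
  germ : ∀ f x μ, ∀ᶠ ε in 𝓝[>] (0 : ℝ), h f (x + ε • μ) = h f x + ε * h (face f x) μ ∧
    h (face f (x + ε • μ)) = h (face (face f x) μ)
  eqv_h : ∀ f x, eqv (face f x) f → h (face f x) = h f
  self_mem : ∀ f x, x ∈ Lin (h (face f x))

namespace GermSys

variable {F : Type*} (S : GermSys V F)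

theorem h_zero (f : F) : S.h f 0 = 0 := by
  have := S.homog f 0 0 le_rfl
  simpa using this

/-- (K1') -/
theorem h_face_of_mem {g : F} {e : V} (he : e ∈ Lin (S.h g)) : S.h (S.face g e) = S.h g := by
  funext μ
  have h1 := (S.germ g e μ).and self_mem_nhdsWithin
  obtain ⟨ε, ⟨h2, -⟩, hε⟩ := h1.exists
  have hε' : (0 : ℝ) < ε := hε
  have h3 := Lin_apply (S.h_zero g) he 1 (ε • μ)
  rw [one_smul, one_mul, add_comm (ε • μ) e, S.homog g ε μ hε'.le] at h3
  rw [h3] at h2
  have h4 : ε * S.h g μ = ε * S.h (S.face g e) μ := by linarith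
  exact (mul_left_cancel₀ hε'.ne' h4).symm

/-- (K2) -/
theorem Lin_le_face (f : F) (x : V) : Lin (S.h f) ≤ Lin (S.h (S.face f x)) := by
  intro e he
  refine ⟨S.h f e, fun c μ => ?_⟩
  have h1 := ((S.germ f x (μ + c • e)).and (S.germ f x μ)).and self_mem_nhdsWithin
  obtain ⟨ε, ⟨⟨h2, -⟩, ⟨h3, -⟩⟩, hε⟩ := h1.exists
  have hε' : (0 : ℝ) < ε := hε
  have h4 : x + ε • (μ + c • e) = (x + ε • μ) + (ε * c) • e := by
    rw [smul_add, smul_smul, add_assoc]
  rw [h4, Lin_apply (S.h_zero f) he, h3] at h2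
  have h5 : ε * (S.h (S.face f x) (μ + c • e)) = ε * (S.h (S.face f x) μ + c * S.h f e) := by
    linarith
  exact mul_left_cancel₀ hε'.ne' h5

theorem right_germ (f : F) (x e : V) : ∀ᶠ ε in 𝓝[>] (0 : ℝ),
    Lin (S.h (S.face f x)) ≤ Lin (S.h (S.face f (x + ε • e))) ∧
    (e ∈ Lin (S.h (S.face f x)) → S.h (S.face f (x + ε • e)) = S.h (S.face f x)) := by
  filter_upwards [S.germ f x e] with ε hε
  rw [hε.2]
  exact ⟨S.Lin_le_face _ _, fun he => S.h_face_of_mem he⟩

theorem two_sided (f : F) (x e : V) : ∀ᶠ ε in 𝓝 (0 : ℝ),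
    Lin (S.h (S.face f x)) ≤ Lin (S.h (S.face f (x + ε • e))) ∧
    (e ∈ Lin (S.h (S.face f x)) → S.h (S.face f (x + ε • e)) = S.h (S.face f x)) := by
  have h1 := S.right_germ f x e
  have h2 := S.right_germ f x (-e)
  have h3 : ∀ᶠ ε in 𝓝[<] (0 : ℝ),
      Lin (S.h (S.face f x)) ≤ Lin (S.h (S.face f (x + ε • e))) ∧
      (e ∈ Lin (S.h (S.face f x)) → S.h (S.face f (x + ε • e)) = S.h (S.face f x)) := by
    have h4 : Tendsto (fun ε : ℝ => -ε) (𝓝[<] (0 : ℝ)) (𝓝[>] (0 : ℝ)) := by
      have := tendsto_neg_nhdsLT (a := (0 : ℝ))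
      simpa using this
    filter_upwards [h4.eventually h2] with ε hε
    have h5 : x + (-ε) • (-e) = x + ε • e := by simp
    rw [h5] at hε
    exact ⟨hε.1, fun he => hε.2 (neg_mem he)⟩
  rw [← nhdsNE_sup_pure, eventually_sup, ← nhdsLT_sup_nhdsGT, eventually_sup]
  refine ⟨⟨h3, h1⟩, ?_⟩
  rw [eventually_pure]
  simp

theorem two_sided_at (f : F) (p e : V) (t0 : ℝ) : ∀ᶠ t in 𝓝 t0,
    Lin (S.h (S.face f (p + t0 • e))) ≤ Lin (S.h (S.face f (p + t • e))) ∧
    (e ∈ Lin (S.h (S.face f (p + t0 • e))) →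
      S.h (S.face f (p + t • e)) = S.h (S.face f (p + t0 • e))) := by
  have h1 := S.two_sided f (p + t0 • e) e
  have h2 : Tendsto (fun t : ℝ => t - t0) (𝓝 t0) (𝓝 0) := by
    have : Tendsto (fun t : ℝ => t - t0) (𝓝 t0) (𝓝 (t0 - t0)) :=
      (continuous_id.sub continuous_const).tendsto t0
    simpa using this
  filter_upwards [h2.eventually h1] with t ht
  have h3 : p + t0 • e + (t - t0) • e = p + t • e := by
    rw [add_assoc, ← add_smul]; congr 2; ring
  rwa [h3] at ht

/-- Claim 1: on a segment avoiding `E`, in the direction of a minimal space, `h_x` is constant -/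
theorem segment_const (f : F) (E : Submodule ℝ V) (p q : V)
    (hseg : ∀ t : ℝ, 0 ≤ t → t ≤ 1 → p + t • (q - p) ∉ E)
    (hmin : ∀ x ∉ E, Lin (S.h (S.face f x)) ≤ Lin (S.h (S.face f p)) →
      Lin (S.h (S.face f p)) ≤ Lin (S.h (S.face f x)))
    (hq : q ∈ Lin (S.h (S.face f p))) :
    S.h (S.face f q) = S.h (S.face f p) := by
  set e := q - p with he
  have heL : e ∈ Lin (S.h (S.face f p)) := sub_mem hq (S.self_mem f p)
  set s : Set ℝ := {t | S.h (S.face f (p + t • e)) = S.h (S.face f p)} with hs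
  have hclosed : IsClosed (s ∩ Set.Icc 0 1) := by
    refine isClosed_of_closure_subset fun t0 ht0 => ?_
    have ht0I : t0 ∈ Set.Icc (0 : ℝ) 1 :=
      closure_minimal Set.inter_subset_right isClosed_Icc ht0
    refine ⟨?_, ht0I⟩
    rw [mem_closure_iff_frequently] at ht0
    obtain ⟨t, ⟨hts, -⟩, h1, h2⟩ := (ht0.and_eventually (S.two_sided_at f p e t0)).exists
    have hts' : S.h (S.face f (p + t • e)) = S.h (S.face f p) := hts
    rw [hts'] at h1 h2
    have h3 := hmin _ (hseg t0 ht0I.1 ht0I.2) h1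
    exact (h2 (h3 heL)).symm
  have hsub := hclosed.Icc_subset_of_forall_mem_nhdsWithin (by simp [hs]) (by
    rintro t ⟨hts, -⟩
    have hts' : S.h (S.face f (p + t • e)) = S.h (S.face f p) := hts
    have h1 := S.two_sided_at f p e t
    have h2 : s ∈ 𝓝 t := by
      filter_upwards [h1] with r hr
      show S.h (S.face f (p + r • e)) = S.h (S.face f p)
      rw [← hts']
      exact hr.2 (by rw [hts']; exact heL)
    exact mem_nhdsWithin_of_mem_nhds h2)
  have h1 : (1 : ℝ) ∈ s := hsub ⟨zero_le_one, le_rfl⟩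
  have h2 : S.h (S.face f (p + (1 : ℝ) • e)) = S.h (S.face f p) := h1
  rw [one_smul, he, add_sub_cancel] at h2
  exact h2

/-- Claim 3 -/
theorem affine_line (f : F) (x e : V)
    (hL : ∀ t : ℝ, e ∈ Lin (S.h (S.face f (x + t • e)))) (t : ℝ) :
    S.h f (x + t • e) = S.h f x + t * S.h f e := by
  -- derivative
  set D : ℝ → ℝ := fun t => S.h (S.face f (x + t • e)) e with hD
  have hDconst : ∀ t, D t = D 0 := by
    have hloc : IsLocallyConstant D := by
      rw [IsLocallyConstant.iff_eventually_eq]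
      intro t
      filter_upwards [S.two_sided_at f x e t] with r hr
      simp only [hD]
      rw [hr.2 (hL t)]
    intro t
    exact hloc.apply_eq_of_preconnectedSpace t 0
  set g : ℝ → ℝ := fun t => S.h f (x + t • e) - t * D 0 with hg
  have hgloc : IsLocallyConstant g := by
    rw [IsLocallyConstant.iff_eventually_eq]
    intro t0
    have hr := S.germ f (x + t0 • e) e
    have hl := S.germ f (x + t0 • e) (-e)
    have hneg : S.h (S.face f (x + t0 • e)) (-e) = - D t0 := by
      have h1 := Lin_apply (S.h_zero _) (hL t0) (-1) 0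
      rw [zero_add, S.h_zero, zero_add] at h1
      have : (-1 : ℝ) • e = -e := by simp
      rw [this] at h1
      rw [h1]
      simp [hD]
    have h0 : ∀ᶠ ε in 𝓝 (0 : ℝ), S.h f (x + t0 • e + ε • e) =
        S.h f (x + t0 • e) + ε * D t0 := by
      have h4 : Tendsto (fun ε : ℝ => -ε) (𝓝[<] (0 : ℝ)) (𝓝[>] (0 : ℝ)) := by
        have := tendsto_neg_nhdsLT (a := (0 : ℝ))
        simpa using this
      rw [← nhdsNE_sup_pure, eventually_sup, ← nhdsLT_sup_nhdsGT, eventually_sup]
      refine ⟨⟨?_, ?_⟩, ?_⟩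
      · filter_upwards [h4.eventually hl] with ε hε
        have h5 : x + t0 • e + (-ε) • (-e) = x + t0 • e + ε • e := by simp
        rw [h5, hneg] at hε
        rw [hε.1]; ring
      · filter_upwards [hr] with ε hε
        rw [hε.1]
      · rw [eventually_pure]; simp
    have h2 : Tendsto (fun t : ℝ => t - t0) (𝓝 t0) (𝓝 0) := by
      have : Tendsto (fun t : ℝ => t - t0) (𝓝 t0) (𝓝 (t0 - t0)) :=
        (continuous_id.sub continuous_const).tendsto t0
      simpa using this
    filter_upwards [h2.eventually h0] with t ht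
    have h3 : x + t0 • e + (t - t0) • e = x + t • e := by
      rw [add_assoc, ← add_smul]; congr 2; ring
    rw [h3] at ht
    simp only [hg]
    rw [ht, hDconst t0]
    ring
  have hgc : ∀ t, S.h f (x + t • e) = S.h f x + t * D 0 := by
    intro t
    have h1 := hgloc.apply_eq_of_preconnectedSpace t 0
    simp only [hg] at h1
    rw [zero_smul, add_zero, zero_mul] at h1
    linarith
  -- identify the slope
  have hslope : D 0 = S.h f e := by
    have h1 : Tendsto (fun ε : ℝ => S.h f (ε • x + e)) (𝓝[>] 0) (𝓝 (S.h f e)) := by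
      have : Continuous fun ε : ℝ => S.h f (ε • x + e) := (S.cont f).comp (by fun_prop)
      have h2 := this.tendsto 0
      rw [zero_smul, zero_add] at h2
      exact h2.mono_left nhdsWithin_le_nhds
    have h2 : Tendsto (fun ε : ℝ => ε * S.h f x + D 0) (𝓝[>] 0) (𝓝 (D 0)) := by
      have : Continuous fun ε : ℝ => ε * S.h f x + D 0 := by fun_prop
      have h2 := this.tendsto 0
      rw [zero_mul, zero_add] at h2
      exact h2.mono_left nhdsWithin_le_nhds
    refine tendsto_nhds_unique h2 (h1.congr' ?_)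
    filter_upwards [self_mem_nhdsWithin] with ε hε
    have hε' : (0 : ℝ) < ε := hε
    have h3 : ε • x + e = ε • (x + ε⁻¹ • e) := by
      rw [smul_add, smul_smul, mul_inv_cancel₀ hε'.ne', one_smul]
    rw [h3, S.homog f ε _ hε'.le, hgc]
    field_simp
  rw [hgc, hslope]

theorem mem_Lin_of_forall [FiniteDimensional ℝ V] (f : F) (W : Submodule ℝ V) (hW : W ≠ ⊤) (e : V)
    (h : ∀ x ∉ W, ∀ t : ℝ, S.h f (x + t • e) = S.h f x + t * S.h f e) : e ∈ Lin (S.h f) := by
  refine ⟨S.h f e, fun t x => ?_⟩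
  by_cases hx : x ∈ W
  · obtain ⟨w, hw⟩ : ∃ w, w ∉ W := by
      by_contra hcon
      push Not at hcon
      exact hW (eq_top_iff.mpr fun w _ => hcon w)
    have h1 : Tendsto (fun ε : ℝ => S.h f (x + ε • w + t • e)) (𝓝[>] 0)
        (𝓝 (S.h f (x + t • e))) := by
      have : Continuous fun ε : ℝ => S.h f (x + ε • w + t • e) := (S.cont f).comp (by fun_prop)
      have h2 := this.tendsto 0
      rw [zero_smul, add_zero] at h2
      exact h2.mono_left nhdsWithin_le_nhds
    have h2 : Tendsto (fun ε : ℝ => S.h f (x + ε • w) + t * S.h f e) (𝓝[>] 0)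
        (𝓝 (S.h f x + t * S.h f e)) := by
      have : Continuous fun ε : ℝ => S.h f (x + ε • w) + t * S.h f e :=
        ((S.cont f).comp (by fun_prop)).add continuous_const
      have h2 := this.tendsto 0
      rw [zero_smul, add_zero] at h2
      exact h2.mono_left nhdsWithin_le_nhds
    refine tendsto_nhds_unique h1 (h2.congr' ?_)
    filter_upwards [self_mem_nhdsWithin] with ε hε
    have hε' : (0 : ℝ) < ε := hε
    refine (h _ ?_ t).symm
    intro hcon
    apply hw
    have h3 : ε • w ∈ W := by simpa using W.sub_mem hcon hx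
    have h4 := W.smul_mem ε⁻¹ h3
    rwa [smul_smul, inv_mul_cancel₀ hε'.ne', one_smul] at h4
  · exact h x hx t

/-- all strict chains of faces have length at most `n` -/
def CB (S : GermSys V F) : ℕ → F → Prop
  | 0, f => ∀ x, S.eqv (S.face f x) f
  | n + 1, f => ∀ x, S.eqv (S.face f x) f ∨ S.CB n (S.face f x)

/-- the dimension of `Lin h` when all the `Lin h_x`, `x ∉ Lin h`, have small codimension -/
theorem finrank_step [FiniteDimensional ℝ V] (f : F) (c : ℕ)
    (hc : ∀ x ∉ Lin (S.h f), Module.finrank ℝ V ≤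
      Module.finrank ℝ (Lin (S.h (S.face f x))) + c) :
    Module.finrank ℝ V ≤ Module.finrank ℝ (Lin (S.h f)) + (2 * c + 1) := by
  classical
  by_contra hcon
  push Not at hcon
  set E := Lin (S.h f) with hE
  -- a point outside `E`
  obtain ⟨x0, hx0⟩ : ∃ x0, x0 ∉ E := by
    by_contra h
    push Not at h
    have : E = ⊤ := eq_top_iff.mpr fun w _ => h w
    rw [this, finrank_top] at hcon
    omega
  set P : Submodule ℝ V → Prop := fun W => ∃ x, x ∉ E ∧ Lin (S.h (S.face f x)) = W with hP
  have hminex : ∀ x ∉ E, ∃ W ≤ Lin (S.h (S.face f x)), Minimal P W := fun x hx =>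
    exists_minimal_le_of_wellFoundedLT P _ ⟨x, hx, rfl⟩
  -- uniqueness of minimal elements
  have huniq : ∀ W W', Minimal P W → Minimal P W' → W = W' := by
    rintro W W' ⟨⟨p, hp, rfl⟩, hWmin⟩ ⟨⟨p', hp', rfl⟩, hWmin'⟩
    have hd1 := hc p hp
    have hd2 := hc p' hp'
    have hinf := Submodule.finrank_sup_add_finrank_inf_eq (Lin (S.h (S.face f p)))
      (Lin (S.h (S.face f p')))
    have hsup : Module.finrank ℝ ↥(Lin (S.h (S.face f p)) ⊔ Lin (S.h (S.face f p'))) ≤
      Module.finrank ℝ V := Submodule.finrank_le _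
    have hbig : ∀ q : V, ¬ (Lin (S.h (S.face f p)) ⊓ Lin (S.h (S.face f p')) ≤
        E ⊔ Submodule.span ℝ {q}) := by
      intro q hle
      have h1 := Submodule.finrank_mono hle
      have h2 : Module.finrank ℝ ↥(E ⊔ Submodule.span ℝ {q}) ≤ Module.finrank ℝ E + 1 := by
        refine (Submodule.finrank_add_le_finrank_add_finrank _ _).trans ?_
        have := finrank_span_le_card (R := ℝ) ({q} : Set V)
        simp only [Set.toFinset_singleton, Finset.card_singleton] at this
        omega
      omega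
    obtain ⟨r, hr, hravoid⟩ := exists_mem_avoid
      (Lin (S.h (S.face f p)) ⊓ Lin (S.h (S.face f p'))) (Finset.univ : Finset Bool)
      (fun b => E ⊔ Submodule.span ℝ {if b then p else p'}) (fun b _ => hbig _)
    have key : ∀ q, q ∉ E → r ∉ E ⊔ Submodule.span ℝ {q} → r ∈ Lin (S.h (S.face f q)) →
        (∀ x ∉ E, Lin (S.h (S.face f x)) ≤ Lin (S.h (S.face f q)) →
          Lin (S.h (S.face f q)) ≤ Lin (S.h (S.face f x))) →
        S.h (S.face f r) = S.h (S.face f q) := by
      intro q hq hrq hrL hmin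
      refine S.segment_const f E q r ?_ hmin hrL
      intro t ht0 ht1 hmem
      rcases eq_or_lt_of_le ht0 with h | h
      · rw [← h, zero_smul, add_zero] at hmem
        exact hq hmem
      · apply hrq
        have h1 : r = t⁻¹ • (q + t • (r - q)) + (1 - t⁻¹) • q := by
          rw [smul_add, smul_smul, inv_mul_cancel₀ h.ne', one_smul, sub_smul, one_smul]
          abel
        rw [h1]
        exact Submodule.add_mem_sup (E.smul_mem _ hmem)
          (Submodule.smul_mem _ _ (Submodule.mem_span_singleton_self q))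
    have k1 := key p hp (by simpa using hravoid true (Finset.mem_univ _)) hr.1
      (fun x hx hle => hWmin ⟨x, hx, rfl⟩ hle)
    have k2 := key p' hp' (by simpa using hravoid false (Finset.mem_univ _)) hr.2
      (fun x hx hle => hWmin' ⟨x, hx, rfl⟩ hle)
    rw [← k1, ← k2]
  obtain ⟨Estar, hEs, hEmin⟩ := hminex x0 hx0
  obtain ⟨p, hp, hpE⟩ := hEmin.1
  have hpmem : p ∈ Estar := by rw [← hpE]; exact S.self_mem f p
  have hall : ∀ x ∉ E, Estar ≤ Lin (S.h (S.face f x)) := by
    intro x hx
    obtain ⟨W, hW, hWmin⟩ := hminex x hx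
    rw [huniq Estar W hEmin hWmin]
    exact hW
  apply hp
  rw [hE]
  have hdim : Module.finrank ℝ ↥(E ⊔ Submodule.span ℝ {p}) ≤ Module.finrank ℝ E + 1 := by
    refine (Submodule.finrank_add_le_finrank_add_finrank _ _).trans ?_
    have := finrank_span_le_card (R := ℝ) ({p} : Set V)
    simp only [Set.toFinset_singleton, Finset.card_singleton] at this
    omega
  refine S.mem_Lin_of_forall f (E ⊔ Submodule.span ℝ {p}) ?_ p ?_
  · intro htop
    rw [htop, finrank_top] at hdim
    omega
  · intro x hx t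
    refine S.affine_line f x p (fun r => ?_) t
    refine hall _ ?_ hpmem
    intro hmem
    apply hx
    have h1 : x = (x + r • p) + (-r) • p := by
      rw [neg_smul]; abel
    rw [h1]
    exact Submodule.add_mem_sup hmem
      (Submodule.smul_mem _ _ (Submodule.mem_span_singleton_self p))

/-- The PL lemma -/
theorem finrank_le_of_CB [FiniteDimensional ℝ V] (n : ℕ) (f : F) (hf : S.CB n f) :
    Module.finrank ℝ V ≤ Module.finrank ℝ (Lin (S.h f)) + (2 ^ n - 1) := by
  induction n generalizing f with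
  | zero =>
    have : Lin (S.h f) = ⊤ := by
      rw [eq_top_iff]
      intro x _
      have h1 := S.eqv_h f x (hf x)
      rw [← h1]
      exact S.self_mem f x
    rw [this, finrank_top]
    omega
  | succ n ih =>
    have h1 := S.finrank_step f (2 ^ n - 1) (fun x hx => by
      refine ih _ ?_
      rcases hf x with h | h
      · exfalso
        apply hx
        rw [← S.eqv_h f x h]
        exact S.self_mem f x
      · exact h)
    have h2 : 2 ^ (n + 1) - 1 = 2 * (2 ^ n - 1) + 1 := by
      have : 1 ≤ 2 ^ n := Nat.one_le_two_pow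
      rw [pow_succ]
      omega
    rw [h2]
    exact h1

end GermSys

end Pool.Agent.H27Mahler
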