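import Mathlib
import Pool.Agent.H27Mahler.Gain
import Pool.Agent.H27Mahler.PL

open Finsupp (weight)
open MvPolynomial MeasureTheory Filter Topology

set_option linter.unusedSectionVars false

namespace Pool.Agent.H27Mahler

variable {σ : Type*} [Fintype σ]

/-- pairs of nonzero integer polynomials -/
structure Pr (σ : Type*) where
  a : MvPolynomial σ ℤ
  b : MvPolynomial σ ℤ
  ha : a ≠ 0
  hb : b ≠ 0

namespace Pr

/-- face of a pair -/
noncomputable def fc (f : Pr σ) (x : σ → ℝ) : Pr σ :=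
  ⟨face x f.a, face x f.b, face_ne_zero x f.ha, face_ne_zero x f.hb⟩

@[simp] theorem fc_a (f : Pr σ) (x : σ → ℝ) : (f.fc x).a = face x f.a := rfl
@[simp] theorem fc_b (f : Pr σ) (x : σ → ℝ) : (f.fc x).b = face x f.b := rfl

/-- equivalence: equal ratio -/
def Eqv (f g : Pr σ) : Prop := f.a * g.b = g.a * f.b

theorem Eqv.symm {f g : Pr σ} (h : Eqv f g) : Eqv g f := Eq.symm h

theorem Eqv.trans {f g k : Pr σ} (h1 : Eqv f g) (h2 : Eqv g k) : Eqv f k := by
  unfold Eqv at *
  have h3 : g.b * (f.a * k.b) = g.b * (k.a * f.b) := by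
    calc g.b * (f.a * k.b) = (f.a * g.b) * k.b := by ring
      _ = (g.a * f.b) * k.b := by rw [h1]
      _ = (g.a * k.b) * f.b := by ring
      _ = (k.a * g.b) * f.b := by rw [h2]
      _ = g.b * (k.a * f.b) := by ring
  exact mul_left_cancel₀ g.hb h3

theorem Eqv.fc {f g : Pr σ} (h : Eqv f g) (x : σ → ℝ) : Eqv (f.fc x) (g.fc x) := by
  unfold Eqv at *
  simp only [fc_a, fc_b, ← face_mul, h]

/-- tropical function of a pair -/
noncomputable def hh (f : Pr σ) (x : σ → ℝ) : ℝ := minw x f.b - minw x f.a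

/-- height of a pair -/
noncomputable def ht (f : Pr σ) : ℝ := LL f.a f.b

theorem ht_nonneg (f : Pr σ) : 0 ≤ f.ht := LL_nonneg f.ha f.b

end Pr

theorem continuous_minw {A : MvPolynomial σ ℤ} (hA : A ≠ 0) :
    Continuous fun x : σ → ℝ => minw x A := by
  have h : A.support.Nonempty := support_nonempty.mpr hA
  have h1 : (fun x : σ → ℝ => minw x A) = fun x => A.support.inf' h (fun s => weight x s) := by
    funext x
    rw [minw, dif_pos h]
  rw [h1]
  refine Continuous.finset_inf'_apply h fun s _ => ?_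
  simp only [weight_eq_sum]
  fun_prop

theorem minw_smul {A : MvPolynomial σ ℤ} (c : ℝ) (hc : 0 ≤ c) (x : σ → ℝ) :
    minw (c • x) A = c * minw x A := by
  by_cases hA : A = 0
  · simp [hA]
  apply le_antisymm
  · obtain ⟨s, hs, h⟩ := exists_minw_eq x hA
    rw [h, ← weight_smul_dir]
    exact minw_le hs
  · obtain ⟨s, hs, h⟩ := exists_minw_eq (c • x) hA
    rw [h, weight_smul_dir]
    exact mul_le_mul_of_nonneg_left (minw_le hs) hc

theorem minw_add_homog {G : MvPolynomial σ ℤ} (hG0 : G ≠ 0) {x : σ → ℝ} (hG : face x G = G)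
    (c : ℝ) (μ : σ → ℝ) : minw (μ + c • x) G = minw μ G + c * minw x G := by
  apply le_antisymm
  · obtain ⟨s, hs, h⟩ := exists_minw_eq μ hG0
    rw [h, minw_of_homog hG hs, ← weight_add_smul]
    exact minw_le hs
  · obtain ⟨s, hs, h⟩ := exists_minw_eq (μ + c • x) hG0
    rw [h, weight_add_smul, minw_of_homog hG hs]
    gcongr
    exact minw_le hs

/-- the germ system of pairs -/
noncomputable def prSys (σ : Type*) [Fintype σ] : GermSys (σ → ℝ) (Pr σ) where
  h := Pr.hh
  face := Pr.fc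
  eqv := Pr.Eqv
  cont f := (continuous_minw f.hb).sub (continuous_minw f.ha)
  homog f c x hc := by
    simp only [Pr.hh, minw_smul c hc]
    ring
  germ f x μ := by
    filter_upwards [face_perturb x μ f.ha, face_perturb x μ f.hb] with ε ha hb
    constructor
    · simp only [Pr.hh, Pr.fc_a, Pr.fc_b, ha.1, hb.1]
      ring
    · funext ν
      simp only [Pr.hh, Pr.fc_a, Pr.fc_b, ha.2, hb.2]
  eqv_h f x h := by
    funext μ
    simp only [Pr.Eqv, Pr.fc_a, Pr.fc_b] at h
    have h1 := congrArg (minw μ) h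
    rw [minw_mul μ (face_ne_zero x f.ha) f.hb, minw_mul μ f.ha (face_ne_zero x f.hb)] at h1
    simp only [Pr.hh, Pr.fc_a, Pr.fc_b]
    linarith
  self_mem f x := by
    refine ⟨minw x (face x f.b) - minw x (face x f.a), fun c μ => ?_⟩
    simp only [Pr.hh, Pr.fc_a, Pr.fc_b]
    rw [minw_add_homog (face_ne_zero x f.ha) (face_idem x f.a),
      minw_add_homog (face_ne_zero x f.hb) (face_idem x f.b)]
    ring

namespace Pr

/-- chain bound -/
def CB (n : ℕ) (f : Pr σ) : Prop := (prSys σ).CB n f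

theorem CB_zero_iff {f : Pr σ} : CB 0 f ↔ ∀ x, Eqv (f.fc x) f := Iff.rfl
theorem CB_succ_iff {n : ℕ} {f : Pr σ} :
    CB (n + 1) f ↔ ∀ x, Eqv (f.fc x) f ∨ CB n (f.fc x) := Iff.rfl

/-- long chains -/
def LC : ℕ → Pr σ → Prop
  | 0, _ => True
  | n + 1, f => ∃ x, ¬ Eqv (f.fc x) f ∧ LC n (f.fc x)

theorem CB_LC (n : ℕ) (f : Pr σ) (h : CB n f) (h' : LC (n + 1) f) : False := by
  induction n generalizing f with
  | zero =>
    obtain ⟨x, hx, -⟩ := h'
    exact hx (h x)
  | succ n ih =>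
    obtain ⟨x, hx, hL⟩ := h'
    rcases CB_succ_iff.mp h x with h1 | h1
    · exact hx h1
    · exact ih _ h1 hL

theorem LC_congr (n : ℕ) {f g : Pr σ} (h : Eqv f g) (hf : LC n f) : LC n g := by
  induction n generalizing f g with
  | zero => trivial
  | succ n ih =>
    obtain ⟨x, hx, hL⟩ := hf
    refine ⟨x, fun hg => hx ?_, ih (h.fc x) hL⟩
    exact ((h.fc x).trans hg).trans h.symm

theorem ht_face_le (f : Pr σ) (x : σ → ℝ) : (f.fc x).ht ≤ f.ht := LL_face_le x f.ha f.hb

theorem ht_gain (f : Pr σ) (x : σ → ℝ) (hne : ¬ Eqv (f.fc x) f) {T : ℝ} (hT : f.ht ≤ T) :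
    (f.fc x).ht + Real.exp (-(2 * T + 1)) ≤ f.ht := by
  refine LL_gain x f.ha f.hb ?_ ((f.ht_face_le x).trans hT)
  intro h
  apply hne
  unfold Eqv
  simp only [fc_a, fc_b]
  rw [h, mul_comm]

theorem CB_of_ht {T : ℝ} (n : ℕ) (f : Pr σ) (hT : f.ht ≤ T)
    (hn : f.ht ≤ n * Real.exp (-(2 * T + 1))) : CB n f := by
  induction n generalizing f with
  | zero =>
    intro x
    by_contra hne
    have h1 := f.ht_gain x hne hT
    have h2 := (f.fc x).ht_nonneg
    have h3 := Real.exp_pos (-(2 * T + 1))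
    simp only [Nat.cast_zero, zero_mul] at hn
    linarith
  | succ n ih =>
    rw [CB_succ_iff]
    intro x
    by_cases hne : Eqv (f.fc x) f
    · exact Or.inl hne
    · refine Or.inr (ih _ ((f.ht_face_le x).trans hT) ?_)
      have h1 := f.ht_gain x hne hT
      push_cast at hn
      linarith

/-- number of strict steps allowed by the height bound `T` -/
noncomputable def stepBound (T : ℝ) : ℕ := ⌈T * Real.exp (2 * T + 1)⌉₊

theorem CB_stepBound {T : ℝ} (f : Pr σ) (hT : f.ht ≤ T) : CB (stepBound T) f := by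
  refine CB_of_ht _ f hT ?_
  have h1 : T * Real.exp (2 * T + 1) ≤ (stepBound T : ℝ) := Nat.le_ceil _
  have h2 : T = T * Real.exp (2 * T + 1) * Real.exp (-(2 * T + 1)) := by
    rw [mul_assoc, ← Real.exp_add]; simp
  have h3 : T * Real.exp (2 * T + 1) * Real.exp (-(2 * T + 1)) ≤
      (stepBound T : ℝ) * Real.exp (-(2 * T + 1)) := by gcongr
  linarith

end Pr

end Pool.Agent.H27Mahler
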