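import Mathlib
import Pool.Agent.H27Mahler.Pair

open Finsupp (weight)
open MvPolynomial MeasureTheory Filter Topology

set_option linter.unusedSectionVars false

namespace Pool.Agent.H27Mahler

variable {σ : Type*} [Fintype σ]

namespace Pr

/-- generic direction in a subspace: the faces become homogeneous for the whole subspace -/
theorem exists_generic (E U : Submodule ℝ (σ → ℝ)) (hEU : ¬ E ≤ U) (A B : MvPolynomial σ ℤ) :
    ∃ μ ∈ E, μ ∉ U ∧ (∀ e ∈ E, face e (face μ A) = face μ A) ∧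
      (∀ e ∈ E, face e (face μ B) = face μ B) := by
  classical
  set W : (σ →₀ ℕ) × (σ →₀ ℕ) → Submodule ℝ (σ → ℝ) :=
    fun p => LinearMap.ker (wlin p.1 - wlin p.2) with hW
  set S : Finset ((σ →₀ ℕ) × (σ →₀ ℕ)) :=
    ((A.support ×ˢ A.support) ∪ (B.support ×ˢ B.support)).filter (fun p => ¬ E ≤ W p) with hS
  obtain ⟨μ, hμE, hμ⟩ := exists_mem_avoid E (insert none (S.image some))
    (fun o : Option ((σ →₀ ℕ) × (σ →₀ ℕ)) => match o with
      | none => U
      | some p => W p) (by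
        intro o ho
        rw [Finset.mem_insert] at ho
        rcases ho with rfl | ho
        · exact hEU
        · obtain ⟨p, hp, rfl⟩ := Finset.mem_image.mp ho
          exact (Finset.mem_filter.mp hp).2)
  have hμU : μ ∉ U := hμ none (Finset.mem_insert_self _ _)
  have key : ∀ s s', (s, s') ∈ ((A.support ×ˢ A.support) ∪ (B.support ×ˢ B.support)) →
      weight μ s = weight μ s' → ∀ e ∈ E, weight e s = weight e s' := by
    intro s s' hmem heq e he
    by_cases hle : E ≤ W (s, s')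
    · have h1 := hle he
      simp only [hW, LinearMap.mem_ker, LinearMap.sub_apply, wlin_apply] at h1
      linarith
    · exfalso
      have h2 := hμ (some (s, s')) (Finset.mem_insert_of_mem (Finset.mem_image_of_mem _
        (Finset.mem_filter.mpr ⟨hmem, hle⟩)))
      apply h2
      simp only [hW, LinearMap.mem_ker, LinearMap.sub_apply, wlin_apply]
      linarith
  refine ⟨μ, hμE, hμU, fun e he => ?_, fun e he => ?_⟩
  · rw [face_eq_self_iff]
    intro s hs s' hs'
    rw [mem_support_face] at hs hs'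
    exact key s s' (Finset.mem_union_left _ (Finset.mem_product.mpr ⟨hs.1, hs'.1⟩))
      (hs.2.trans hs'.2.symm) e he
  · rw [face_eq_self_iff]
    intro s hs s' hs'
    rw [mem_support_face] at hs hs'
    exact key s s' (Finset.mem_union_right _ (Finset.mem_product.mpr ⟨hs.1, hs'.1⟩))
      (hs.2.trans hs'.2.symm) e he

/-- height of the auxiliary pair `(αA, αB - βA)` -/
theorem LL_aux_le {α β A B : MvPolynomial σ ℤ} (hα : α ≠ 0) (hA : A ≠ 0) :
    LL (α * A) (α * B - β * A) ≤ Real.log 2 + (LL α β + LL A B) := by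
  have i1 := integrable_LL hα β
  have i2 := integrable_LL hA B
  have i3 : Integrable fun t : Tor σ => Real.log (‖ev t α‖ ^ 2 + ‖ev t β‖ ^ 2) +
      Real.log (‖ev t A‖ ^ 2 + ‖ev t B‖ ^ 2) := i1.add i2
  have i4 : Integrable fun t : Tor σ => Real.log 2 + (Real.log (‖ev t α‖ ^ 2 + ‖ev t β‖ ^ 2) +
      Real.log (‖ev t A‖ ^ 2 + ‖ev t B‖ ^ 2)) := (integrable_const _).add i3
  have h1 : ∫ t : Tor σ, (Real.log 2 + (Real.log (‖ev t α‖ ^ 2 + ‖ev t β‖ ^ 2) +
      Real.log (‖ev t A‖ ^ 2 + ‖ev t B‖ ^ 2))) = Real.log 2 + (LL α β + LL A B) := by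
    rw [integral_add (integrable_const _) i3, integral_add i1 i2]
    simp [LL]
  rw [← h1, LL]
  refine integral_mono_ae (integrable_LL (mul_ne_zero hα hA) _) i4 ?_
  filter_upwards [ae_ev_ne_zero hα, ae_ev_ne_zero hA] with t h2 h3
  have h2' : 0 < ‖ev t α‖ := norm_pos_iff.mpr h2
  have h3' : 0 < ‖ev t A‖ := norm_pos_iff.mpr h3
  rw [← Real.log_mul (by positivity) (by positivity), ← Real.log_mul (by norm_num) (by positivity)]
  refine Real.log_le_log ?_ ?_
  · rw [map_mul, norm_mul]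
    positivity
  · have h4 : ‖ev t (α * B - β * A)‖ ≤ ‖ev t α‖ * ‖ev t B‖ + ‖ev t β‖ * ‖ev t A‖ := by
      rw [map_sub, map_mul, map_mul]
      refine (norm_sub_le _ _).trans ?_
      rw [norm_mul, norm_mul]
    have h5 : ‖ev t (α * B - β * A)‖ ^ 2 ≤ (‖ev t α‖ * ‖ev t B‖ + ‖ev t β‖ * ‖ev t A‖) ^ 2 := by
      gcongr
    rw [map_mul, norm_mul]
    nlinarith [sq_nonneg (‖ev t α‖ * ‖ev t B‖ - ‖ev t β‖ * ‖ev t A‖),
      sq_nonneg (‖ev t α‖ * ‖ev t A‖), sq_nonneg (‖ev t β‖ * ‖ev t B‖)]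

/-- one step of the colouring argument -/
theorem color_step (f : Pr σ) (E : Submodule ℝ (σ → ℝ)) (hE : E ≤ Lin f.hh)
    (μ : σ → ℝ) (hμE : μ ∈ E)
    (hhomA : ∀ e ∈ E, face e (face μ f.a) = face μ f.a)
    (hhomB : ∀ e ∈ E, face e (face μ f.b) = face μ f.b)
    (g : Pr σ) (hga : g.a = face μ f.a * f.a)
    (hgb : g.b = face μ f.a * f.b - face μ f.b * f.a)
    (e : σ → ℝ) (he : e ∈ E) (heg : e ∈ Lin g.hh) :
    ¬ Eqv (f.fc e) (f.fc μ) ∧ Eqv ((f.fc e).fc μ) (f.fc μ) := by
  set α := face μ f.a with hα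
  set β := face μ f.b with hβ
  have hα0 : α ≠ 0 := face_ne_zero μ f.ha
  have hβ0 : β ≠ 0 := face_ne_zero μ f.hb
  have hD0 : α * f.b - β * f.a ≠ 0 := by rw [← hgb]; exact g.hb
  -- (i)
  have hi : ∀ ν ∈ E, minw ν (α * f.b) = minw ν (β * f.a) := by
    intro ν hν
    have h1 := ((prSys σ).germ f μ ν).and self_mem_nhdsWithin
    obtain ⟨ε, ⟨h2, -⟩, hε⟩ := h1.exists
    have hε' : (0 : ℝ) < ε := hε
    have h3 : f.hh (μ + ε • ν) = f.hh μ + ε * f.hh ν :=
      Lin_apply ((prSys σ).h_zero f) (hE hν) ε μ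
    have h2' : f.hh (μ + ε • ν) = f.hh μ + ε * (f.fc μ).hh ν := h2
    have h4 : ε * (f.fc μ).hh ν = ε * f.hh ν := by linarith
    have h5 : (f.fc μ).hh ν = f.hh ν := mul_left_cancel₀ hε'.ne' h4
    simp only [hh, fc_a, fc_b] at h5
    rw [minw_mul ν hα0 f.hb, minw_mul ν hβ0 f.ha]
    linarith
  -- the function kk
  set kk : (σ → ℝ) → ℝ := fun ν => g.hh ν - f.hh ν with hkk
  have hkk' : ∀ ν, kk ν = minw ν (α * f.b - β * f.a) - minw ν (α * f.b) := by
    intro ν
    simp only [hkk, hh, hga, hgb]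
    rw [minw_mul ν hα0 f.ha, minw_mul ν hα0 f.hb]
    ring
  have hnonneg : ∀ ν ∈ E, 0 ≤ kk ν := by
    intro ν hν
    rw [hkk' ν]
    have := le_minw_sub ν hD0 (hi ν hν)
    linarith
  have hpos : ∀ ν ∈ E, (0 < kk ν ↔ α * face ν f.b = β * face ν f.a) := by
    intro ν hν
    rw [hkk' ν, sub_pos, lt_minw_sub_iff ν hD0 (hi ν hν), face_mul, face_mul, hhomA ν hν,
      hhomB ν hν]
  have hμpos : 0 < kk μ := by
    rw [hpos μ hμE]
    exact mul_comm _ _
  have hadd : ∀ (c : ℝ) (ν : σ → ℝ), kk (ν + c • e) = kk ν + c * kk e := by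
    intro c ν
    have h1 : g.hh (ν + c • e) = g.hh ν + c * g.hh e :=
      Lin_apply ((prSys σ).h_zero g) heg c ν
    have h2 : f.hh (ν + c • e) = f.hh ν + c * f.hh e :=
      Lin_apply ((prSys σ).h_zero f) (hE he) c ν
    simp only [hkk]
    rw [h1, h2]
    ring
  have hkk0 : kk 0 = 0 := by
    have h1 : g.hh 0 = 0 := (prSys σ).h_zero g
    have h2 : f.hh 0 = 0 := (prSys σ).h_zero f
    simp only [hkk, h1, h2, sub_zero]
  have hke : kk e = 0 := by
    have h1 := hnonneg e he
    have h2 := hnonneg (-e) (E.neg_mem he)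
    have h3 := hadd (-1) 0
    have h4 : (0 : σ → ℝ) + (-1 : ℝ) • e = -e := by simp
    rw [h4, hkk0] at h3
    linarith
  constructor
  · intro hcon
    have h1 : 0 < kk e := by
      rw [hpos e he]
      have h2 : face e f.a * β = α * face e f.b := hcon
      rw [← h2, mul_comm]
    linarith
  · have h1 := ((face_perturb e μ f.ha).and (face_perturb e μ f.hb)).and self_mem_nhdsWithin
    obtain ⟨ε, ⟨⟨-, h2⟩, ⟨-, h3⟩⟩, hε⟩ := h1.exists
    have hε' : (0 : ℝ) < ε := hε
    have hmem : e + ε • μ ∈ E := E.add_mem he (E.smul_mem _ hμE)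
    have h4 : 0 < kk (e + ε • μ) := by
      have h5 := hadd 1 (ε • μ)
      rw [one_smul, one_mul, hke, add_zero, add_comm] at h5
      rw [h5]
      have h6 : kk (ε • μ) = ε * kk μ := by
        have h7 : g.hh (ε • μ) = ε * g.hh μ := (prSys σ).homog g ε μ hε'.le
        have h8 : f.hh (ε • μ) = ε * f.hh μ := (prSys σ).homog f ε μ hε'.le
        simp only [hkk, h7, h8]
        ring
      rw [h6]
      positivity
    rw [hpos _ hmem, h2, h3] at h4
    show face μ (face e f.a) * β = α * face μ (face e f.b)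
    rw [h4, mul_comm]

/-- Theorem A: a pair whose only trivial faces are those in the subspace `U` has bounded
dimension modulo `U`. -/
theorem finrank_le_of_ht {T : ℝ} (f : Pr σ) (hT : f.ht ≤ T) (U : Submodule ℝ (σ → ℝ))
    (hU : ∀ x, Eqv (f.fc x) f → x ∈ U) :
    Fintype.card σ ≤ Module.finrank ℝ U + ((2 ^ stepBound T - 1) +
      stepBound T * (2 ^ stepBound (Real.log 2 + (T + T)) - 1)) := by
  set a := stepBound T with ha
  set ca := 2 ^ a - 1 with hca
  set ca' := 2 ^ stepBound (Real.log 2 + (T + T)) - 1 with hca'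
  have hCB : CB a f := CB_stepBound f hT
  have hcard : Module.finrank ℝ (σ → ℝ) = Fintype.card σ := Module.finrank_pi ℝ
  rw [← hcard]
  have hLin : Module.finrank ℝ (σ → ℝ) ≤ Module.finrank ℝ (Lin f.hh) + ca :=
    (prSys σ).finrank_le_of_CB a f hCB
  -- the iteration
  have hiter : ∀ j : ℕ, Module.finrank ℝ (σ → ℝ) ≤ Module.finrank ℝ U + (ca + j * ca') ∨
      ∃ E : Submodule ℝ (σ → ℝ), E ≤ Lin f.hh ∧
        Module.finrank ℝ (σ → ℝ) ≤ Module.finrank ℝ E + (ca + j * ca') ∧
        ∃ μ ∈ E, μ ∉ U ∧ (∀ e ∈ E, face e (face μ f.a) = face μ f.a) ∧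
          (∀ e ∈ E, face e (face μ f.b) = face μ f.b) ∧ LC j (f.fc μ) := by
    intro j
    induction j with
    | zero =>
      by_cases hle : Lin f.hh ≤ U
      · left
        have := Submodule.finrank_mono hle
        omega
      · right
        obtain ⟨μ, h1, h2, h3, h4⟩ := exists_generic (Lin f.hh) U hle f.a f.b
        exact ⟨Lin f.hh, le_rfl, by simpa using hLin, μ, h1, h2, h3, h4, trivial⟩
    | succ j ih =>
      rcases ih with h | ⟨E, hEL, hdim, μ, hμE, hμU, hhA, hhB, hLC⟩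
      · left
        have : j * ca' ≤ (j + 1) * ca' := by gcongr; omega
        omega
      · have hne : face μ f.a * f.b - face μ f.b * f.a ≠ 0 := by
          intro hcon
          apply hμU
          apply hU
          show face μ f.a * f.b = f.a * face μ f.b
          rw [sub_eq_zero.mp hcon, mul_comm]
        set g : Pr σ := ⟨face μ f.a * f.a, face μ f.a * f.b - face μ f.b * f.a,
          mul_ne_zero (face_ne_zero μ f.ha) f.ha, hne⟩ with hg
        have hgT : g.ht ≤ Real.log 2 + (T + T) := by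
          have h1 : g.ht ≤ Real.log 2 + (LL (face μ f.a) (face μ f.b) + LL f.a f.b) :=
            LL_aux_le (face_ne_zero μ f.ha) f.ha
          have h2 : LL (face μ f.a) (face μ f.b) ≤ LL f.a f.b := LL_face_le μ f.ha f.hb
          have h3 : LL f.a f.b ≤ T := hT
          linarith
        have hgL : Module.finrank ℝ (σ → ℝ) ≤ Module.finrank ℝ (Lin g.hh) + ca' :=
          (prSys σ).finrank_le_of_CB _ g (CB_stepBound g hgT)
        have hinf := Submodule.finrank_sup_add_finrank_inf_eq E (Lin g.hh)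
        have hsup : Module.finrank ℝ ↥(E ⊔ Lin g.hh) ≤ Module.finrank ℝ (σ → ℝ) :=
          Submodule.finrank_le _
        have hdim' : Module.finrank ℝ (σ → ℝ) ≤
            Module.finrank ℝ ↥(E ⊓ Lin g.hh) + (ca + (j + 1) * ca') := by
          have : (j + 1) * ca' = j * ca' + ca' := by ring
          omega
        by_cases hle : E ⊓ Lin g.hh ≤ U
        · left
          have := Submodule.finrank_mono hle
          omega
        · right
          obtain ⟨e, h1, h2, h3, h4⟩ := exists_generic (E ⊓ Lin g.hh) U hle f.a f.b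
          refine ⟨E ⊓ Lin g.hh, inf_le_left.trans hEL, hdim', e, h1, h2, h3, h4, ?_⟩
          obtain ⟨hk1, hk2⟩ := color_step f E hEL μ hμE hhA hhB g rfl rfl e h1.1 h1.2
          refine ⟨μ, ?_, LC_congr j hk2.symm hLC⟩
          intro hcon
          exact hk1 (hcon.symm.trans hk2)
  rcases hiter a with h | ⟨E, -, -, μ, -, hμU, -, -, hLC⟩
  · exact h
  · exfalso
    exact CB_LC a f hCB ⟨μ, fun hcon => hμU (hU μ hcon), hLC⟩

end Pr

end Pool.Agent.H27Mahler
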