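import Mathlib
import Pool.Agent.H27Mahler.Color

open Finsupp (weight)
open MvPolynomial MeasureTheory Filter Topology

set_option linter.unusedSectionVars false

namespace Pool.Agent.H27Mahler

variable {σ : Type*} [Fintype σ]

/-- the space of directions for which `P` is homogeneous -/
def HS (P : MvPolynomial σ ℤ) : Submodule ℝ (σ → ℝ) where
  carrier := {x | ∀ s ∈ P.support, ∀ s' ∈ P.support, weight x s = weight x s'}
  zero_mem' := fun s _ s' _ => by simp [weight_eq_sum]
  add_mem' := by
    intro x y hx hy s hs s' hs'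
    rw [weight_add_dir, weight_add_dir, hx s hs s' hs', hy s hs s' hs']
  smul_mem' := by
    intro c x hx s hs s' hs'
    rw [weight_smul_dir, weight_smul_dir, hx s hs s' hs']

theorem mem_HS {P : MvPolynomial σ ℤ} {x : σ → ℝ} :
    x ∈ HS P ↔ ∀ s ∈ P.support, ∀ s' ∈ P.support, weight x s = weight x s' := Iff.rfl

theorem mem_HS_iff {P : MvPolynomial σ ℤ} {x : σ → ℝ} : x ∈ HS P ↔ face x P = P :=
  face_eq_self_iff.symm

theorem face_eq_self_of_dvd {P : MvPolynomial σ ℤ} {x : σ → ℝ} (hP : P ≠ 0)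
    (hdvd : P ∣ face x P) : face x P = P := by
  obtain ⟨G, hG⟩ := hdvd
  have hf := face_ne_zero x hP
  have hG0 : G ≠ 0 := by
    rintro rfl
    rw [mul_zero] at hG
    exact hf hG
  have h1 : (face x P).totalDegree ≤ P.totalDegree := by
    refine Finset.sup_mono fun s hs => ?_
    exact (mem_support_face.mp hs).1
  have h2 := totalDegree_mul_of_isDomain hP hG0
  rw [← hG] at h2
  have h3 : G.totalDegree = 0 := by omega
  rw [totalDegree_eq_zero_iff_eq_C] at h3
  obtain ⟨s, hs⟩ := support_nonempty.mpr hf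
  have h4 := coeff_face x P hs
  have h5 : coeff s P ≠ 0 := mem_support_iff.mp (mem_support_face.mp hs).1
  rw [hG, h3, mul_comm, coeff_C_mul] at h4
  have h6 : coeff 0 G = 1 := by
    have : coeff 0 G * coeff s P = 1 * coeff s P := by rw [h4, one_mul]
    exact mul_right_cancel₀ h5 this
  rw [hG, h3, h6, C_1, mul_one]

/-- dimension bound of Theorem A -/
noncomputable def dimBound (T : ℝ) : ℕ := (2 ^ Pr.stepBound T - 1) +
      Pr.stepBound T * (2 ^ Pr.stepBound (Real.log 2 + (T + T)) - 1)

theorem finrank_coprime {T : ℝ} {P Q : MvPolynomial σ ℤ} (hP : P ≠ 0) (hQ : Q ≠ 0)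
    (hPQ : IsRelPrime P Q) (hT : LL P Q ≤ T) :
    Fintype.card σ ≤ Module.finrank ℝ ↥(HS P ⊓ HS Q) + dimBound T := by
  refine Pr.finrank_le_of_ht ⟨P, Q, hP, hQ⟩ hT (HS P ⊓ HS Q) fun x hx => ?_
  have hx' : face x P * Q = P * face x Q := hx
  constructor
  · rw [SetLike.mem_coe, mem_HS_iff]
    refine face_eq_self_of_dvd hP ?_
    exact hPQ.dvd_of_dvd_mul_right (Dvd.intro _ hx'.symm)
  · rw [SetLike.mem_coe, mem_HS_iff]
    refine face_eq_self_of_dvd hQ ?_
    refine hPQ.symm.dvd_of_dvd_mul_left (y := P) ?_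
    rw [← hx']
    exact Dvd.intro_left _ rfl

theorem pair_space {T : ℝ} {A B : MvPolynomial σ ℤ} (hA : A ≠ 0) (hB : B ≠ 0)
    (hT : LL A B ≤ T) : ∃ W : Submodule ℝ (σ → ℝ),
      Fintype.card σ ≤ Module.finrank ℝ W + (dimBound T + 1) ∧
      ∀ x ∈ W, face x B * A = B * face x A ∧ minw x A = minw x B := by
  obtain ⟨P, Q, D, hrel, rfl, rfl⟩ := UniqueFactorizationMonoid.exists_reduced_factors A hA B
  have hD : D ≠ 0 := by rintro rfl; simp at hA
  have hP : P ≠ 0 := by rintro rfl; simp at hA
  have hQ : Q ≠ 0 := by rintro rfl; simp at hB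
  have hT' : LL P Q ≤ T := by
    rw [LL_mul hP hD] at hT
    have := mm_nonneg D
    linarith
  obtain ⟨sP, hsP⟩ := support_nonempty.mpr hP
  obtain ⟨sQ, hsQ⟩ := support_nonempty.mpr hQ
  set U := HS P ⊓ HS Q with hU
  set φ : (σ → ℝ) →ₗ[ℝ] ℝ := wlin sP - wlin sQ with hφ
  refine ⟨U ⊓ LinearMap.ker φ, ?_, ?_⟩
  · have h1 := finrank_coprime hP hQ hrel hT'
    have h2 := Submodule.finrank_sup_add_finrank_inf_eq U (LinearMap.ker φ)
    have h3 : Module.finrank ℝ ↥(U ⊔ LinearMap.ker φ) ≤ Module.finrank ℝ (σ → ℝ) :=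
      Submodule.finrank_le _
    have h4 := LinearMap.finrank_range_add_finrank_ker φ
    have h5 : Module.finrank ℝ (LinearMap.range φ) ≤ 1 := by
      refine (Submodule.finrank_le _).trans ?_
      simp
    have h6 : Module.finrank ℝ (σ → ℝ) = Fintype.card σ := Module.finrank_pi ℝ
    rw [← hU] at h1
    omega
  · rintro x ⟨⟨hxP, hxQ⟩, hker⟩
    have hxP' : face x P = P := mem_HS_iff.mp hxP
    have hxQ' : face x Q = Q := mem_HS_iff.mp hxQ
    constructor
    · rw [face_mul, face_mul, hxP', hxQ']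
      ring
    · rw [minw_mul x hD hP, minw_mul x hD hQ, minw_of_homog hxP' hsP, minw_of_homog hxQ' hsQ]
      have h1 : φ x = 0 := hker
      simp only [hφ, LinearMap.sub_apply, wlin_apply] at h1
      linarith

/-- dimension bound of Theorem B -/
noncomputable def dimBoundB (e : ℕ) (T : ℝ) : ℕ :=
  e * (dimBound (Real.log 2 + 2 * (e * Real.log 2 + T)) + 1)

theorem finrank_iInf_ge {V ι : Type*} [AddCommGroup V] [Module ℝ V] [FiniteDimensional ℝ V]
    (s : Finset ι) (W : ι → Submodule ℝ V) (c : ℕ)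
    (h : ∀ i ∈ s, Module.finrank ℝ V ≤ Module.finrank ℝ (W i) + c) :
    Module.finrank ℝ V ≤ Module.finrank ℝ ↥(⨅ i ∈ s, W i) + s.card * c := by
  classical
  induction s using Finset.cons_induction with
  | empty =>
    have : (⨅ i ∈ (∅ : Finset ι), W i) = ⊤ := by simp
    rw [this, finrank_top]
    omega
  | cons a s ha ih =>
    have h1 := ih fun i hi => h i (Finset.mem_cons_of_mem hi)
    have h2 := h a (Finset.mem_cons_self _ _)
    have h3 : (⨅ i ∈ Finset.cons a s ha, W i) = W a ⊓ ⨅ i ∈ s, W i := by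
      simp [iInf_or, iInf_inf_eq]
    rw [h3, Finset.card_cons]
    have h4 := Submodule.finrank_sup_add_finrank_inf_eq (W a) (⨅ i ∈ s, W i)
    have h5 : Module.finrank ℝ ↥(W a ⊔ ⨅ i ∈ s, W i) ≤ Module.finrank ℝ V :=
      Submodule.finrank_le _
    have h6 : (s.card + 1) * c = s.card * c + c := by ring
    omega

theorem finrank_irreducible [DecidableEq σ] {T : ℝ} {F : MvPolynomial σ ℤ} (hF : Irreducible F)
    (y : σ) (e : ℕ) (he : F.degreeOf y ≤ e) (h1 : F.degreeOf y ≠ 0)
    (h0 : ∃ s ∈ F.support, s y = 0) (hT : mm F ≤ T) :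
    Fintype.card σ ≤ Module.finrank ℝ (HS F) + dimBoundB e T := by
  have hF0 : F ≠ 0 := hF.ne_zero
  set lam : σ → ℤ := Pi.single y 1 with hlam
  have hw : ∀ s : σ →₀ ℕ, weight lam s = (s y : ℤ) := by
    intro s
    rw [hlam, Finsupp.weight_single_index]
    simp
  have hsy : ∀ s ∈ F.support, s y ≤ e := fun s hs =>
    ((degreeOf_le_iff).mp le_rfl s hs).trans he
  set Fj : ℕ → MvPolynomial σ ℤ := fun j => weightedHomogeneousComponent lam ((0 : ℤ) + j) F
    with hFj
  have hsuppj : ∀ j s, s ∈ (Fj j).support ↔ s ∈ F.support ∧ s y = j := by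
    intro j s
    simp only [hFj]
    rw [support_weightedHomogeneousComponent, Finset.mem_filter, hw]
    constructor
    · rintro ⟨a, b⟩; exact ⟨a, by omega⟩
    · rintro ⟨a, b⟩; exact ⟨a, by omega⟩
  have hsum : F = ∑ j ∈ Finset.range (e + 1), Fj j := by
    ext d
    rw [coeff_sum]
    simp only [hFj, coeff_weightedHomogeneousComponent, hw]
    by_cases hd : d ∈ F.support
    · rw [Finset.sum_eq_single (d y)]
      · rw [if_pos (by omega)]
      · intro b _ hb
        rw [if_neg]
        intro hcon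
        apply hb
        omega
      · intro hnot
        exfalso
        apply hnot
        rw [Finset.mem_range]
        have := hsy d hd
        omega
    · rw [notMem_support_iff.mp hd]
      simp
  have hF00 : Fj 0 ≠ 0 := by
    obtain ⟨s, hs, h⟩ := h0
    rw [← support_nonempty]
    exact ⟨s, (hsuppj 0 s).mpr ⟨hs, h⟩⟩
  -- the spaces
  have hW : ∀ j : ℕ, ∃ W : Submodule ℝ (σ → ℝ),
      Module.finrank ℝ (σ → ℝ) ≤ Module.finrank ℝ W +
        (dimBound (Real.log 2 + 2 * (e * Real.log 2 + T)) + 1) ∧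
      (Fj j ≠ 0 → ∀ x ∈ W, face x (Fj j) * Fj 0 = Fj j * face x (Fj 0) ∧
        minw x (Fj 0) = minw x (Fj j)) := by
    intro j
    by_cases hj : Fj j = 0
    · refine ⟨⊤, ?_, fun h => absurd hj h⟩
      rw [finrank_top]
      omega
    · have hLL : LL (Fj 0) (Fj j) ≤ Real.log 2 + 2 * (e * Real.log 2 + T) := by
        refine (LL_components_le lam 0 e hF0 ?_ ?_ 0 j hF00 hj).trans ?_
        · intro s _; rw [hw]; omega
        · intro s hs; rw [hw]; have := hsy s hs; omega
        · linarith
      obtain ⟨W, hW1, hW2⟩ := pair_space hF00 hj hLL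
      refine ⟨W, ?_, fun _ => hW2⟩
      rw [Module.finrank_pi]
      exact hW1
  choose W hW1 hW2 using hW
  have hcard := finrank_iInf_ge (Finset.Icc 1 e) W _ (fun i _ => hW1 i)
  rw [Nat.card_Icc, Module.finrank_pi] at hcard
  have hle : (⨅ i ∈ Finset.Icc 1 e, W i) ≤ HS F := by
    intro x hx
    rw [Submodule.mem_iInf] at hx
    have hx' : ∀ j, 1 ≤ j → j ≤ e → x ∈ W j := by
      intro j h1 h2
      have := hx j
      rw [Submodule.mem_iInf] at this
      exact this (Finset.mem_Icc.mpr ⟨h1, h2⟩)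
    set m := minw x (Fj 0) with hm
    have hmj : ∀ j ≤ e, Fj j ≠ 0 → minw x (Fj j) = m := by
      intro j hj hne
      rcases Nat.eq_zero_or_pos j with h | h
      · rw [h]
      · exact ((hW2 j hne x (hx' j h hj)).2).symm
    have hmul : ∀ j ≤ e, weightedHomogeneousComponent x m (Fj j) * Fj 0 =
        Fj j * face x (Fj 0) := by
      intro j hj
      by_cases hne : Fj j = 0
      · rw [hne]; simp
      rcases Nat.eq_zero_or_pos j with h | h
      · rw [h, mul_comm]; rfl
      · have h2 := (hW2 j hne x (hx' j h hj)).1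
        rw [← h2, face, hmj j hj hne]
    have hprod : weightedHomogeneousComponent x m F * Fj 0 = F * face x (Fj 0) := by
      conv_lhs => rw [hsum]
      conv_rhs => rw [hsum]
      rw [map_sum, Finset.sum_mul, Finset.sum_mul]
      refine Finset.sum_congr rfl fun j hj => hmul j ?_
      rw [Finset.mem_range] at hj
      omega
    have hne : weightedHomogeneousComponent x m F ≠ 0 := by
      intro hcon
      rw [hcon, zero_mul] at hprod
      exact mul_ne_zero hF0 (face_ne_zero x hF00) hprod.symm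
    have hge : ∀ s ∈ F.support, m ≤ weight x s := by
      intro s hs
      have hsj : s ∈ (Fj (s y)).support := (hsuppj _ s).mpr ⟨hs, rfl⟩
      have hnej : Fj (s y) ≠ 0 := by
        rw [← support_nonempty]; exact ⟨s, hsj⟩
      rw [← hmj (s y) (hsy s hs) hnej]
      exact minw_le hsj
    have hface : face x F = weightedHomogeneousComponent x m F := face_eq_of hge hne
    rw [← hface] at hprod
    rw [mem_HS_iff]
    refine face_eq_self_of_dvd hF0 ?_
    have hprime : Prime F := UniqueFactorizationMonoid.irreducible_iff_prime.mp hF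
    rcases hprime.dvd_or_dvd (Dvd.intro _ hprod.symm) with h | h
    · exact h
    · exfalso
      obtain ⟨G, hG⟩ := h
      have hG0 : G ≠ 0 := by
        rintro rfl
        rw [mul_zero] at hG
        exact hF00 hG
      have h2 := degreeOf_mul_eq (n := y) hF0 hG0
      rw [← hG] at h2
      have h3 : (Fj 0).degreeOf y = 0 := by
        rw [← Nat.le_zero, degreeOf_le_iff]
        intro s hs
        exact ((hsuppj 0 s).mp hs).2.le
      omega
  have hmono := Submodule.finrank_mono hle
  unfold dimBoundB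
  have : e + 1 - 1 = e := by omega
  rw [this] at hcard
  omega

end Pool.Agent.H27Mahler
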