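import Mathlib
import Pool.Agent.H27Mahler.Irred

open Finsupp (weight)
open MvPolynomial MeasureTheory Filter Topology

set_option linter.unusedSectionVars false

namespace Pool.Agent.H27Mahler

theorem exists_zsmul_eq (n : ℤ) (hn : n ≠ 0) (t : UnitAddCircle) :
    ∃ r : UnitAddCircle, n • r = t := by
  obtain ⟨x, rfl⟩ := QuotientAddGroup.mk_surjective t
  refine ⟨((x / n : ℝ) : UnitAddCircle), ?_⟩
  have h1 : n • ((x / n : ℝ) : UnitAddCircle) = ((n • (x / n) : ℝ) : UnitAddCircle) := rfl
  rw [h1]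
  have h2 : (n : ℝ) ≠ 0 := by exact_mod_cast hn
  congr 1
  rw [zsmul_eq_mul]
  field_simp

theorem integral_comp_surj {σ τ : Type*} [Fintype σ] [Fintype τ] (f : Tor σ →+ Tor τ)
    (hc : Continuous f) (hs : Function.Surjective f) (g : Tor τ → ℝ) (hg : Measurable g) :
    ∫ t, g (f t) = ∫ t, g t := by
  have hmp := measurePreserving_of_surjective f hc hs
  have h2 := integral_map (μ := volume) hmp.measurable.aemeasurable (f := g)
    hg.aestronglyMeasurable
  rw [hmp.map_eq] at h2
  exact h2.symm

section rename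

variable {σ τ : Type*} [Fintype σ] [Fintype τ]

/-- restriction of coordinates -/
def resHom (f : σ → τ) : Tor τ →+ Tor σ where
  toFun t := fun i => t (f i)
  map_zero' := rfl
  map_add' _ _ := rfl

theorem ev_rename (f : σ → τ) (t : Tor τ) (F : MvPolynomial σ ℤ) :
    ev t (rename f F) = ev (resHom f t) F := by
  simp only [ev, coe_eval₂Hom, eval₂_rename]
  rfl

theorem mm_rename (f : σ → τ) (hf : Function.Injective f) (F : MvPolynomial σ ℤ) :
    mm (rename f F) = mm F := by
  classical
  rw [mm, mm]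
  simp_rw [ev_rename]
  refine integral_comp_surj (resHom f) ?_ ?_ (fun t => Real.log ‖ev t F‖) (measurable_log_ev F)
  · exact continuous_pi fun i => continuous_apply _
  · intro t
    refine ⟨fun j => if h : ∃ i, f i = j then t h.choose else 0, ?_⟩
    funext i
    show (if h : ∃ i', f i' = f i then t h.choose else 0) = t i
    rw [dif_pos ⟨i, rfl⟩]
    congr 1
    exact hf (Exists.choose_spec (⟨i, rfl⟩ : ∃ i', f i' = f i))

end rename

section elim

variable {σ : Type*} [Fintype σ] [DecidableEq σ]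

/-- set the variable `j` to one -/
noncomputable def elimVar (j : σ) (F : MvPolynomial σ ℤ) : MvPolynomial {i : σ // i ≠ j} ℤ :=
  ∑ s ∈ F.support, monomial (s.subtypeDomain (fun i => i ≠ j)) (F.coeff s)

/-- extend a function by zero at `j` -/
def ext0 {M : Type*} [Zero M] (j : σ) (t : {i : σ // i ≠ j} → M) : σ → M :=
  fun i => if h : i ≠ j then t ⟨i, h⟩ else 0

theorem mem_support_elimVar {j : σ} {F : MvPolynomial σ ℤ} {s' : {i : σ // i ≠ j} →₀ ℕ}
    (h : s' ∈ (elimVar j F).support) :
    ∃ s ∈ F.support, s' = s.subtypeDomain (fun i => i ≠ j) := by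
  classical
  have h1 := support_sum h
  rw [Finset.mem_biUnion] at h1
  obtain ⟨s, hs, h2⟩ := h1
  have h3 := support_monomial_subset h2
  exact ⟨s, hs, Finset.mem_singleton.mp h3⟩

theorem prod_eq_prod_subtype {M : Type*} [CommMonoid M] (j : σ) (g : σ → M) (hg : g j = 1) :
    ∏ i, g i = ∏ i : {i : σ // i ≠ j}, g i := by
  have h1 : ∏ i : {i : σ // i ≠ j}, g i = ∏ i ∈ Finset.univ.filter (fun i => i ≠ j), g i := by
    rw [Finset.prod_subtype (Finset.univ.filter (fun i => i ≠ j)) (p := fun i => i ≠ j)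
      (by simp) g]
  rw [h1, Finset.prod_filter]
  refine Finset.prod_congr rfl fun i _ => ?_
  by_cases h : i = j
  · simp [h, hg]
  · simp [h]

theorem sum_eq_sum_subtype {M : Type*} [AddCommMonoid M] (j : σ) (g : σ → M) (hg : g j = 0) :
    ∑ i, g i = ∑ i : {i : σ // i ≠ j}, g i := by
  have h1 : ∑ i : {i : σ // i ≠ j}, g i = ∑ i ∈ Finset.univ.filter (fun i => i ≠ j), g i := by
    rw [Finset.sum_subtype (Finset.univ.filter (fun i => i ≠ j)) (p := fun i => i ≠ j)
      (by simp) g]
  rw [h1, Finset.sum_filter]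
  refine Finset.sum_congr rfl fun i _ => ?_
  by_cases h : i = j
  · simp [h, hg]
  · simp [h]

theorem mon_ext0 (j : σ) (t : Tor {i : σ // i ≠ j}) (s : σ →₀ ℕ) :
    mon (ext0 j t) s = mon t (s.subtypeDomain (fun i => i ≠ j)) := by
  rw [mon, prod_eq_prod_subtype j _ (by simp [ext0]), mon]
  refine Finset.prod_congr rfl fun i _ => ?_
  have h1 : ext0 j t i = t i := by
    rw [ext0, dif_pos i.2]
  rw [h1]
  rfl

theorem ev_elimVar (j : σ) (t : Tor {i : σ // i ≠ j}) (F : MvPolynomial σ ℤ) :
    ev t (elimVar j F) = ev (ext0 j t) F := by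
  rw [elimVar, map_sum, ev_eq_sum]
  refine Finset.sum_congr rfl fun s _ => ?_
  rw [mon_ext0]
  simp only [ev, coe_eval₂Hom, eval₂_monomial, eq_intCast, mon]
  congr 1
  exact Finsupp.prod_fintype _ _ (by simp)

theorem weight_ext0 (j : σ) (x : {i : σ // i ≠ j} → ℝ) (s : σ →₀ ℕ) :
    weight (ext0 j x) s = weight x (s.subtypeDomain (fun i => i ≠ j)) := by
  rw [weight_eq_sum, weight_eq_sum, sum_eq_sum_subtype j _ (by simp [ext0])]
  refine Finset.sum_congr rfl fun i _ => ?_
  have h1 : ext0 j x i = x i := by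
    rw [ext0, dif_pos i.2]
  rw [h1]
  rfl

theorem norm_ev_shear_homog {lam : σ → ℤ} {F : MvPolynomial σ ℤ}
    (hF : ∀ s ∈ F.support, ∀ s' ∈ F.support, weight lam s = weight lam s')
    (t : Tor σ) (r : UnitAddCircle) : ‖ev (shear lam (t, r)) F‖ = ‖ev t F‖ := by
  by_cases h0 : F = 0
  · simp [h0]
  obtain ⟨s0, hs0⟩ := support_nonempty.mpr h0
  have h1 : ev (shear lam (t, r)) F =
      (AddCircle.toCircle r : ℂ) ^ (weight lam s0) * ev t F := by
    rw [ev_eq_sum, ev_eq_sum, Finset.mul_sum]
    refine Finset.sum_congr rfl fun s hs => ?_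
    rw [mon_shear, hF s hs s0 hs0]
    ring
  rw [h1, norm_mul, norm_zpow, Circle.norm_coe, one_zpow, one_mul]

/-- the homomorphism used for elimination -/
def thetaHom (lam : σ → ℤ) (j : σ) : Tor σ →+ Tor {i : σ // i ≠ j} where
  toFun r := fun i => lam j • r i + lam i • (-(r j))
  map_zero' := by funext i; simp
  map_add' r r' := by
    funext i
    simp only [Pi.add_apply, smul_add, neg_add]
    abel

/-- multiplication by an integer -/
def mulHom (q : ℤ) : Tor σ →+ Tor σ where
  toFun r := q • r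
  map_zero' := by simp
  map_add' r r' := by simp

theorem ev_theta {lam : σ → ℤ} {j : σ} {F : MvPolynomial σ ℤ}
    (hF : ∀ s ∈ F.support, ∀ s' ∈ F.support, weight lam s = weight lam s')
    (r : Tor σ) : ‖ev (mulHom (lam j) r) F‖ = ‖ev (thetaHom lam j r) (elimVar j F)‖ := by
  rw [ev_elimVar, ← norm_ev_shear_homog hF (mulHom (lam j) r) (-(r j))]
  congr 2
  have : shear lam (mulHom (lam j) r, -(r j)) = ext0 j (thetaHom lam j r) := by
    funext i
    by_cases h : i = j
    · subst h
      rw [ext0, dif_neg (by simp), shear_apply]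
      show lam i • r i + lam i • (-(r i)) = 0
      rw [smul_neg, add_neg_cancel]
    · rw [ext0, dif_pos h, shear_apply]
      rfl
  rw [this]

theorem mulHom_surjective (q : ℤ) (hq : q ≠ 0) :
    Function.Surjective (mulHom q : Tor σ →+ Tor σ) := by
  intro t
  choose r hr using fun i => exists_zsmul_eq q hq (t i)
  exact ⟨r, funext hr⟩

theorem thetaHom_surjective (lam : σ → ℤ) (j : σ) (hj : lam j ≠ 0) :
    Function.Surjective (thetaHom lam j) := by
  intro t
  choose r hr using fun i => exists_zsmul_eq (lam j) hj (t i)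
  refine ⟨ext0 j r, ?_⟩
  funext i
  show lam j • ext0 j r i + lam i • (-(ext0 j r j)) = t i
  rw [ext0, ext0, dif_pos i.2, dif_neg (by simp)]
  simp [hr]

theorem elimVar_ne_zero {lam : σ → ℤ} {j : σ} (hj : lam j ≠ 0) {F : MvPolynomial σ ℤ}
    (hF0 : F ≠ 0) (hF : ∀ s ∈ F.support, ∀ s' ∈ F.support, weight lam s = weight lam s') :
    elimVar j F ≠ 0 := by
  intro hcon
  obtain ⟨t, ht⟩ := (ae_ev_ne_zero hF0).exists
  obtain ⟨r, rfl⟩ := mulHom_surjective (lam j) hj t
  have h1 := ev_theta hF (j := j) r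
  rw [hcon, map_zero, norm_zero, norm_eq_zero] at h1
  exact ht h1

theorem mm_elimVar {lam : σ → ℤ} {j : σ} (hj : lam j ≠ 0) {F : MvPolynomial σ ℤ}
    (hF : ∀ s ∈ F.support, ∀ s' ∈ F.support, weight lam s = weight lam s') :
    mm (elimVar j F) = mm F := by
  have h1 : mm F = ∫ r : Tor σ, Real.log ‖ev (mulHom (lam j) r) F‖ :=
    (integral_comp_surj (mulHom (lam j)) (by
      show Continuous fun r : Tor σ => lam j • r
      fun_prop) (mulHom_surjective _ hj) (fun t => Real.log ‖ev t F‖) (measurable_log_ev F)).symm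
  have h2 : mm (elimVar j F) = ∫ r : Tor σ, Real.log ‖ev (thetaHom lam j r) (elimVar j F)‖ :=
    (integral_comp_surj (thetaHom lam j) (by
      refine continuous_pi fun i => ?_
      show Continuous fun r : Tor σ => lam j • r i + lam i • (-(r j))
      fun_prop) (thetaHom_surjective lam j hj) (fun t => Real.log ‖ev t (elimVar j F)‖)
      (measurable_log_ev _)).symm
  rw [h1, h2]
  simp_rw [ev_theta hF]

theorem degreeOf_elimVar_le (j : σ) (F : MvPolynomial σ ℤ) (d : ℕ)
    (hd : ∀ i, F.degreeOf i ≤ d) (i : {i : σ // i ≠ j}) : (elimVar j F).degreeOf i ≤ d := by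
  rw [degreeOf_le_iff]
  intro s' hs'
  obtain ⟨s, hs, rfl⟩ := mem_support_elimVar hs'
  exact (degreeOf_le_iff.mp (hd i)) s hs

/-- restriction of real functions -/
def resLin (j : σ) : (σ → ℝ) →ₗ[ℝ] ({i : σ // i ≠ j} → ℝ) where
  toFun x := fun i => x i
  map_add' _ _ := rfl
  map_smul' _ _ := rfl

theorem finrank_elimVar (j : σ) (F : MvPolynomial σ ℤ) (K : ℕ)
    (h : Fintype.card σ ≤ Module.finrank ℝ (HS F) + K) :
    Fintype.card {i : σ // i ≠ j} ≤ Module.finrank ℝ (HS (elimVar j F)) + K := by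
  have hcard : Fintype.card {i : σ // i ≠ j} = Fintype.card σ - 1 := by
    rw [Fintype.card_subtype_compl, Fintype.card_subtype_eq]
  set φ : (σ → ℝ) →ₗ[ℝ] ℝ := LinearMap.proj j with hφ
  have hext : ∀ x : σ → ℝ, x j = 0 → ext0 j (resLin j x) = x := by
    intro x hx
    funext i
    by_cases hi : i = j
    · subst hi
      rw [ext0, dif_neg (by simp), hx]
    · rw [ext0, dif_pos hi]
      rfl
  have hmap : ∀ x ∈ HS F ⊓ LinearMap.ker φ, resLin j x ∈ HS (elimVar j F) := by
    rintro x ⟨hx, hxj⟩
    have hxj' : x j = 0 := hxj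
    intro s hs s' hs'
    obtain ⟨u, hu, rfl⟩ := mem_support_elimVar hs
    obtain ⟨u', hu', rfl⟩ := mem_support_elimVar hs'
    rw [← weight_ext0, ← weight_ext0, hext x hxj']
    exact hx u hu u' hu'
  set ψ : ↥(HS F ⊓ LinearMap.ker φ) →ₗ[ℝ] ↥(HS (elimVar j F)) :=
    ((resLin j).comp (Submodule.subtype _)).codRestrict (HS (elimVar j F))
      (fun x => hmap x x.2) with hψ
  have hinj : Function.Injective ψ := by
    rw [← LinearMap.ker_eq_bot, LinearMap.ker_eq_bot']
    intro x hx
    have h1 : resLin j x = 0 := congrArg Subtype.val hx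
    apply Subtype.ext
    have h2 := hext x x.2.2
    rw [h1] at h2
    rw [← h2]
    funext i
    simp [ext0]
  have h1 := LinearMap.finrank_le_finrank_of_injective hinj
  have h2 := Submodule.finrank_sup_add_finrank_inf_eq (HS F) (LinearMap.ker φ)
  have h3 : Module.finrank ℝ ↥(HS F ⊔ LinearMap.ker φ) ≤ Module.finrank ℝ (σ → ℝ) :=
    Submodule.finrank_le _
  have h4 := LinearMap.finrank_range_add_finrank_ker φ
  have h5 : Module.finrank ℝ (LinearMap.range φ) ≤ 1 := by
    refine (Submodule.finrank_le _).trans ?_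
    simp
  have h6 : Module.finrank ℝ (σ → ℝ) = Fintype.card σ := Module.finrank_pi ℝ
  omega

theorem exists_int_HS {F : MvPolynomial σ ℤ} {x : σ → ℝ} (hx : x ∈ HS F) (hx0 : x ≠ 0) :
    ∃ (lam : σ → ℤ) (j : σ), lam j ≠ 0 ∧
      ∀ s ∈ F.support, ∀ s' ∈ F.support, weight lam s = weight lam s' := by
  obtain ⟨j, hj⟩ : ∃ j, x j ≠ 0 := by
    by_contra hcon
    push Not at hcon
    exact hx0 (funext hcon)
  obtain ⟨lam, hlam⟩ := exists_int_direction (F.support ∪ {0, Finsupp.single j 1}) x
  have hiff : ∀ s ∈ F.support ∪ {0, Finsupp.single j 1}, ∀ s' ∈ F.support ∪ {0, Finsupp.single j 1},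
      (weight x s = weight x s' ↔ weight lam s = weight lam s') := by
    intro s hs s' hs'
    have h1 := hlam s hs s' hs'
    have h2 := hlam s' hs' s hs
    constructor
    · intro h
      refine le_antisymm (not_lt.mp fun hcon => ?_) (not_lt.mp fun hcon => ?_)
      · exact absurd h (h2.mpr hcon).ne'
      · exact absurd h (h1.mpr hcon).ne
    · intro h
      refine le_antisymm (not_lt.mp fun hcon => ?_) (not_lt.mp fun hcon => ?_)
      · exact absurd h (h2.mp hcon).ne'
      · exact absurd h (h1.mp hcon).ne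
  refine ⟨lam, j, ?_, ?_⟩
  · intro hcon
    apply hj
    have h1 := (hiff (Finsupp.single j 1) (by simp) 0 (by simp)).mpr (by
      rw [Finsupp.weight_single]; simp [hcon])
    rw [Finsupp.weight_single] at h1
    simpa using h1
  · intro s hs s' hs'
    exact (hiff s (Finset.mem_union_left _ hs) s' (Finset.mem_union_left _ hs')).mp
      (hx s hs s' hs')

end elim

/-- reduction of the number of variables -/
theorem reduce_vars (K d : ℕ) (n : ℕ) : ∀ (σ : Type) [Fintype σ] (F : MvPolynomial σ ℤ),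
    Fintype.card σ = n → F ≠ 0 → (∀ i, F.degreeOf i ≤ d) →
    Fintype.card σ ≤ Module.finrank ℝ (HS F) + K →
    ∃ G : MvPolynomial (Fin K) ℤ, G ≠ 0 ∧ (∀ i, G.degreeOf i ≤ d) ∧ mm G = mm F := by
  classical
  induction n with
  | zero =>
    intro σ _ F hn hF0 hd hK
    have : IsEmpty σ := Fintype.card_eq_zero_iff.mp hn
    refine ⟨rename (fun i => (IsEmpty.false i).elim) F, ?_, ?_, ?_⟩
    · rw [Ne, ← map_zero (rename (fun i : σ => ((IsEmpty.false i).elim : Fin K))),
        (rename_injective _ (Function.injective_of_subsingleton _)).eq_iff]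
      exact hF0
    · intro i
      rw [degreeOf_le_iff]
      intro s hs
      rw [support_rename_of_injective (Function.injective_of_subsingleton _)] at hs
      obtain ⟨u, hu, rfl⟩ := Finset.mem_image.mp hs
      have : u = 0 := Subsingleton.elim _ _
      simp [this]
    · exact mm_rename _ (Function.injective_of_subsingleton _) F
  | succ n ih =>
    intro σ _ F hn hF0 hd hK
    by_cases hle : Fintype.card σ ≤ K
    · have : Nonempty (σ ↪ Fin K) := by
        rw [Function.Embedding.nonempty_iff_card_le, Fintype.card_fin]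
        exact hle
      obtain ⟨f⟩ := this
      refine ⟨rename f F, ?_, ?_, mm_rename f f.injective F⟩
      · rw [Ne, ← map_zero (rename f), (rename_injective _ f.injective).eq_iff]
        exact hF0
      · intro i
        rw [degreeOf_le_iff]
        intro s hs
        rw [support_rename_of_injective f.injective] at hs
        obtain ⟨u, hu, rfl⟩ := Finset.mem_image.mp hs
        by_cases hi : ∃ i0, f i0 = i
        · obtain ⟨i0, rfl⟩ := hi
          rw [Finsupp.mapDomain_apply f.injective]
          exact (degreeOf_le_iff.mp (hd i0)) u hu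
        · rw [Finsupp.mapDomain_of_notMem_range _ _ (by simpa using hi)]
          exact Nat.zero_le _
    · have hpos : 0 < Module.finrank ℝ (HS F) := by omega
      have hnt : Nontrivial (HS F) := Module.finrank_pos_iff.mp hpos
      obtain ⟨x, hx⟩ := exists_ne (0 : HS F)
      obtain ⟨lam, j, hj, hhom⟩ := exists_int_HS x.2 (fun h => hx (Subtype.ext h))
      obtain ⟨G, h1, h2, h3⟩ := ih {i : σ // i ≠ j} (elimVar j F)
        (by rw [Fintype.card_subtype_compl, Fintype.card_subtype_eq, hn]; rfl)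
        (elimVar_ne_zero hj hF0 hhom) (degreeOf_elimVar_le j F d hd) (finrank_elimVar j F K hK)
      exact ⟨G, h1, h2, h3.trans (mm_elimVar hj hhom)⟩

end Pool.Agent.H27Mahler
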