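import Mathlib
import Pool.Agent.H27Mahler.Elim

open Finsupp (weight)
open MvPolynomial MeasureTheory Filter Topology

set_option linter.unusedSectionVars false

namespace Pool.Agent.H27Mahler

/-- finitely many integer polynomials in `K` variables of bounded degrees and bounded measure -/
theorem finite_bounded (K d : ℕ) (T : ℝ) :
    Set.Finite {G : MvPolynomial (Fin K) ℤ | G ≠ 0 ∧ (∀ i, G.degreeOf i ≤ d) ∧ mm G ≤ T} := by
  classical
  set box : Finset (Fin K →₀ ℕ) :=
    Finset.Icc 0 (Finsupp.equivFunOnFinite.symm (fun _ => d)) with hbox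
  have hmem : ∀ G : MvPolynomial (Fin K) ℤ, (∀ i, G.degreeOf i ≤ d) → G.support ⊆ box := by
    intro G hG s hs
    rw [hbox, Finset.mem_Icc]
    refine ⟨fun i => Nat.zero_le _, fun i => ?_⟩
    exact (degreeOf_le_iff.mp (hG i)) s hs
  obtain ⟨lam, hlam⟩ := exists_int_injective box
  set N : ℕ := ∑ s ∈ box, (weight lam s).natAbs with hN
  have hNle : ∀ s ∈ box, |weight lam s| ≤ N := by
    intro s hs
    have h1 : (weight lam s).natAbs ≤ N :=
      Finset.single_le_sum (f := fun s => (weight lam s).natAbs) (fun _ _ => Nat.zero_le _) hs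
    rw [Int.abs_eq_natAbs]
    exact_mod_cast h1
  set B : ℝ := Real.exp ((2 * N : ℕ) * Real.log 2 + T) with hB
  have hcoeff : ∀ G : MvPolynomial (Fin K) ℤ, G ≠ 0 → (∀ i, G.degreeOf i ≤ d) → mm G ≤ T →
      ∀ s, |((G.coeff s : ℤ) : ℝ)| ≤ B := by
    intro G hG0 hG hT s
    by_cases hs : s ∈ G.support
    · have hsub := hmem G hG
      have h1 := log_abs_coeff_le lam (-N) (2 * N) hG0
        (fun s hs => by have := abs_le.mp (hNle s (hsub hs)); omega)
        (fun s hs => by have := abs_le.mp (hNle s (hsub hs)); push_cast; omega)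
        (fun s hs s' hs' => hlam s (hsub hs) s' (hsub hs')) hs
      have h2 := one_le_abs_coeff hs
      rw [hB, ← Real.log_le_iff_le_exp (by linarith)]
      linarith
    · rw [notMem_support_iff.mp hs]
      simp [hB, Real.exp_nonneg]
  set M : ℤ := ⌈B⌉ with hM
  refine Set.Finite.of_injOn (f := fun G => fun s : box => MvPolynomial.coeff (s : Fin K →₀ ℕ) G)
    (t := Set.pi Set.univ (fun _ : box => Set.Icc (-M) M)) ?_ ?_ ?_
  · rintro G ⟨h0, h1, h2⟩ s -
    have h3 := hcoeff G h0 h1 h2 s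
    have h4 := h3.trans (Int.le_ceil B)
    have h5 : |MvPolynomial.coeff (s : Fin K →₀ ℕ) G| ≤ M := by exact_mod_cast h4
    exact abs_le.mp h5
  · rintro G ⟨h0, h1, h2⟩ G' ⟨h0', h1', h2'⟩ heq
    ext s
    by_cases hs : s ∈ box
    · exact congrFun heq ⟨s, hs⟩
    · rw [notMem_support_iff.mp fun h => hs (hmem G h1 h),
        notMem_support_iff.mp fun h => hs (hmem G' h1' h)]
  · exact Set.Finite.pi fun _ => Set.finite_Icc _ _

theorem mm_one {σ : Type*} [Fintype σ] : mm (1 : MvPolynomial σ ℤ) = 0 := by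
  simp [mm]

theorem mm_unit {σ : Type*} [Fintype σ] {u : MvPolynomial σ ℤ} (hu : IsUnit u) : mm u = 0 := by
  obtain ⟨v, hv⟩ := hu.exists_right_inv
  have hu0 : u ≠ 0 := by rintro rfl; simp at hv
  have hv0 : v ≠ 0 := by rintro rfl; simp at hv
  have h1 := mm_mul hu0 hv0
  rw [hv, mm_one] at h1
  have h2 := mm_nonneg u
  have h3 := mm_nonneg v
  linarith

theorem mm_X {σ : Type*} [Fintype σ] (y : σ) : mm (X y : MvPolynomial σ ℤ) = 0 := by
  simp [mm, ev, Circle.norm_coe]

theorem mm_irreducible_of_X_dvd {σ : Type*} [Fintype σ] {F : MvPolynomial σ ℤ}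
    (hF : Irreducible F) (y : σ) (h : ∀ s ∈ F.support, s y ≠ 0) : mm F = 0 := by
  have hdvd : X y ∣ F := by
    rw [X_dvd_iff_modMonomial_eq_zero]
    ext d
    by_cases hd : Finsupp.single y 1 ≤ d
    · rw [coeff_modMonomial_of_le _ hd, coeff_zero]
    · rw [coeff_modMonomial_of_not_le _ hd, coeff_zero]
      by_contra hne
      apply hd
      rw [Finsupp.single_le_iff]
      exact Nat.one_le_iff_ne_zero.mpr (h d (mem_support_iff.mpr hne))
  obtain ⟨G, hG⟩ := hdvd
  have hX0 : (X y : MvPolynomial σ ℤ) ≠ 0 := X_ne_zero y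
  have hG0 : G ≠ 0 := by rintro rfl; rw [mul_zero] at hG; exact hF.ne_zero hG
  have hXu : ¬ IsUnit (X y : MvPolynomial σ ℤ) := by
    intro hu
    obtain ⟨v, hv⟩ := hu.exists_right_inv
    have := congrArg (MvPolynomial.eval (0 : σ → ℤ)) hv
    simp at this
  have hGu : IsUnit G := (hF.isUnit_or_isUnit hG).resolve_left hXu
  rw [hG, mm_mul hX0 hG0, mm_X, mm_unit hGu, add_zero]

/-- values at irreducible polynomials -/
theorem finite_irreducible (d : ℕ) (T : ℝ) :
    Set.Finite {v : ℝ | v ≤ T ∧ ∃ (k : ℕ) (F : MvPolynomial (Fin k) ℤ), Irreducible F ∧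
      (∀ i, F.degreeOf i ≤ d) ∧ mm F = v} := by
  set K : ℕ := dimBoundB d T with hK
  have h1 := ((finite_bounded K d T).image (fun G => mm G)).union (Set.finite_singleton (0 : ℝ))
  refine h1.subset ?_
  rintro v ⟨hvT, k, F, hF, hd, rfl⟩
  by_cases hdeg : ∀ y, F.degreeOf y = 0
  · -- constant polynomial
    left
    have hHS : HS F = ⊤ := by
      rw [eq_top_iff]
      intro x _
      rw [mem_HS]
      have h0 : ∀ s ∈ F.support, s = 0 := by
        intro s hs
        ext i
        have := (degreeOf_le_iff.mp (hdeg i).le) s hs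
        simpa using this
      intro s hs s' hs'
      rw [h0 s hs, h0 s' hs']
    obtain ⟨G, hG0, hGd, hGm⟩ := reduce_vars K d k (Fin k) F (Fintype.card_fin k) hF.ne_zero hd (by
      rw [hHS, finrank_top, Module.finrank_pi]
      omega)
    exact ⟨G, ⟨hG0, hGd, by rw [hGm]; exact hvT⟩, hGm⟩
  · push Not at hdeg
    obtain ⟨y, hy⟩ := hdeg
    by_cases h0 : ∃ s ∈ F.support, s y = 0
    · left
      have h2 := finrank_irreducible hF y d (hd y) hy h0 hvT
      obtain ⟨G, hG0, hGd, hGm⟩ := reduce_vars K d k (Fin k) F (Fintype.card_fin k) hF.ne_zero hd h2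
      exact ⟨G, ⟨hG0, hGd, by rw [hGm]; exact hvT⟩, hGm⟩
    · right
      push Not at h0
      exact mm_irreducible_of_X_dvd hF y h0

theorem finite_closure_inter {V : Set ℝ} (hV : V.Finite) (hpos : ∀ v ∈ V, 0 ≤ v) (T : ℝ) :
    ((AddSubmonoid.closure V : Set ℝ) ∩ Set.Iic T).Finite := by
  have hnn : ∀ (W : Set ℝ), (∀ v ∈ W, 0 ≤ v) → ∀ w ∈ AddSubmonoid.closure W, 0 ≤ w := by
    intro W hW w hw
    induction hw using AddSubmonoid.closure_induction with
    | mem x hx => exact hW x hx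
    | zero => exact le_rfl
    | add x y _ _ hx hy => exact add_nonneg hx hy
  induction V, hV using Set.Finite.induction_on generalizing T with
  | empty =>
    refine (Set.finite_singleton (0 : ℝ)).subset ?_
    rintro x ⟨hx, -⟩
    simpa using hx
  | @insert v W hvW hW ih =>
    have hposW : ∀ w ∈ W, 0 ≤ w := fun w hw => hpos w (Set.mem_insert_of_mem _ hw)
    have hv0 : 0 ≤ v := hpos v (Set.mem_insert _ _)
    have hfin := ih hposW T
    rcases eq_or_lt_of_le hv0 with h | h
    · refine hfin.subset ?_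
      rintro x ⟨hx, hxT⟩
      refine ⟨?_, hxT⟩
      have hle : AddSubmonoid.closure (insert v W) ≤ AddSubmonoid.closure W := by
        rw [AddSubmonoid.closure_le]
        rintro w (rfl | hw)
        · rw [← h]; exact zero_mem _
        · exact AddSubmonoid.subset_closure hw
      exact hle hx
    · refine ((Set.finite_Iic ⌈T / v⌉₊).image2 (fun (n : ℕ) (w : ℝ) => n * v + w) hfin).subset ?_
      rintro x ⟨hx, hxT⟩
      rw [SetLike.mem_coe, Set.insert_eq, AddSubmonoid.closure_union, AddSubmonoid.mem_sup] at hx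
      obtain ⟨y, hy, w, hw, rfl⟩ := hx
      obtain ⟨n, rfl⟩ := AddSubmonoid.mem_closure_singleton.mp hy
      have hw0 := hnn W hposW w hw
      rw [nsmul_eq_mul] at hxT ⊢
      have hxT' : (n : ℝ) * v + w ≤ T := hxT
      have hn0 : 0 ≤ (n : ℝ) * v := by positivity
      refine ⟨n, ?_, w, ⟨hw, ?_⟩, rfl⟩
      · have h1 : (n : ℝ) ≤ T / v := by rw [le_div_iff₀ h]; linarith
        have h2 : (n : ℝ) ≤ (⌈T / v⌉₊ : ℝ) := h1.trans (Nat.le_ceil _)
        exact_mod_cast h2
      · show w ≤ T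
        linarith

theorem finite_values (d : ℕ) (T : ℝ) :
    Set.Finite {v : ℝ | v ≤ T ∧ ∃ (k : ℕ) (F : MvPolynomial (Fin k) ℤ), F ≠ 0 ∧
      (∀ i, F.degreeOf i ≤ d) ∧ mm F = v} := by
  set V : Set ℝ := {v : ℝ | v ≤ T ∧ ∃ (k : ℕ) (F : MvPolynomial (Fin k) ℤ), Irreducible F ∧
      (∀ i, F.degreeOf i ≤ d) ∧ mm F = v} with hV
  have hVfin : V.Finite := finite_irreducible d T
  have hVpos : ∀ v ∈ V, 0 ≤ v := by
    rintro v ⟨-, k, F, -, -, rfl⟩
    exact mm_nonneg F
  refine (finite_closure_inter hVfin hVpos T).subset ?_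
  rintro v ⟨hvT, k, F, hF0, hd, rfl⟩
  refine ⟨?_, hvT⟩
  revert hvT
  revert hd
  revert hF0
  refine WfDvdMonoid.induction_on_irreducible (motive := fun F : MvPolynomial (Fin k) ℤ =>
    F ≠ 0 → (∀ i, F.degreeOf i ≤ d) → mm F ≤ T → mm F ∈ (AddSubmonoid.closure V : Set ℝ)) F ?_ ?_ ?_
  · intro h; exact absurd rfl h
  · intro u hu _ _ _
    rw [mm_unit hu]
    exact zero_mem _
  · intro a i ha hi ih h0 hd hT
    have hi0 : i ≠ 0 := hi.ne_zero
    have hmul := mm_mul hi0 ha
    have h1 := mm_nonneg i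
    have h2 := mm_nonneg a
    have hdeg : ∀ j, i.degreeOf j ≤ d ∧ a.degreeOf j ≤ d := by
      intro j
      have h3 := degreeOf_mul_eq (n := j) hi0 ha
      have h4 := hd j
      omega
    rw [hmul]
    refine add_mem ?_ (ih ha (fun j => (hdeg j).2) (by linarith))
    exact AddSubmonoid.subset_closure ⟨by linarith, k, i, hi, fun j => (hdeg j).1, rfl⟩

/-- the integral over the unit cube is the logarithmic Mahler measure -/
theorem integral_cube_eq_mm {k : ℕ} (F : MvPolynomial (Fin k) ℤ) :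
    ∫ t in Set.Icc (0 : Fin k → ℝ) 1, Real.log ‖MvPolynomial.eval
      (fun j => Complex.exp (2 * Real.pi * Complex.I * (t j : ℂ)))
      (MvPolynomial.map (Int.castRingHom ℂ) F)‖ = mm F := by
  have hmp : MeasurePreserving (fun (a : Fin k → ℝ) i => ((a i : ℝ) : UnitAddCircle))
      (Measure.pi fun _ : Fin k => (volume : Measure ℝ).restrict (Set.Ioc 0 (0 + 1)))
      (Measure.pi fun _ : Fin k => (volume : Measure UnitAddCircle)) :=
    measurePreserving_pi _ _ fun _ => UnitAddCircle.measurePreserving_mk 0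
  have h1 : mm F = ∫ t : Fin k → ℝ, Real.log ‖ev (fun i => ((t i : ℝ) : UnitAddCircle)) F‖
      ∂(Measure.pi fun _ : Fin k => (volume : Measure ℝ).restrict (Set.Ioc 0 (0 + 1))) := by
    have h2 := integral_map (μ := Measure.pi fun _ : Fin k =>
      (volume : Measure ℝ).restrict (Set.Ioc 0 (0 + 1))) hmp.measurable.aemeasurable
      (f := fun t : Tor (Fin k) => Real.log ‖ev t F‖) (measurable_log_ev F).aestronglyMeasurable
    rw [hmp.map_eq] at h2
    exact h2
  rw [h1, ← Measure.restrict_pi_pi]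
  have h3 : (Set.univ.pi fun _ : Fin k => Set.Ioc (0 : ℝ) (0 + 1)) =ᵐ[Measure.pi fun _ : Fin k =>
      (volume : Measure ℝ)] Set.Icc (0 : Fin k → ℝ) 1 := by
    rw [zero_add]
    exact Measure.univ_pi_Ioc_ae_eq_Icc
  rw [Measure.restrict_congr_set h3]
  refine integral_congr_ae (Filter.Eventually.of_forall fun t => ?_)
  have h4 : ev (fun i => ((t i : ℝ) : UnitAddCircle)) F = MvPolynomial.eval
      (fun j => Complex.exp (2 * Real.pi * Complex.I * (t j : ℂ)))
      (MvPolynomial.map (Int.castRingHom ℂ) F) := by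
    rw [eval_map, ev, coe_eval₂Hom]
    congr 1
    funext j
    rw [AddCircle.toCircle_apply_mk, Circle.coe_exp]
    congr 1
    push_cast
    ring
  show Real.log ‖MvPolynomial.eval
      (fun j => Complex.exp (2 * Real.pi * Complex.I * (t j : ℂ)))
      (MvPolynomial.map (Int.castRingHom ℂ) F)‖ =
      Real.log ‖ev (fun i => ((t i : ℝ) : UnitAddCircle)) F‖
  rw [h4]

end Pool.Agent.H27Mahler
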