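import Mathlib
import Pool.Agent.H27Mahler.Final

open Finsupp (weight)
open MvPolynomial MeasureTheory Filter Topology

set_option linter.unusedSectionVars false

namespace Pool.Agent.H27Mahler

variable {σ : Type*} [Fintype σ]

/-- reciprocal up to sign and a monomial: `P(z) = u z^e P(1/z)` -/
def Recip {σ : Type*} (P : MvPolynomial σ ℤ) : Prop :=
  ∃ (e : σ →₀ ℕ) (u : ℤ), (u = 1 ∨ u = -1) ∧ (∀ s ∈ P.support, s ≤ e) ∧
    ∀ s s' : σ →₀ ℕ, s + s' = e → coeff s P = u * coeff s' P

/-- reversal with respect to the exponent `e` -/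
noncomputable def rev {σ : Type*} (e : σ →₀ ℕ) (P : MvPolynomial σ ℤ) : MvPolynomial σ ℤ :=
  ∑ s ∈ P.support, monomial (e - s) (coeff s P)

theorem coeff_rev {σ : Type*} {e : σ →₀ ℕ} {P : MvPolynomial σ ℤ} (he : ∀ s ∈ P.support, s ≤ e)
    {s s' : σ →₀ ℕ} (h : s + s' = e) : coeff s (rev e P) = coeff s' P := by
  classical
  rw [rev, coeff_sum]
  simp only [coeff_monomial]
  by_cases hs' : s' ∈ P.support
  · rw [Finset.sum_eq_single s']
    · rw [if_pos]
      rw [← h]; simp
    · intro b hb hne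
      rw [if_neg]
      intro hcon
      apply hne
      have h1 := he b hb
      have h2 : b + (e - b) = e := add_tsub_cancel_of_le h1
      rw [hcon, ← h, add_comm] at h2
      exact add_left_cancel h2
    · intro hcon; exact absurd hs' hcon
  · rw [notMem_support_iff.mp hs']
    refine Finset.sum_eq_zero fun b hb => ?_
    rw [if_neg]
    intro hcon
    apply hs'
    have h1 := he b hb
    have h2 : b + (e - b) = e := add_tsub_cancel_of_le h1
    rw [hcon, ← h, add_comm] at h2
    rw [← add_left_cancel h2]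
    exact hb

theorem support_rev {σ : Type*} {e : σ →₀ ℕ} {P : MvPolynomial σ ℤ}
    (he : ∀ s ∈ P.support, s ≤ e) {s : σ →₀ ℕ} (hs : s ∈ (rev e P).support) :
    ∃ s' ∈ P.support, s + s' = e := by
  classical
  rw [rev] at hs
  have h1 := support_sum hs
  rw [Finset.mem_biUnion] at h1
  obtain ⟨s', hs', h2⟩ := h1
  have h3 := support_monomial_subset h2
  rw [Finset.mem_singleton] at h3
  refine ⟨s', hs', ?_⟩
  rw [h3]
  exact tsub_add_cancel_of_le (he s' hs')

theorem rev_ne_zero {σ : Type*} {e : σ →₀ ℕ} {P : MvPolynomial σ ℤ} (hP : P ≠ 0)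
    (he : ∀ s ∈ P.support, s ≤ e) : rev e P ≠ 0 := by
  obtain ⟨s, hs⟩ := support_nonempty.mpr hP
  intro h
  have h1 := coeff_rev he (tsub_add_cancel_of_le (he s hs))
  rw [h, coeff_zero] at h1
  exact (mem_support_iff.mp hs) h1.symm

theorem norm_ev_rev {e : σ →₀ ℕ} {P : MvPolynomial σ ℤ} (he : ∀ s ∈ P.support, s ≤ e)
    (t : Tor σ) : ‖ev t (rev e P)‖ = ‖ev t P‖ := by
  classical
  have h1 : ev t (rev e P) = mon t e * (starRingEnd ℂ) (ev t P) := by
    rw [ev_eq_sum t P, map_sum, Finset.mul_sum, rev, map_sum]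
    refine Finset.sum_congr rfl fun s hs => ?_
    have h2 : ev t (monomial (e - s) (coeff s P)) = ((coeff s P : ℤ) : ℂ) * mon t (e - s) := by
      by_cases h0 : coeff s P = 0
      · rw [h0]; simp
      · rw [ev_eq_sum, support_monomial, if_neg h0, Finset.sum_singleton, coeff_monomial, if_pos rfl]
    rw [h2, map_mul]
    have h3 : mon t e = mon t (e - s) * mon t s := by
      simp only [mon, ← Finset.prod_mul_distrib]
      refine Finset.prod_congr rfl fun i _ => ?_
      rw [← pow_add]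
      congr 1
      have := he s hs i
      simp only [Finsupp.coe_tsub, Pi.sub_apply]
      omega
    have h4 : mon t s * (starRingEnd ℂ) (mon t s) = 1 := by
      rw [Complex.mul_conj, Complex.normSq_eq_norm_sq, norm_mon]
      simp
    have h5 : (starRingEnd ℂ) ((coeff s P : ℤ) : ℂ) = ((coeff s P : ℤ) : ℂ) := by
      simp
    rw [h5, h3]
    calc ((coeff s P : ℤ) : ℂ) * mon t (e - s) = ((coeff s P : ℤ) : ℂ) * mon t (e - s) *
        (mon t s * (starRingEnd ℂ) (mon t s)) := by rw [h4, mul_one]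
      _ = _ := by ring
  rw [h1, norm_mul, norm_mon, one_mul, Complex.norm_conj]

theorem LL_rev {e : σ →₀ ℕ} {P : MvPolynomial σ ℤ} (hP : P ≠ 0) (he : ∀ s ∈ P.support, s ≤ e) :
    LL P (rev e P) = Real.log 2 + 2 * mm P := by
  rw [LL, mm, ← integral_const_mul]
  have h1 : Integrable fun t : Tor σ => 2 * Real.log ‖ev t P‖ := (integrable_log_ev hP).const_mul 2
  have h2 : Real.log 2 + ∫ t : Tor σ, 2 * Real.log ‖ev t P‖ =
      ∫ t : Tor σ, (Real.log 2 + 2 * Real.log ‖ev t P‖) := by
    rw [integral_add (integrable_const _) h1]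
    simp
  rw [h2]
  refine integral_congr_ae ?_
  filter_upwards [ae_ev_ne_zero hP] with t ht
  have h0 : 0 < ‖ev t P‖ := norm_pos_iff.mpr ht
  rw [norm_ev_rev he, ← two_mul, Real.log_mul (by norm_num) (by positivity), Real.log_pow]
  norm_num

theorem HS_le_HS_rev {e : σ →₀ ℕ} {P : MvPolynomial σ ℤ} (he : ∀ s ∈ P.support, s ≤ e) :
    HS P ≤ HS (rev e P) := by
  intro x hx s hs s' hs'
  obtain ⟨u, hu, h1⟩ := support_rev he hs
  obtain ⟨u', hu', h2⟩ := support_rev he hs'
  have h3 := hx u hu u' hu'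
  have h4 : weight x s + weight x u = weight x e := by rw [← h1, map_add]
  have h5 : weight x s' + weight x u' = weight x e := by rw [← h2, map_add]
  linarith

/-- the exponent of degrees -/
noncomputable def degs {σ : Type*} [Fintype σ] (P : MvPolynomial σ ℤ) : σ →₀ ℕ :=
  Finsupp.equivFunOnFinite.symm fun i => P.degreeOf i

theorem le_degs {P : MvPolynomial σ ℤ} : ∀ s ∈ P.support, s ≤ degs P := by
  intro s hs i
  exact monomial_le_degreeOf i hs

theorem not_dvd_rev {P : MvPolynomial σ ℤ} (hP : P ≠ 0) (hr : ¬ Recip P) :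
    ¬ P ∣ rev (degs P) P := by
  classical
  rintro ⟨G, hG⟩
  apply hr
  have hR := rev_ne_zero hP le_degs
  have hG0 : G ≠ 0 := by rintro rfl; rw [mul_zero] at hG; exact hR hG
  have hGdeg : ∀ i, G.degreeOf i = 0 := by
    intro i
    have h1 := degreeOf_mul_eq (n := i) hP hG0
    have h2 : (rev (degs P) P).degreeOf i ≤ P.degreeOf i := by
      rw [degreeOf_le_iff]
      intro s hs
      obtain ⟨s', hs', h3⟩ := support_rev le_degs hs
      have h4 : s i + s' i = P.degreeOf i := by
        have := DFunLike.congr_fun h3 i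
        simpa [degs] using this
      omega
    rw [hG, h1] at h2
    omega
  have hGC : G = C (coeff 0 G) := by
    ext d
    rw [coeff_C]
    by_cases hd : 0 = d
    · rw [if_pos hd, hd]
    · rw [if_neg hd]
      by_contra hne
      apply hd
      ext i
      have h5 := (degreeOf_le_iff.mp (hGdeg i).le) d (mem_support_iff.mpr hne)
      simp only [Finsupp.coe_zero, Pi.zero_apply]
      omega
  set c := coeff 0 G with hc
  have hrel : ∀ s s', s + s' = degs P → coeff s' P = c * coeff s P := by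
    intro s s' h
    have h1 := coeff_rev (P := P) le_degs h
    rw [hG, hGC, mul_comm, coeff_C_mul] at h1
    exact h1.symm
  obtain ⟨s, hs⟩ := support_nonempty.mpr hP
  have hs0 := mem_support_iff.mp hs
  have h1 := hrel s (degs P - s) (add_tsub_cancel_of_le (le_degs s hs))
  have h2 := hrel (degs P - s) s (tsub_add_cancel_of_le (le_degs s hs))
  rw [h1, ← mul_assoc] at h2
  have h3 : c * c = 1 := by
    have : c * c * coeff s P = 1 * coeff s P := by rw [one_mul]; exact h2.symm
    exact mul_right_cancel₀ hs0 this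
  refine ⟨degs P, c, ?_, le_degs, fun s s' h => ?_⟩
  · exact mul_self_eq_one_iff.mp h3
  · exact hrel s' s (by rw [add_comm]; exact h)

theorem finrank_nonrecip {T : ℝ} {P : MvPolynomial σ ℤ} (hP : Irreducible P) (hr : ¬ Recip P)
    (hT : mm P ≤ T) :
    Fintype.card σ ≤ Module.finrank ℝ ↥(HS P) + dimBound (Real.log 2 + 2 * T) := by
  have h1 : IsRelPrime P (rev (degs P) P) :=
    hP.isRelPrime_iff_not_dvd.mpr (not_dvd_rev hP.ne_zero hr)
  have h2 := finrank_coprime hP.ne_zero (rev_ne_zero hP.ne_zero le_degs) h1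
    (T := Real.log 2 + 2 * T) (by rw [LL_rev hP.ne_zero le_degs]; linarith)
  have h3 : HS P ⊓ HS (rev (degs P) P) = HS P := inf_eq_left.mpr (HS_le_HS_rev le_degs)
  rw [h3] at h2
  exact h2

theorem monomial_recip (s : σ →₀ ℕ) (c : ℤ) : Recip (monomial s c) := by
  classical
  refine ⟨s + s, 1, Or.inl rfl, fun u hu => ?_, fun u u' h => ?_⟩
  · have := support_monomial_subset hu
    rw [Finset.mem_singleton] at this
    rw [this]
    exact self_le_add_right s s
  · rw [one_mul, coeff_monomial, coeff_monomial]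
    by_cases h1 : s = u
    · rw [if_pos h1, if_pos]
      rw [← h1] at h
      exact (add_left_cancel h).symm
    · rw [if_neg h1, if_neg]
      intro h2
      apply h1
      rw [← h2] at h
      exact (add_right_cancel h).symm

/-- the absolute constant in the lower bound for nonreciprocal polynomials -/
noncomputable def c0 : ℝ := Real.exp (-(2 * (Real.log 2 + 2) + 1)) / 2

theorem c0_pos : 0 < c0 := by unfold c0; positivity

theorem mm_nonrecip_ge {P : MvPolynomial σ ℤ} (hP : Irreducible P) (hr : ¬ Recip P) :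
    c0 ≤ mm P := by
  classical
  by_contra hcon
  push Not at hcon
  have hP0 := hP.ne_zero
  have hQ0 : rev (degs P) P ≠ 0 := rev_ne_zero hP0 le_degs
  have hrel : IsRelPrime P (rev (degs P) P) :=
    hP.isRelPrime_iff_not_dvd.mpr (not_dvd_rev hP0 hr)
  have hLL := LL_rev hP0 (le_degs (P := P))
  obtain ⟨x, hx⟩ := exists_real_injective (P.support ∪ (rev (degs P) P).support)
  -- faces are monomials
  have hmono : ∀ (A : MvPolynomial σ ℤ), A ≠ 0 → A.support ⊆ P.support ∪ (rev (degs P) P).support →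
      ∃ s ∈ A.support, face x A = monomial s (coeff s A) := by
    intro A hA hsub
    obtain ⟨s, hs, h⟩ := exists_minw_eq x hA
    refine ⟨s, hs, ?_⟩
    ext d
    rw [coeff_face_ite, coeff_monomial]
    by_cases hd : d ∈ A.support
    · by_cases h1 : s = d
      · rw [if_pos h1, ← h1, if_pos h.symm]
      · rw [if_neg h1, if_neg]
        intro h2
        apply h1
        exact hx s (hsub hs) d (hsub hd) (by rw [← h, h2])
    · rw [notMem_support_iff.mp hd, ite_self, if_neg]
      rintro rfl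
      exact hd hs
  obtain ⟨s1, hs1, hf1⟩ := hmono P hP0 Finset.subset_union_left
  obtain ⟨s2, hs2, hf2⟩ := hmono _ hQ0 Finset.subset_union_right
  have hne : face x P * rev (degs P) P ≠ face x (rev (degs P) P) * P := by
    intro heq
    have h1 : P ∣ face x P := hrel.dvd_of_dvd_mul_right (Dvd.intro_left _ heq.symm)
    have h2 := face_eq_self_of_dvd hP0 h1
    apply hr
    rw [← h2, hf1]
    exact monomial_recip _ _
  have hnorm : ∀ (s : σ →₀ ℕ) (A : MvPolynomial σ ℤ) (hs : s ∈ A.support) (t : Tor σ),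
      ‖ev t (monomial s (coeff s A))‖ = |((coeff s A : ℤ) : ℝ)| := by
    intro s A hs t
    rw [ev_eq_sum, support_monomial, if_neg (mem_support_iff.mp hs), Finset.sum_singleton,
      coeff_monomial, if_pos rfl, norm_mul, norm_mon, mul_one]
    rw [← Complex.ofReal_intCast, Complex.norm_real, Real.norm_eq_abs]
  have hge : Real.log 2 ≤ LL (face x P) (face x (rev (degs P) P)) := by
    rw [LL, hf1, hf2]
    have h1 : ∀ t : Tor σ, Real.log (‖ev t (monomial s1 (coeff s1 P))‖ ^ 2 +
        ‖ev t (monomial s2 (coeff s2 (rev (degs P) P)))‖ ^ 2) =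
        Real.log (|((coeff s1 P : ℤ) : ℝ)| ^ 2 +
          |((coeff s2 (rev (degs P) P) : ℤ) : ℝ)| ^ 2) := by
      intro t
      rw [hnorm s1 P hs1, hnorm s2 _ hs2]
    simp_rw [h1]
    rw [integral_const]
    simp only [probReal_univ, one_smul]
    have h2 := one_le_abs_coeff hs1
    have h3 := one_le_abs_coeff hs2
    refine Real.log_le_log (by norm_num) ?_
    nlinarith
  have hc01 : c0 ≤ 1 := by
    unfold c0
    have : Real.exp (-(2 * (Real.log 2 + 2) + 1)) ≤ 1 := by
      rw [Real.exp_le_one_iff]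
      have := Real.log_nonneg (show (1:ℝ) ≤ 2 by norm_num)
      linarith
    linarith
  have hT : LL (face x P) (face x (rev (degs P) P)) ≤ Real.log 2 + 2 := by
    have := LL_face_le x hP0 hQ0
    linarith
  have hgain := LL_gain x hP0 hQ0 hne hT
  unfold c0 at hcon
  linarith

theorem HS_mul_ge (A B : MvPolynomial σ ℤ) : HS A ⊓ HS B ≤ HS (A * B) := by
  rintro x ⟨h1, h2⟩
  rw [SetLike.mem_coe, mem_HS_iff] at h1 h2
  rw [mem_HS_iff, face_mul, h1, h2]

theorem HS_C (c : ℤ) : HS (C c : MvPolynomial σ ℤ) = ⊤ := by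
  rw [eq_top_iff]
  intro x _
  rw [mem_HS]
  have h0 : ∀ s ∈ (C c : MvPolynomial σ ℤ).support, s = 0 := by
    intro s hs
    have := support_monomial_subset (R := ℤ) (a := c) (s := 0) hs
    simpa using this
  intro s hs s' hs'
  rw [h0 s hs, h0 s' hs']

/-- product of polynomials whose factors are good -/
theorem nonrecip_product {T : ℝ} (F : MvPolynomial σ ℤ) : F ≠ 0 → mm F ≤ T →
    (∀ P, Irreducible P → P ∣ F → P.totalDegree ≠ 0 → mm P ≠ 0 → ¬ Recip P) →
    ∃ (G : MvPolynomial σ ℤ) (r : ℕ), G ≠ 0 ∧ mm G = mm F ∧ r * c0 ≤ mm F ∧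
      Fintype.card σ ≤ Module.finrank ℝ ↥(HS G) + r * dimBound (Real.log 2 + 2 * T) := by
  classical
  refine WfDvdMonoid.induction_on_irreducible (motive := fun F : MvPolynomial σ ℤ =>
    F ≠ 0 → mm F ≤ T →
    (∀ P, Irreducible P → P ∣ F → P.totalDegree ≠ 0 → mm P ≠ 0 → ¬ Recip P) →
    ∃ (G : MvPolynomial σ ℤ) (r : ℕ), G ≠ 0 ∧ mm G = mm F ∧ r * c0 ≤ mm F ∧
      Fintype.card σ ≤ Module.finrank ℝ ↥(HS G) + r * dimBound (Real.log 2 + 2 * T)) F ?_ ?_ ?_
  · intro h; exact absurd rfl h
  · intro u hu _ _ _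
    refine ⟨1, 0, one_ne_zero, by rw [mm_unit hu, mm_one], by rw [mm_unit hu]; simp, ?_⟩
    have h1 : (1 : MvPolynomial σ ℤ) = C 1 := C_1.symm
    rw [h1, HS_C, finrank_top, Module.finrank_pi]
    omega
  · intro a i ha hi ih _ hT hH
    have hi0 : i ≠ 0 := hi.ne_zero
    have hmul := mm_mul hi0 ha
    have hni := mm_nonneg i
    have hna := mm_nonneg a
    obtain ⟨G, r, hG0, hGm, hr, hdim⟩ := ih ha (by linarith) (fun P hP hPa h1 h2 =>
      hH P hP (hPa.mul_left i) h1 h2)
    by_cases h0 : mm i = 0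
    · refine ⟨G, r, hG0, by rw [hGm, hmul, h0, zero_add], by rw [hmul, h0, zero_add]; exact hr, hdim⟩
    by_cases hdeg : i.totalDegree = 0
    · rw [totalDegree_eq_zero_iff_eq_C] at hdeg
      refine ⟨i * G, r, mul_ne_zero hi0 hG0, by rw [mm_mul hi0 hG0, hGm, hmul],
        by rw [hmul]; linarith, ?_⟩
      have h1 : HS G ≤ HS (i * G) := by
        refine le_trans ?_ (HS_mul_ge i G)
        rw [hdeg, HS_C, top_inf_eq]
      have h2 := Submodule.finrank_mono h1
      omega
    · have hnr : ¬ Recip i := hH i hi (Dvd.intro _ rfl) hdeg h0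
      have h1 := mm_nonrecip_ge hi hnr
      have h2 := finrank_nonrecip hi hnr (T := T) (by linarith)
      refine ⟨i * G, r + 1, mul_ne_zero hi0 hG0, by rw [mm_mul hi0 hG0, hGm, hmul], ?_, ?_⟩
      · push_cast
        rw [hmul]
        linarith
      · have h3 := Submodule.finrank_sup_add_finrank_inf_eq (HS i) (HS G)
        have h4 : Module.finrank ℝ ↥(HS i ⊔ HS G) ≤ Module.finrank ℝ (σ → ℝ) :=
          Submodule.finrank_le _
        have h5 : Module.finrank ℝ (σ → ℝ) = Fintype.card σ := Module.finrank_pi ℝ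
        have h6 := Submodule.finrank_mono (HS_mul_ge i G)
        have h7 : (r + 1) * dimBound (Real.log 2 + 2 * T) =
          r * dimBound (Real.log 2 + 2 * T) + dimBound (Real.log 2 + 2 * T) := by ring
        omega

/-- bounded number of variables for polynomials without reciprocal factors -/
theorem nonrecip_variables (T : ℝ) : ∃ K : ℕ, ∀ (k : ℕ) (F : MvPolynomial (Fin k) ℤ), F ≠ 0 →
    mm F ≤ T →
    (∀ P, Irreducible P → P ∣ F → P.totalDegree ≠ 0 → mm P ≠ 0 → ¬ Recip P) →
    ∃ G : MvPolynomial (Fin K) ℤ, G ≠ 0 ∧ mm G = mm F := by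
  refine ⟨⌈T / c0⌉₊ * dimBound (Real.log 2 + 2 * T), fun k F hF0 hT hH => ?_⟩
  obtain ⟨G, r, hG0, hGm, hr, hdim⟩ := nonrecip_product F hF0 hT hH
  have h1 : r ≤ ⌈T / c0⌉₊ := by
    have h2 : (r : ℝ) ≤ T / c0 := by
      rw [le_div_iff₀ c0_pos]; linarith
    exact_mod_cast h2.trans (Nat.le_ceil _)
  have h2 : r * dimBound (Real.log 2 + 2 * T) ≤ ⌈T / c0⌉₊ * dimBound (Real.log 2 + 2 * T) :=
    Nat.mul_le_mul_right _ h1
  obtain ⟨G', h3, -, h4⟩ := reduce_vars (⌈T / c0⌉₊ * dimBound (Real.log 2 + 2 * T)) G.totalDegree k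
    (Fin k) G (Fintype.card_fin k) hG0 (fun i => degreeOf_le_totalDegree G i) (by omega)
  exact ⟨G', h3, h4.trans hGm⟩

end Pool.Agent.H27Mahler
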