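import Mathlib
import Pool.Agent.H27Mahler.Deriv
import Pool.Agent.H27Mahler.Nonrecip

open Finsupp (weight)
open MeasureTheory

set_option linter.unusedSectionVars false

namespace Pool.Agent.H27Mahler

section onevar

open Polynomial

theorem mahler_X_pow_mul (r : ℕ) (p : ℂ[X]) : (X ^ r * p).mahlerMeasure = p.mahlerMeasure := by
  rw [mahlerMeasure_mul]
  have h1 : (X ^ r : ℂ[X]).mahlerMeasure = 1 := by
    have h3 : (X ^ r : ℂ[X]).logMahlerMeasure = 0 := by
      have := logMahlerMeasure_monomial r (1 : ℂ)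
      rw [← C_mul_X_pow_eq_monomial, C_1, one_mul] at this
      rw [this]; simp
    have h4 := mahlerMeasure_pos_of_ne_zero (p := (X ^ r : ℂ[X])) (pow_ne_zero _ X_ne_zero)
    rw [logMahlerMeasure_eq_log_MahlerMeasure] at h3
    rw [← Real.exp_log h4, h3, Real.exp_zero]
  rw [h1, one_mul]

/-- coefficients of a polynomial with few terms are bounded by the Mahler measure -/
theorem coeff_le_two_pow (m : ℕ) : ∀ (p : ℂ[X]), p.support.card ≤ m + 1 → ∀ j,
    ‖p.coeff j‖ ≤ 2 ^ m * p.mahlerMeasure := by
  induction m with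
  | zero =>
    intro p hp j
    by_cases hj : p.coeff j = 0
    · rw [hj, norm_zero]
      exact mul_nonneg (by positivity) (mahlerMeasure_nonneg _)
    · have h1 : p.support ⊆ {j} := by
        intro i hi
        rw [Finset.mem_singleton]
        exact Finset.card_le_one.mp hp i hi j (mem_support_iff.mpr hj)
      have h2 : p = C (p.coeff j) * X ^ j := by
        ext i
        rw [coeff_C_mul_X_pow]
        by_cases hi : i = j
        · rw [if_pos hi, hi]
        · rw [if_neg hi]
          by_contra hne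
          exact hi (Finset.mem_singleton.mp (h1 (mem_support_iff.mpr hne)))
      have h3 : p.mahlerMeasure = ‖p.coeff j‖ := by
        conv_lhs => rw [h2, mul_comm, mahler_X_pow_mul, mahlerMeasure_const]
      rw [h3]; simp
  | succ m ih =>
    -- the case of a nonzero constant term
    have key : ∀ p : ℂ[X], p.support.card ≤ m + 2 → p.coeff 0 ≠ 0 → ∀ j,
        ‖p.coeff j‖ ≤ 2 ^ (m + 1) * p.mahlerMeasure := by
      intro p hp h0 j
      have hp0 : p ≠ 0 := by rintro rfl; simp at h0
      have hM := mahlerMeasure_nonneg p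
      by_cases hj : p.coeff j = 0
      · rw [hj, norm_zero]; positivity
      obtain ⟨hD1, hD2⟩ := mahler_deriv_le p
      set n := p.natDegree with hn
      have hjn : j ≤ n := le_natDegree_of_ne_zero hj
      by_cases hn0 : n = 0
      · have hj0 : j = 0 := by omega
        have h1 := p.norm_coeff_le_choose_mul_mahlerMeasure j
        rw [← hn, hn0, hj0] at h1
        simp only [Nat.choose_self, Nat.cast_one, one_mul] at h1
        rw [hj0]
        have h2 : (1 : ℝ) ≤ 2 ^ (m + 1) := one_le_pow₀ (by norm_num)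
        nlinarith
      have hnpos : (0 : ℝ) < n := by exact_mod_cast Nat.pos_of_ne_zero hn0
      have hc1 : ∀ i : ℕ, (X * derivative p).coeff i = (i : ℂ) * p.coeff i := by
        intro i
        cases i with
        | zero => simp
        | succ i => rw [coeff_X_mul, coeff_derivative]; push_cast; ring
      have hc2 : ∀ i : ℕ, (C (n : ℂ) * p - X * derivative p).coeff i =
          ((n : ℂ) - (i : ℂ)) * p.coeff i := by
        intro i
        rw [coeff_sub, coeff_C_mul, hc1]; ring
      have hs1 : (X * derivative p).support.card ≤ m + 1 := by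
        have h1 : (X * derivative p).support ⊆ p.support.erase 0 := by
          intro i hi
          rw [mem_support_iff, hc1] at hi
          rw [Finset.mem_erase, mem_support_iff]
          refine ⟨?_, right_ne_zero_of_mul hi⟩
          rintro rfl
          simp at hi
        have h2 := Finset.card_le_card h1
        rw [Finset.card_erase_of_mem (mem_support_iff.mpr h0)] at h2
        omega
      have hs2 : (C (n : ℂ) * p - X * derivative p).support.card ≤ m + 1 := by
        have h1 : (C (n : ℂ) * p - X * derivative p).support ⊆ p.support.erase n := by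
          intro i hi
          rw [mem_support_iff, hc2] at hi
          rw [Finset.mem_erase, mem_support_iff]
          refine ⟨?_, right_ne_zero_of_mul hi⟩
          rintro rfl
          simp at hi
        have h2 := Finset.card_le_card h1
        rw [Finset.card_erase_of_mem (natDegree_mem_support_of_nonzero hp0)] at h2
        omega
      have h2m : (0 : ℝ) < 2 ^ m := by positivity
      rcases le_or_gt n (2 * j) with h | h
      · have h1 := ih _ hs1 j
        rw [hc1, norm_mul, Complex.norm_natCast] at h1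
        have hjpos : (0 : ℝ) < j := by
          have : 0 < j := by omega
          exact_mod_cast this
        have hj2 : (n : ℝ) ≤ 2 * j := by exact_mod_cast h
        have h3 : (j : ℝ) * ‖p.coeff j‖ ≤ 2 ^ m * (n * p.mahlerMeasure) :=
          h1.trans (mul_le_mul_of_nonneg_left hD1 h2m.le)
        have h4 : 2 ^ m * (n * p.mahlerMeasure) ≤ 2 ^ m * ((2 * j) * p.mahlerMeasure) := by gcongr
        have h5 : (j : ℝ) * ‖p.coeff j‖ ≤ j * (2 ^ (m + 1) * p.mahlerMeasure) := by
          calc _ ≤ _ := h3.trans h4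
            _ = _ := by ring
        exact le_of_mul_le_mul_left h5 hjpos
      · have h1 := ih _ hs2 j
        have hle : (j : ℝ) ≤ n := by exact_mod_cast hjn
        have hnorm : ‖((n : ℂ) - (j : ℂ))‖ = (n : ℝ) - j := by
          have : ((n : ℂ) - (j : ℂ)) = (((n : ℝ) - j : ℝ) : ℂ) := by push_cast; ring
          rw [this, Complex.norm_real, Real.norm_of_nonneg (by linarith)]
        rw [hc2, norm_mul, hnorm] at h1
        have hj2 : 2 * (j : ℝ) < n := by exact_mod_cast h
        have hnj : (0 : ℝ) < n - j := by linarith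
        have h3 : ((n : ℝ) - j) * ‖p.coeff j‖ ≤ 2 ^ m * (n * p.mahlerMeasure) :=
          h1.trans (mul_le_mul_of_nonneg_left hD2 h2m.le)
        have h4 : 2 ^ m * (n * p.mahlerMeasure) ≤ 2 ^ m * ((2 * (n - j)) * p.mahlerMeasure) := by
          gcongr
          linarith
        have h5 : ((n : ℝ) - j) * ‖p.coeff j‖ ≤ (n - j) * (2 ^ (m + 1) * p.mahlerMeasure) := by
          calc _ ≤ _ := h3.trans h4
            _ = _ := by ring
        exact le_of_mul_le_mul_left h5 hnj
    intro p hp j
    by_cases hp0 : p = 0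
    · rw [hp0]; simp
    obtain ⟨q, hq, hq0⟩ := exists_eq_pow_rootMultiplicity_mul_and_not_dvd p hp0 0
    rw [C_0, sub_zero] at hq hq0
    set r := p.rootMultiplicity 0
    have hq0' : q.coeff 0 ≠ 0 := by
      intro h; exact hq0 (X_dvd_iff.mpr h)
    have hcard : q.support.card ≤ m + 2 := by
      refine le_trans ?_ hp
      refine Finset.card_le_card_of_injOn (fun i => i + r) ?_ (fun a _ b _ hab => by simpa using hab)
      intro i hi
      have h1 : (X ^ r * q).coeff (i + r) = q.coeff i := by rw [coeff_X_pow_mul]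
      rw [Finset.mem_coe, mem_support_iff, hq, h1]
      exact mem_support_iff.mp hi
    have h1 := key q hcard hq0'
    have h2 : p.mahlerMeasure = q.mahlerMeasure := by
      conv_lhs => rw [hq, mahler_X_pow_mul]
    rw [h2]
    rcases le_or_gt r j with hrj | hrj
    · have h3 : p.coeff j = q.coeff (j - r) := by
        conv_lhs => rw [hq, coeff_X_pow_mul', if_pos hrj]
      rw [h3]
      exact h1 _
    · have h3 : p.coeff j = 0 := by
        conv_lhs => rw [hq, coeff_X_pow_mul', if_neg (by omega)]
      rw [h3, norm_zero]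
      exact mul_nonneg (by positivity) (mahlerMeasure_nonneg _)

/-- bound of a polynomial with few terms by its Mahler measure -/
theorem norm_eval_le_sparse (m : ℕ) (p : ℂ[X]) (hp : p.support.card ≤ m) (n : ℕ)
    (hn : p.natDegree ≤ n) (z : ℂ) :
    ‖p.eval z‖ ≤ m * 2 ^ m * p.mahlerMeasure * (max 1 ‖z‖) ^ n := by
  have hc := coeff_le_two_pow m p (by omega)
  have hM := mahlerMeasure_nonneg p
  rw [eval_eq_sum, sum_def]
  refine (norm_sum_le _ _).trans ?_
  have h1 : ∀ i ∈ p.support, ‖p.coeff i * z ^ i‖ ≤ 2 ^ m * p.mahlerMeasure * (max 1 ‖z‖) ^ n := by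
    intro i hi
    rw [norm_mul, norm_pow]
    have h2 : ‖z‖ ^ i ≤ (max 1 ‖z‖) ^ n := by
      calc ‖z‖ ^ i ≤ (max 1 ‖z‖) ^ i := by gcongr; exact le_max_right _ _
        _ ≤ (max 1 ‖z‖) ^ n := by
          refine pow_le_pow_right₀ (le_max_left _ _) ?_
          exact (le_natDegree_of_mem_supp i hi).trans hn
    have := hc i
    gcongr
  refine (Finset.sum_le_sum h1).trans ?_
  rw [Finset.sum_const, nsmul_eq_mul]
  have h3 : (p.support.card : ℝ) ≤ m := by exact_mod_cast hp
  have h4 : 0 ≤ 2 ^ m * p.mahlerMeasure * (max 1 ‖z‖) ^ n := by positivity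
  calc (p.support.card : ℝ) * (2 ^ m * p.mahlerMeasure * (max 1 ‖z‖) ^ n) ≤
      m * (2 ^ m * p.mahlerMeasure * (max 1 ‖z‖) ^ n) := by gcongr
    _ = _ := by ring

end onevar

open MvPolynomial

variable {σ : Type*} [Fintype σ]

/-- the set of weights of the monomials of `F` -/
noncomputable def wts (lam : σ → ℤ) (F : MvPolynomial σ ℤ) : Finset ℤ := F.support.image (weight lam)

theorem card_support_slice_le (lam : σ → ℤ) (a : ℤ) {F : MvPolynomial σ ℤ}
    (ha : ∀ s ∈ F.support, a ≤ weight lam s) (t : Tor σ) :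
    (slice lam a F t).support.card ≤ (wts lam F).card := by
  classical
  refine Finset.card_le_card_of_injOn (fun n => a + (n : ℤ)) ?_ (fun x _ y _ h => by
    simpa using h)
  intro n hn
  rw [Finset.mem_coe, Polynomial.mem_support_iff, coeff_slice lam a F ha] at hn
  have h1 : weightedHomogeneousComponent lam (a + n) F ≠ 0 := by
    intro h; rw [h, map_zero] at hn; exact hn rfl
  obtain ⟨s, hs, h⟩ := whc_ne_zero_iff.mp h1
  rw [wts, Finset.mem_coe, Finset.mem_image]
  exact ⟨s, hs, h⟩

theorem slice_ne_zero_ae (lam : σ → ℤ) {F : MvPolynomial σ ℤ} (hF : F ≠ 0) :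
    ∀ᵐ t : Tor σ, slice lam (minw lam F) F t ≠ 0 := by
  filter_upwards [ae_ev_ne_zero (face_ne_zero lam hF)] with t ht
  intro h
  have := ev_face_eq_coeff lam F t
  rw [h, Polynomial.coeff_zero] at this
  exact ht this.symm

theorem LL_face_sparse (lam : σ → ℤ) (m : ℕ) {F : MvPolynomial σ ℤ} (hF : F ≠ 0)
    (hm : (wts lam F).card ≤ m) :
    LL F (face lam F) ≤ Real.log 2 + 2 * (Real.log (m * 2 ^ m) + mm F) := by
  classical
  have hm0 : 0 < m := by
    obtain ⟨s, hs⟩ := support_nonempty.mpr hF
    have h1 : 0 < (wts lam F).card := Finset.card_pos.mpr ⟨weight lam s, by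
      rw [wts, Finset.mem_image]; exact ⟨s, hs, rfl⟩⟩
    omega
  have hm1 : (1 : ℝ) ≤ m := by exact_mod_cast hm0
  set a := minw lam F with ha'
  have ha : ∀ s ∈ F.support, a ≤ weight lam s := fun s hs => minw_le hs
  have hI := integrable_slice hF lam a ha
  have hI2 : Integrable fun t : Tor σ => (Real.log (m * 2 ^ m) + ∫ τ : UnitAddCircle,
      Real.log ‖(slice lam a F t).eval (AddCircle.toCircle τ : ℂ)‖) :=
    (integrable_const _).add hI
  have hI3 : Integrable fun t : Tor σ => 2 * (Real.log (m * 2 ^ m) + ∫ τ : UnitAddCircle,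
      Real.log ‖(slice lam a F t).eval (AddCircle.toCircle τ : ℂ)‖) := hI2.const_mul 2
  have hI4 : Integrable fun t : Tor σ => Real.log 2 + 2 * (Real.log (m * 2 ^ m) +
      ∫ τ : UnitAddCircle,
      Real.log ‖(slice lam a F t).eval (AddCircle.toCircle τ : ℂ)‖) :=
    (integrable_const _).add hI3
  have h1 : ∫ t : Tor σ, (Real.log 2 + 2 * (Real.log (m * 2 ^ m) + ∫ τ : UnitAddCircle,
      Real.log ‖(slice lam a F t).eval (AddCircle.toCircle τ : ℂ)‖)) =
      Real.log 2 + 2 * (Real.log (m * 2 ^ m) + mm F) := by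
    rw [integral_add (integrable_const _) hI3,
      integral_const_mul, integral_add (integrable_const _) hI, ← mm_eq_slice hF lam a ha]
    simp
  have h0 : LL F (face lam F) = ∫ t : Tor σ, ∫ τ : UnitAddCircle,
      Real.log (‖ev (shear lam (t, τ)) F‖ ^ 2 + ‖ev (shear lam (t, τ)) (face lam F)‖ ^ 2) :=
    integral_eq_shear lam _ (integrable_LL hF _)
  rw [← h1, h0]
  refine integral_mono_ae (integrable_shear_left lam _ (integrable_LL hF _)) hI4 ?_
  filter_upwards [ae_ev_ne_zero (face_ne_zero lam hF)] with t hface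
  set p := slice lam a F t with hp
  have hp0 : p.coeff 0 = ev t (face lam F) := ev_face_eq_coeff lam F t
  have hne : p ≠ 0 := by
    intro h
    rw [h, Polynomial.coeff_zero] at hp0
    exact hface hp0.symm
  have hcard : p.support.card ≤ m := (card_support_slice_le lam a ha t).trans hm
  have hM := Polynomial.mahlerMeasure_pos_of_ne_zero hne
  have hlogM : ∫ τ : UnitAddCircle, Real.log ‖p.eval (AddCircle.toCircle τ : ℂ)‖ =
      Real.log p.mahlerMeasure := by
    rw [integral_log_norm_eval, Polynomial.logMahlerMeasure_eq_log_MahlerMeasure]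
  rw [hlogM]
  set K := (m : ℝ) * 2 ^ m * p.mahlerMeasure with hK
  have hm2 : (0 : ℝ) < (m : ℝ) * 2 ^ m := by positivity
  have hKpos : 0 < K := mul_pos hm2 hM
  have hb1 : ∀ τ : UnitAddCircle, ‖p.eval (AddCircle.toCircle τ : ℂ)‖ ≤ K := by
    intro τ
    have := norm_eval_le_sparse m p hcard p.natDegree le_rfl (AddCircle.toCircle τ : ℂ)
    rw [Circle.norm_coe, max_self, one_pow, mul_one] at this
    exact this
  have hb2 : ‖p.coeff 0‖ ≤ K := by
    have h2 := coeff_le_two_pow m p (by omega) 0
    refine h2.trans ?_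
    rw [hK]
    have : (2 : ℝ) ^ m * p.mahlerMeasure ≤ m * (2 ^ m * p.mahlerMeasure) :=
      le_mul_of_one_le_left (by positivity) hm1
    linarith
  have hface' : 0 < ‖p.coeff 0‖ := by rw [hp0]; exact norm_pos_iff.mpr hface
  have e1 : ∀ τ : UnitAddCircle, ‖ev (shear lam (t, τ)) F‖ ^ 2 +
      ‖ev (shear lam (t, τ)) (face lam F)‖ ^ 2 =
      ‖p.eval (AddCircle.toCircle τ : ℂ)‖ ^ 2 +
      ‖(Polynomial.C (p.coeff 0)).eval (AddCircle.toCircle τ : ℂ)‖ ^ 2 := by
    intro τ
    rw [norm_ev_shear lam a F ha t τ, norm_ev_shear_homog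
      (face_eq_self_iff.mp (face_idem lam F)) t τ, Polynomial.eval_C, hp0]
  show ∫ τ : UnitAddCircle, Real.log (‖ev (shear lam (t, τ)) F‖ ^ 2 +
      ‖ev (shear lam (t, τ)) (face lam F)‖ ^ 2) ≤
      Real.log 2 + 2 * (Real.log (m * 2 ^ m) + Real.log p.mahlerMeasure)
  have e9 : Real.log 2 + 2 * (Real.log (m * 2 ^ m) + Real.log p.mahlerMeasure) =
      ∫ _ : UnitAddCircle, (Real.log 2 + 2 * Real.log K) := by
    rw [hK, Real.log_mul hm2.ne' hM.ne']
    simp
  rw [e9]
  simp_rw [e1]
  refine integral_mono (integrable_log_sq_eval p _ hne) (integrable_const _) fun τ => ?_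
  have h8 : Real.log (2 * K ^ 2) = Real.log 2 + 2 * Real.log K := by
    rw [Real.log_mul (by norm_num) (by positivity), Real.log_pow]; norm_num
  show _ ≤ Real.log 2 + 2 * Real.log K
  rw [← h8, Polynomial.eval_C]
  refine Real.log_le_log (by positivity) ?_
  have h6 : ‖p.eval (AddCircle.toCircle τ : ℂ)‖ ^ 2 ≤ K ^ 2 := by
    have := hb1 τ
    gcongr
  have h7 : ‖p.coeff 0‖ ^ 2 ≤ K ^ 2 := by gcongr
  linarith

theorem HS_le_HS_face {Γ : Type*} [AddCommGroup Γ] [LinearOrder Γ] [IsOrderedAddMonoid Γ]
    (lam : σ → Γ) (F : MvPolynomial σ ℤ) : HS F ≤ HS (face lam F) := by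
  intro x hx s hs s' hs'
  exact hx s (mem_support_face.mp hs).1 s' (mem_support_face.mp hs').1

/-- integer version of `face_eq_self_of_dvd` -/
theorem face_eq_self_of_dvd_int {P : MvPolynomial σ ℤ} {x : σ → ℤ} (hP : P ≠ 0)
    (hdvd : P ∣ face x P) : face x P = P := by
  obtain ⟨G, hG⟩ := hdvd
  have hf := face_ne_zero x hP
  have hG0 : G ≠ 0 := by
    rintro rfl
    rw [mul_zero] at hG
    exact hf hG
  have h1 : (face x P).totalDegree ≤ P.totalDegree := by
    refine Finset.sup_mono fun s hs => ?_
    exact (mem_support_face.mp hs).1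
  have h2 := totalDegree_mul_of_isDomain hP hG0
  rw [← hG] at h2
  have h3 : G.totalDegree = 0 := by omega
  rw [totalDegree_eq_zero_iff_eq_C] at h3
  obtain ⟨s, hs⟩ := support_nonempty.mpr hf
  have h4 := coeff_face x P hs
  have h5 : coeff s P ≠ 0 := mem_support_iff.mp (mem_support_face.mp hs).1
  rw [hG, h3, mul_comm, coeff_C_mul] at h4
  have h6 : coeff 0 G = 1 := by
    have : coeff 0 G * coeff s P = 1 * coeff s P := by rw [h4, one_mul]
    exact mul_right_cancel₀ h5 this
  rw [hG, h3, h6, C_1, mul_one]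

theorem finrank_sparse {T : ℝ} (lam : σ → ℤ) (m : ℕ) {F : MvPolynomial σ ℤ} (hF : Irreducible F)
    (hne : face lam F ≠ F) (hm : (wts lam F).card ≤ m) (hT : mm F ≤ T) :
    Fintype.card σ ≤ Module.finrank ℝ ↥(HS F) +
      dimBound (Real.log 2 + 2 * (Real.log (m * 2 ^ m) + T)) := by
  have h1 : IsRelPrime F (face lam F) :=
    hF.isRelPrime_iff_not_dvd.mpr fun h => hne (face_eq_self_of_dvd_int hF.ne_zero h)
  have h2 := finrank_coprime hF.ne_zero (face_ne_zero lam hF.ne_zero) h1
    (T := Real.log 2 + 2 * (Real.log (m * 2 ^ m) + T))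
    ((LL_face_sparse lam m hF.ne_zero hm).trans (by linarith))
  rw [inf_eq_left.mpr (HS_le_HS_face lam F)] at h2
  exact h2

end Pool.Agent.H27Mahler
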