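import Mathlib
import Pool.Agent.H27Mahler.Sparse

open Finsupp (weight)
open MeasureTheory

set_option linter.unusedSectionVars false

namespace Pool.Agent.H27Mahler

section expand

open MvPolynomial

variable {σ : Type*} [Fintype σ]

theorem ev_expand (q : ℕ) (t : Tor σ) (F : MvPolynomial σ ℤ) :
    ev t (expand q F) = ev (mulHom (q : ℤ) t) F := by
  have h : (ev t).comp (expand q : MvPolynomial σ ℤ →ₐ[ℤ] MvPolynomial σ ℤ).toRingHom =
      ev (mulHom (q : ℤ) t) := by
    apply MvPolynomial.ringHom_ext
    · intro r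
      simp [ev]
    · intro i
      simp [ev, mulHom, AddCircle.toCircle_nsmul]
  exact RingHom.congr_fun h F

theorem integral_comp_surj' {τ : Type*} [Fintype τ] (f : Tor σ →+ Tor τ)
    (hc : Continuous f) (hs : Function.Surjective f) (g : Tor τ → ℝ)
    (hg : AEStronglyMeasurable g volume) :
    ∫ t, g (f t) = ∫ t, g t := by
  have hmp := measurePreserving_of_surjective f hc hs
  have h2 := integral_map (μ := volume) hmp.measurable.aemeasurable (f := g)
    (by rw [hmp.map_eq]; exact hg)
  rw [hmp.map_eq] at h2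
  exact h2.symm

theorem continuous_mulHom (q : ℤ) : Continuous (mulHom q : Tor σ →+ Tor σ) := by
  show Continuous fun r : Tor σ => q • r
  fun_prop

theorem mm_expand (q : ℕ) (hq : 0 < q) (F : MvPolynomial σ ℤ) : mm (expand q F) = mm F := by
  classical
  rw [mm, mm]
  simp_rw [ev_expand]
  exact integral_comp_surj (mulHom (q : ℤ)) (continuous_mulHom _)
    (mulHom_surjective _ (by exact_mod_cast hq.ne')) (fun t => Real.log ‖ev t F‖)
    (measurable_log_ev F)

theorem exists_frob (p : ℕ) (hp : p.Prime) (F : MvPolynomial σ ℤ) :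
    ∃ H : MvPolynomial σ ℤ, F ^ p - expand p F = C (p : ℤ) * H := by
  have : Fact p.Prime := ⟨hp⟩
  have h1 : C (p : ℤ) ∣ F ^ p - expand p F := by
    rw [C_dvd_iff_zmod, map_sub, map_pow, map_expand, expand_zmod, sub_self]
  exact h1

end expand

section slices

open Polynomial

variable {σ : Type*} [Fintype σ]

theorem infinite_circle : (Set.range fun τ : UnitAddCircle => (AddCircle.toCircle τ : ℂ)).Infinite := by
  have hinj : Function.Injective fun τ : UnitAddCircle => (AddCircle.toCircle τ : ℂ) :=
    fun a b hab => AddCircle.injective_toCircle one_ne_zero (Circle.coe_injective hab)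
  have hinf : Infinite UnitAddCircle := by
    by_contra hcon
    rw [not_infinite_iff_finite] at hcon
    have : NullSingletonClass (volume : Measure UnitAddCircle) := ⟨volume_singleton_circle⟩
    have h1 : volume (Set.univ : Set UnitAddCircle) = 0 := Set.finite_univ.measure_zero _
    rw [UnitAddCircle.measure_univ] at h1
    exact one_ne_zero h1
  exact Set.infinite_range_of_injective hinj

theorem poly_eq_of_circle {P Q : ℂ[X]} (h : ∀ τ : UnitAddCircle,
    P.eval (AddCircle.toCircle τ : ℂ) = Q.eval (AddCircle.toCircle τ : ℂ)) : P = Q := by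
  refine Polynomial.eq_of_infinite_eval_eq P Q (infinite_circle.mono ?_)
  rintro _ ⟨τ, rfl⟩
  exact h τ

theorem slice_mul (lam : σ → ℤ) (a b : ℤ) {A B : MvPolynomial σ ℤ}
    (ha : ∀ s ∈ A.support, a ≤ weight lam s) (hb : ∀ s ∈ B.support, b ≤ weight lam s)
    (t : Tor σ) : slice lam (a + b) (A * B) t = slice lam a A t * slice lam b B t := by
  apply poly_eq_of_circle
  intro τ
  have h0 : (AddCircle.toCircle τ : ℂ) ≠ 0 := Circle.coe_ne_zero _
  have h1 := ev_shear lam (a + b) (A * B) (support_mul_weight_ge ha hb) t τ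
  have h2 := ev_shear lam a A ha t τ
  have h3 := ev_shear lam b B hb t τ
  rw [map_mul, h2, h3, zpow_add₀ h0] at h1
  have h4 : (AddCircle.toCircle τ : ℂ) ^ a * (AddCircle.toCircle τ : ℂ) ^ b ≠ 0 :=
    mul_ne_zero (zpow_ne_zero _ h0) (zpow_ne_zero _ h0)
  rw [eval_mul]
  apply mul_left_cancel₀ h4
  rw [← h1]; ring

theorem slice_expand (lam : σ → ℤ) (a : ℤ) (q : ℕ) (hq : 0 < q) {F : MvPolynomial σ ℤ}
    (ha : ∀ s ∈ F.support, a ≤ weight lam s) (t : Tor σ) :
    slice lam (q * a) (MvPolynomial.expand q F) t =
      Polynomial.expand ℂ q (slice lam a F (mulHom (q : ℤ) t)) := by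
  classical
  have hsupp : ∀ s ∈ (MvPolynomial.expand q F).support, (q : ℤ) * a ≤ weight lam s := by
    intro s hs
    have h1 := MvPolynomial.support_expand_subset F hs
    rw [Finset.mem_image] at h1
    obtain ⟨u, hu, rfl⟩ := h1
    rw [map_nsmul, nsmul_eq_mul]
    exact mul_le_mul_of_nonneg_left (ha u hu) (by positivity)
  apply poly_eq_of_circle
  intro τ
  have h0 : (AddCircle.toCircle τ : ℂ) ≠ 0 := Circle.coe_ne_zero _
  have h1 := ev_shear lam (q * a) _ hsupp t τ
  rw [ev_expand] at h1
  have h2 : mulHom (q : ℤ) (shear lam (t, τ)) = shear lam (mulHom (q : ℤ) t, (q : ℤ) • τ) := by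
    funext i
    show (q : ℤ) • (t i + lam i • τ) = (q : ℤ) • t i + lam i • ((q : ℤ) • τ)
    rw [smul_add, smul_comm]
  rw [h2, ev_shear lam a F ha] at h1
  have h3 : (AddCircle.toCircle ((q : ℤ) • τ) : ℂ) = (AddCircle.toCircle τ : ℂ) ^ q := by
    rw [AddCircle.toCircle_zsmul, Circle.coe_zpow, zpow_natCast]
  rw [h3, ← zpow_natCast, ← zpow_mul] at h1
  rw [expand_eval]
  have h4 : (AddCircle.toCircle τ : ℂ) ^ ((q : ℤ) * a) ≠ 0 := zpow_ne_zero _ h0
  apply mul_left_cancel₀ h4
  rw [← h1, zpow_natCast]

end slices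

section torsion

open MvPolynomial

variable {σ : Type*} [Fintype σ]

theorem dvd_expand_pow {p : ℕ} {F : MvPolynomial σ ℤ} (h : F ∣ expand p F) (n : ℕ) :
    F ∣ expand (p ^ n) F := by
  induction n with
  | zero => simp
  | succ n ih =>
    have h1 : expand (p ^ n) F ∣ expand (p ^ n) (expand p F) := map_dvd _ h
    rw [← expand_mul, ← pow_succ] at h1
    exact ih.trans h1

/-- if `F` divides `F(z^p)` then its Mahler measure is the absolute value of an integer -/
theorem mm_of_dvd_expand {p : ℕ} (hp : 1 < p) {F : MvPolynomial σ ℤ} (hF : F ≠ 0)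
    (h : F ∣ expand p F) : mm F = 0 ∨ Real.log 2 ≤ mm F := by
  classical
  obtain ⟨lam, hlam⟩ := exists_int_injective F.support
  set a := minw lam F with ha'
  have ha : ∀ s ∈ F.support, a ≤ weight lam s := fun s hs => minw_le hs
  obtain ⟨s1, hs1, hmax⟩ := F.support.exists_max_image (weight lam) (support_nonempty.mpr hF)
  set N : ℕ := (weight lam s1 - a).toNat with hN
  have hNa : a + (N : ℤ) = weight lam s1 := by
    have := ha s1 hs1
    omega
  set c : ℝ := |((F.coeff s1 : ℤ) : ℝ)| with hc
  have hc1 : 1 ≤ c := one_le_abs_coeff hs1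
  have hcpos : 0 < c := by linarith
  -- degree and leading coefficient of slices
  have hcoeffN : ∀ t : Tor σ, ‖(slice lam a F t).coeff N‖ = c := by
    intro t
    rw [coeff_slice lam a F ha, hNa, norm_ev_whc_of_injective hlam hs1]
  have hne : ∀ t : Tor σ, slice lam a F t ≠ 0 := by
    intro t h0
    have := hcoeffN t
    rw [h0, Polynomial.coeff_zero, norm_zero] at this
    linarith
  have hdeg : ∀ t : Tor σ, (slice lam a F t).natDegree = N := by
    intro t
    apply le_antisymm
    · refine Polynomial.natDegree_sum_le_of_forall_le _ _ fun s hs => ?_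
      refine (Polynomial.natDegree_monomial_le _).trans ?_
      have h1 := hmax s hs
      omega
    · apply Polynomial.le_natDegree_of_ne_zero
      rw [← norm_pos_iff, hcoeffN]; exact hcpos
  have hlead : ∀ t : Tor σ, ‖(slice lam a F t).leadingCoeff‖ = c := by
    intro t
    rw [Polynomial.leadingCoeff, hdeg, hcoeffN]
  set w : Tor σ → ℝ := fun t => (slice lam a F t).logMahlerMeasure - Real.log c with hw
  have hwsum : ∀ t, w t = ((slice lam a F t).roots.map (fun x => Real.posLog ‖x‖)).sum := by
    intro t
    simp only [hw]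
    rw [Polynomial.logMahlerMeasure_eq_log_leadingCoeff_add_sum_log_roots, hlead]
    ring
  have hwint : Integrable w := by
    have h1 := integrable_slice hF lam a ha
    simp_rw [integral_log_norm_eval] at h1
    exact h1.sub (integrable_const _)
  have hmmw : mm F = Real.log c + ∫ t, w t := by
    have h1 := integrable_slice hF lam a ha
    have h2 := mm_eq_slice hF lam a ha
    simp_rw [integral_log_norm_eval] at h1 h2
    simp only [hw]
    rw [integral_sub h1 (integrable_const _), ← h2]
    simp
  have hw0 : ∀ t, 0 ≤ w t := by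
    intro t
    rw [hwsum]
    apply Multiset.sum_nonneg
    intro x hx
    obtain ⟨α, -, rfl⟩ := Multiset.mem_map.mp hx
    exact Real.posLog_nonneg
  -- the key inequality
  have hkey : ∀ n : ℕ, ∀ t : Tor σ,
      ((p ^ n : ℕ) : ℝ) * w t ≤ N * w (mulHom ((p ^ n : ℕ) : ℤ) t) := by
    intro n t
    set q := p ^ n with hq
    have hqpos : 0 < q := by positivity
    obtain ⟨Q, hQ⟩ := dvd_expand_pow h n
    rw [← hq] at hQ
    have hEne : expand q F ≠ 0 := (expand_ne_zero hqpos).mpr hF
    have hQ0 : Q ≠ 0 := by rintro rfl; rw [mul_zero] at hQ; exact hEne hQ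
    have hslice := slice_mul lam a (minw lam Q) ha (fun s hs => minw_le hs) (B := Q) t
    rw [← hQ] at hslice
    have hmin : (q : ℤ) * a = a + minw lam Q := by
      have h1 : minw lam (expand q F) = a + minw lam Q := by rw [hQ, minw_mul lam hF hQ0]
      rw [← h1]
      symm
      apply minw_eq_of
      · intro s hs
        have h2 := support_expand_subset F hs
        rw [Finset.mem_image] at h2
        obtain ⟨u, hu, rfl⟩ := h2
        rw [map_nsmul, nsmul_eq_mul]
        exact mul_le_mul_of_nonneg_left (ha u hu) (by positivity)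
      · rw [whc_ne_zero_iff]
        obtain ⟨s0, hs0, h3⟩ := exists_minw_eq lam hF
        refine ⟨q • s0, ?_, by rw [map_nsmul, nsmul_eq_mul, ha', h3]⟩
        rw [mem_support_iff, coeff_expand_smul q hqpos.ne']
        exact mem_support_iff.mp hs0
    rw [← hmin, slice_expand lam a q hqpos ha] at hslice
    have hroot : ∀ α ∈ (slice lam a F t).roots,
        (q : ℝ) * Real.posLog ‖α‖ ≤ w (mulHom (q : ℤ) t) := by
      intro α hα
      have h1 : (slice lam a F t).eval α = 0 := (Polynomial.mem_roots'.mp hα).2
      have h2 : (Polynomial.expand ℂ q (slice lam a F (mulHom (q : ℤ) t))).eval α = 0 := by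
        rw [hslice, Polynomial.eval_mul, h1, zero_mul]
      rw [Polynomial.expand_eval] at h2
      have h3 : α ^ q ∈ (slice lam a F (mulHom (q : ℤ) t)).roots := by
        rw [Polynomial.mem_roots']
        exact ⟨hne _, h2⟩
      rw [hwsum]
      have h4 : Real.posLog ‖α ^ q‖ ≤
          ((slice lam a F (mulHom (q : ℤ) t)).roots.map (fun x => Real.posLog ‖x‖)).sum := by
        refine Multiset.single_le_sum ?_ _ (Multiset.mem_map_of_mem _ h3)
        intro x hx
        obtain ⟨β, -, rfl⟩ := Multiset.mem_map.mp hx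
        exact Real.posLog_nonneg
      refine le_trans (le_of_eq ?_) h4
      rw [norm_pow]
      rcases le_or_gt ‖α‖ 1 with h5 | h5
      · rw [Real.posLog_eq_zero_iff _ |>.mpr (by rw [abs_norm]; exact h5),
          Real.posLog_eq_zero_iff _ |>.mpr (by
            rw [abs_of_nonneg (by positivity)]; exact pow_le_one₀ (norm_nonneg _) h5)]
        simp
      · rw [Real.posLog_eq_log (by rw [abs_norm]; exact h5.le),
          Real.posLog_eq_log (by
            rw [abs_of_nonneg (by positivity)]; exact one_le_pow₀ h5.le), Real.log_pow]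
    have h5 : (q : ℝ) * w t ≤ ((slice lam a F t).roots.map
        (fun _ => w (mulHom (q : ℤ) t))).sum := by
      rw [hwsum t, ← Multiset.sum_map_mul_left]
      exact Multiset.sum_map_le_sum_map _ _ hroot
    rw [Multiset.map_const', Multiset.sum_replicate,
      ← (IsAlgClosed.splits (slice lam a F t)).natDegree_eq_card_roots, hdeg, nsmul_eq_mul] at h5
    exact h5
  have hint0 : ∫ t, w t = 0 := by
    obtain ⟨n, hn⟩ := pow_unbounded_of_one_lt (N : ℕ) hp
    have hqpos : 0 < p ^ n := by positivity
    have h1 : ∫ t, ((p ^ n : ℕ) : ℝ) * w t ≤ ∫ t, N * w (mulHom ((p ^ n : ℕ) : ℤ) t) := by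
      refine integral_mono (hwint.const_mul _) ?_ (hkey n)
      refine Integrable.const_mul ?_ _
      exact (measurePreserving_of_surjective _ (continuous_mulHom _)
        (mulHom_surjective _ (by exact_mod_cast hqpos.ne'))).integrable_comp_of_integrable hwint
    rw [integral_const_mul, integral_const_mul, integral_comp_surj' _ (continuous_mulHom _)
        (mulHom_surjective _ (by exact_mod_cast hqpos.ne')) w hwint.aestronglyMeasurable] at h1
    have h2 : 0 ≤ ∫ t, w t := integral_nonneg hw0
    have h3 : (N : ℝ) < ((p ^ n : ℕ) : ℝ) := by exact_mod_cast hn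
    nlinarith
  rw [hint0, add_zero] at hmmw
  rcases eq_or_lt_of_le hc1 with h1 | h1
  · left
    rw [hmmw, ← h1, Real.log_one]
  · right
    rw [hmmw]
    apply Real.log_le_log (by norm_num)
    have h2 : (1 : ℤ) < |F.coeff s1| := by
      rw [hc] at h1
      exact_mod_cast h1
    have h3 : (2 : ℤ) ≤ |F.coeff s1| := h2
    rw [hc]
    exact_mod_cast h3

end torsion

end Pool.Agent.H27Mahler
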