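import Mathlib
import Pool.Agent.H27Mahler.Dobro

open Finsupp (weight)
open MeasureTheory

set_option linter.unusedSectionVars false

namespace Pool.Agent.H27Mahler

open MvPolynomial

variable {τ : Type*} [Fintype τ]

/-- restriction of a torus point to the variables `some i` -/
def resT (t : Tor (Option τ)) : Tor τ := fun i => t (some i)

/-- the polynomial in the distinguished variable at a torus point -/
noncomputable def fib (s : Tor τ) (F : MvPolynomial (Option τ) ℤ) : Polynomial ℂ :=
  (optionEquivLeft ℤ τ F).map (ev s)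

theorem ev_eq_fib (t : Tor (Option τ)) (F : MvPolynomial (Option τ) ℤ) :
    ev t F = (fib (resT t) F).eval (AddCircle.toCircle (t none) : ℂ) := by
  have h : ev t = ((Polynomial.evalRingHom (AddCircle.toCircle (t none) : ℂ)).comp
      (Polynomial.mapRingHom (ev (resT t)))).comp
      (optionEquivLeft ℤ τ : MvPolynomial (Option τ) ℤ →ₐ[ℤ] _).toRingHom := by
    apply MvPolynomial.ringHom_ext
    · intro r
      simp [ev]
    · intro i
      cases i with
      | none => simp [ev]
      | some i => simp [ev, resT]
  rw [h]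
  rfl

/-- the direction of the distinguished variable -/
def dir0 : Option τ → ℤ := fun o => match o with
  | none => 1
  | some _ => 0

theorem ev_shear_dir0 (t : Tor (Option τ)) (r : UnitAddCircle) (F : MvPolynomial (Option τ) ℤ) :
    ev (shear dir0 (t, r)) F =
      (fib (resT t) F).eval (AddCircle.toCircle (t none + r) : ℂ) := by
  rw [ev_eq_fib]
  have h1 : resT (shear dir0 (t, r)) = resT t := by
    funext i
    show t (some i) + (0 : ℤ) • r = t (some i)
    simp
  have h2 : shear dir0 (t, r) none = t none + r := by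
    show t none + (1 : ℤ) • r = t none + r
    simp
  rw [h1, h2]

theorem integral_fib (t : Tor (Option τ)) (F : MvPolynomial (Option τ) ℤ) :
    ∫ r : UnitAddCircle, Real.log ‖ev (shear dir0 (t, r)) F‖ =
      (fib (resT t) F).logMahlerMeasure := by
  simp_rw [ev_shear_dir0]
  rw [integral_add_left_eq_self (fun r : UnitAddCircle =>
    Real.log ‖(fib (resT t) F).eval (AddCircle.toCircle r : ℂ)‖) (t none), integral_log_norm_eval]

theorem mm_eq_fib {F : MvPolynomial (Option τ) ℤ} (hF : F ≠ 0) :
    mm F = ∫ t : Tor (Option τ), (fib (resT t) F).logMahlerMeasure := by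
  rw [mm, integral_eq_shear dir0 _ (integrable_log_ev hF)]
  simp_rw [integral_fib]

theorem integrable_fib {F : MvPolynomial (Option τ) ℤ} (hF : F ≠ 0) :
    Integrable fun t : Tor (Option τ) => (fib (resT t) F).logMahlerMeasure := by
  have := integrable_shear_left dir0 _ (integrable_log_ev hF)
  simp_rw [integral_fib] at this
  exact this

theorem fib_mul (s : Tor τ) (F G : MvPolynomial (Option τ) ℤ) :
    fib s (F * G) = fib s F * fib s G := by
  simp [fib]

theorem fib_sub (s : Tor τ) (F G : MvPolynomial (Option τ) ℤ) :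
    fib s (F - G) = fib s F - fib s G := by
  simp [fib]

theorem fib_pow (s : Tor τ) (F : MvPolynomial (Option τ) ℤ) (n : ℕ) :
    fib s (F ^ n) = fib s F ^ n := by
  simp [fib]

theorem fib_C (s : Tor τ) (c : ℤ) : fib s (C c) = Polynomial.C (c : ℂ) := by
  simp [fib, ev]

theorem option_expand (q : ℕ) (F : MvPolynomial (Option τ) ℤ) :
    optionEquivLeft ℤ τ (expand q F) =
      Polynomial.expand _ q ((optionEquivLeft ℤ τ F).map
        (expand q : MvPolynomial τ ℤ →ₐ[ℤ] _).toRingHom) := by
  have h : (optionEquivLeft ℤ τ : MvPolynomial (Option τ) ℤ →ₐ[ℤ] _).toRingHom.comp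
      (expand q : MvPolynomial (Option τ) ℤ →ₐ[ℤ] _).toRingHom =
      ((Polynomial.expand _ q : Polynomial (MvPolynomial τ ℤ) →ₐ[_] _).toRingHom.comp
      (Polynomial.mapRingHom (expand q : MvPolynomial τ ℤ →ₐ[ℤ] _).toRingHom)).comp
      (optionEquivLeft ℤ τ : MvPolynomial (Option τ) ℤ →ₐ[ℤ] _).toRingHom := by
    apply MvPolynomial.ringHom_ext
    · intro r
      simp
    · intro i
      cases i with
      | none => simp
      | some i => simp
  exact RingHom.congr_fun h F

theorem card_support_expand_le {R : Type*} [CommSemiring R] (q : ℕ) (hq : 0 < q)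
    (f : Polynomial R) : (Polynomial.expand R q f).support.card ≤ f.support.card := by
  classical
  have h : (Polynomial.expand R q f).support ⊆ f.support.image (fun n => n * q) := by
    intro n hn
    rw [Polynomial.mem_support_iff, Polynomial.coeff_expand hq] at hn
    split_ifs at hn with h1
    · rw [Finset.mem_image]
      exact ⟨n / q, Polynomial.mem_support_iff.mpr hn, Nat.div_mul_cancel h1⟩
    · exact absurd rfl hn
  exact (Finset.card_le_card h).trans Finset.card_image_le

theorem card_support_map_le {R S : Type*} [CommSemiring R] [CommSemiring S] (φ : R →+* S)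
    (f : Polynomial R) : (f.map φ).support.card ≤ f.support.card :=
  Finset.card_le_card (Polynomial.support_map_subset φ f)

theorem isCoprime_fraction {R : Type*} [CommRing R] [IsDomain R] [UniqueFactorizationMonoid R]
    {f h : Polynomial R} (hf : Irreducible f) (hdeg : f.natDegree ≠ 0) (hdvd : ¬ f ∣ h) :
    IsCoprime (f.map (algebraMap R (FractionRing R))) (h.map (algebraMap R (FractionRing R))) := by
  have hG : Nonempty (GCDMonoid R) := ⟨UniqueFactorizationMonoid.toGCDMonoid R⟩
  have hprim := hf.isPrimitive hdeg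
  have h1 : Irreducible (f.map (algebraMap R (FractionRing R))) :=
    (hprim.irreducible_iff_irreducible_map_fraction_map (K := FractionRing R)).mp hf
  rw [h1.coprime_iff_not_dvd]
  intro h2
  exact hdvd (hprim.dvd_of_fraction_map_dvd_fraction_map (K := FractionRing R) h2)

theorem resultant_ne_zero_of_irreducible {R : Type*} [CommRing R] [IsDomain R]
    [UniqueFactorizationMonoid R] {f h : Polynomial R} (hf : Irreducible f)
    (hdeg : f.natDegree ≠ 0) (hdvd : ¬ f ∣ h) (n : ℕ) (hn : h.natDegree ≤ n) :
    Polynomial.resultant f h f.natDegree n ≠ 0 := by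
  have hcop := isCoprime_fraction hf hdeg hdvd
  set φ := algebraMap R (FractionRing R) with hφ
  have hinj : Function.Injective φ := IsFractionRing.injective R (FractionRing R)
  obtain ⟨k, rfl⟩ := Nat.exists_eq_add_of_le hn
  rw [Polynomial.resultant_add_right_deg _ _ _ _ _ le_rfl]
  refine mul_ne_zero (pow_ne_zero _ ?_) ?_
  · rw [Polynomial.coeff_natDegree]
    exact Polynomial.leadingCoeff_ne_zero.mpr hf.ne_zero
  · intro h0
    have h1 : Polynomial.resultant (f.map φ) (h.map φ) f.natDegree h.natDegree = 0 := by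
      rw [Polynomial.resultant_map_map, h0, map_zero]
    have h2 : (f.map φ).natDegree = f.natDegree := Polynomial.natDegree_map_eq_of_injective hinj f
    have h3 : (h.map φ).natDegree = h.natDegree := Polynomial.natDegree_map_eq_of_injective hinj h
    rw [← h2, ← h3, Polynomial.resultant_eq_zero_iff] at h1
    exact h1.2 hcop

/-- pointwise Dobrowolski estimate -/
theorem pointwise_dobro (p : ℕ) (f h g : Polynomial ℂ) (B : ℝ) (hB : 0 ≤ B) (e : ℕ)
    (he : f.natDegree = e) (hh : h.natDegree ≤ p * e)
    (hrel : f ^ p - g = Polynomial.C (p : ℂ) * h)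
    (hg : ∀ z : ℂ, ‖g.eval z‖ ≤ B * (max 1 ‖z‖) ^ (p * e)) :
    (p : ℝ) ^ e * ‖Polynomial.resultant f h e (p * e)‖ ≤
      f.mahlerMeasure ^ (p * e) * B ^ e := by
  have h1 := Polynomial.resultant_eq_prod_eval f h (p * e) hh (IsAlgClosed.splits f)
  rw [he] at h1
  rw [h1, norm_mul, norm_pow, Polynomial.mahlerMeasure_eq_leadingCoeff_mul_prod_roots, mul_pow]
  have hcard : f.roots.card = e := by
    rw [← (IsAlgClosed.splits f).natDegree_eq_card_roots, he]
  have h2 : (p : ℝ) ^ e * ‖(f.roots.map (fun z => h.eval z)).prod‖ ≤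
      (f.roots.map (fun a => max 1 ‖a‖)).prod ^ (p * e) * B ^ e := by
    rw [← hcard]
    have h3 : ∀ z ∈ f.roots, (p : ℝ) * ‖h.eval z‖ ≤ B * (max 1 ‖z‖) ^ (p * e) := by
      intro z hz
      have hz0 : f.eval z = 0 := (Polynomial.mem_roots'.mp hz).2
      have h4 := congrArg (Polynomial.eval z) hrel
      by_cases hp : p = 0
      · rw [hp]; simp; positivity
      rw [Polynomial.eval_sub, Polynomial.eval_pow, hz0, zero_pow hp, zero_sub,
        Polynomial.eval_mul, Polynomial.eval_C] at h4
      have h5 : ‖g.eval z‖ = (p : ℝ) * ‖h.eval z‖ := by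
        rw [← norm_neg, h4, norm_mul]
        simp
      rw [← h5]
      exact hg z
    rw [show p * f.roots.card = p * e by rw [hcard]]
    clear h1 hcard
    revert h3
    induction f.roots using Multiset.induction_on with
    | empty => intro _; simp
    | cons a s ih =>
      intro h3
      have h6 := ih (fun z hz => h3 z (Multiset.mem_cons_of_mem hz))
      have h7 := h3 a (Multiset.mem_cons_self a s)
      simp only [Multiset.map_cons, Multiset.prod_cons, Multiset.card_cons, norm_mul, pow_succ,
        mul_pow]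
      calc (p : ℝ) ^ s.card * p * (‖h.eval a‖ * ‖(s.map (fun z => h.eval z)).prod‖) =
          (p * ‖h.eval a‖) * ((p : ℝ) ^ s.card * ‖(s.map (fun z => h.eval z)).prod‖) := by ring
        _ ≤ (B * (max 1 ‖a‖) ^ (p * e)) *
          ((s.map (fun a => max 1 ‖a‖)).prod ^ (p * e) * B ^ s.card) := by
            refine mul_le_mul h7 h6 (by positivity) (by positivity)
        _ = _ := by ring
  calc (p : ℝ) ^ e * (‖f.leadingCoeff‖ ^ (p * e) * ‖(f.roots.map (fun z => h.eval z)).prod‖) =
      ‖f.leadingCoeff‖ ^ (p * e) * ((p : ℝ) ^ e * ‖(f.roots.map (fun z => h.eval z)).prod‖) := by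
        ring
    _ ≤ ‖f.leadingCoeff‖ ^ (p * e) * ((f.roots.map (fun a => max 1 ‖a‖)).prod ^ (p * e) *
        B ^ e) := by gcongr
    _ = _ := by ring

theorem log_dobro {P R M G B : ℝ} {e n : ℕ} (hP : 0 < P) (hR : 0 < R) (hM : 0 < M) (hG : 0 < G)
    (hB : 0 < B) (h : P ^ e * R ≤ M ^ n * (B * G) ^ e) :
    e * Real.log P + Real.log R ≤ n * Real.log M + e * (Real.log B + Real.log G) := by
  have hlog := Real.log_le_log (by positivity) h
  rwa [Real.log_mul (by positivity) hR.ne', Real.log_pow,
    Real.log_mul (by positivity) (by positivity), Real.log_pow, Real.log_pow,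
    Real.log_mul hB.ne' hG.ne'] at hlog

/-- the integration step -/
theorem dobro_integrate {p e : ℕ} (_hp : 0 < p) (he : (0 : ℝ) < e) {L R M : ℝ}
    {r u v : Tor (Option τ) → ℝ}
    (h : ∀ᵐ t : Tor (Option τ), (e : ℝ) * Real.log p + r t ≤
      ((p * e : ℕ) : ℝ) * u t + e * (L + v t))
    (hr : Integrable r) (hu : Integrable u) (hv : Integrable v)
    (hR : R = ∫ t, r t) (hM : M = ∫ t, u t) (hM' : M = ∫ t, v t) (hR0 : 0 ≤ R) :
    Real.log p ≤ (p + 1) * M + L := by
  have i4 : Integrable fun t : Tor (Option τ) => (e : ℝ) * Real.log p + r t :=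
    (integrable_const _).add hr
  have i5 : Integrable fun t : Tor (Option τ) => ((p * e : ℕ) : ℝ) * u t := hu.const_mul _
  have i6 : Integrable fun t : Tor (Option τ) => (L + v t) := (integrable_const _).add hv
  have i7 : Integrable fun t : Tor (Option τ) => (e : ℝ) * (L + v t) := i6.const_mul _
  have hint := integral_mono_ae i4 (i5.add i7) h
  have e1 : ∫ t : Tor (Option τ), ((e : ℝ) * Real.log p + r t) = e * Real.log p + R := by
    rw [integral_add (integrable_const _) hr, ← hR]
    simp
  have e2 : ∫ t : Tor (Option τ), (((p * e : ℕ) : ℝ) * u t + (e : ℝ) * (L + v t)) =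
      ((p * e : ℕ) : ℝ) * M + e * (L + M) := by
    rw [integral_add i5 i7, integral_const_mul, integral_const_mul,
      integral_add (integrable_const _) hv, ← hM, ← hM']
    simp
  have e3 : e * Real.log p + R ≤ ((p * e : ℕ) : ℝ) * M + e * (L + M) := by
    rw [← e1, ← e2]; exact hint
  push_cast at e3
  have e5 : (e : ℝ) * Real.log p ≤ e * ((p + 1) * M + L) := by
    calc (e : ℝ) * Real.log p ≤ p * e * M + e * (L + M) := by linarith
      _ = _ := by ring
  exact le_of_mul_le_mul_left e5 he

/-- Dobrowolski type lower bound when `F` does not divide `F(z^p)` -/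
theorem mm_ge_of_not_dvd {p : ℕ} (hp : p.Prime) (m : ℕ) {F : MvPolynomial (Option τ) ℤ}
    (hF : Irreducible F) (hdeg : (optionEquivLeft ℤ τ F).natDegree ≠ 0)
    (hm : (optionEquivLeft ℤ τ F).support.card ≤ m) (hdvd : ¬ F ∣ expand p F) :
    Real.log p ≤ (p + 1) * mm F + Real.log (m * 2 ^ m) := by
  classical
  obtain ⟨H, hH⟩ := exists_frob p hp F
  set φF := optionEquivLeft ℤ τ F with hφF
  set φH := optionEquivLeft ℤ τ H with hφH
  set e := φF.natDegree with he
  have hF0 := hF.ne_zero
  have hφF0 : φF ≠ 0 := (map_ne_zero_iff _ (optionEquivLeft ℤ τ).injective).mpr hF0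
  have hm0 : 0 < m := by
    have : 0 < φF.support.card := Finset.card_pos.mpr (Polynomial.support_nonempty.mpr hφF0)
    omega
  have hppos : 0 < p := hp.pos
  have hirr : Irreducible φF := (MulEquiv.irreducible_iff (optionEquivLeft ℤ τ)).mpr hF
  have hHdvd : ¬ φF ∣ φH := by
    intro h
    apply hdvd
    have h1 : F ∣ H := (map_dvd_iff (optionEquivLeft ℤ τ)).mp h
    have h2 : F ∣ F ^ p - expand p F := by rw [hH]; exact h1.mul_left _
    have h3 : F ∣ F ^ p := dvd_pow_self F hp.ne_zero
    exact (dvd_sub_right h3).mp h2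
  -- degrees
  have hφrel : φF ^ p - optionEquivLeft ℤ τ (expand p F) = Polynomial.C (C (p : ℤ)) * φH := by
    have := congrArg (optionEquivLeft ℤ τ) hH
    rw [map_sub, map_pow, map_mul, optionEquivLeft_C] at this
    exact this
  have hdegE : (optionEquivLeft ℤ τ (expand p F)).natDegree ≤ p * e := by
    rw [option_expand, Polynomial.natDegree_expand, mul_comm]
    exact Nat.mul_le_mul_left _ (Polynomial.natDegree_map_le)
  have hdegH : φH.natDegree ≤ p * e := by
    have h1 : (Polynomial.C (C (p : ℤ) : MvPolynomial τ ℤ) * φH).natDegree = φH.natDegree := by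
      apply Polynomial.natDegree_C_mul
      rw [Ne, C_eq_zero]
      exact_mod_cast hppos.ne'
    rw [← h1, ← hφrel]
    refine (Polynomial.natDegree_sub_le _ _).trans (max_le ?_ hdegE)
    rw [Polynomial.natDegree_pow]
  set ρ := Polynomial.resultant φF φH e (p * e) with hρ
  have hρ0 : ρ ≠ 0 := resultant_ne_zero_of_irreducible hirr hdeg hHdvd _ hdegH
  have hEne : expand p F ≠ 0 := (expand_ne_zero hppos).mpr hF0
  have hρ' : rename some ρ ≠ 0 := by
    rw [Ne, ← map_zero (rename (some : τ → Option τ)),
      (rename_injective _ (Option.some_injective τ)).eq_iff]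
    exact hρ0
  -- leading coefficient
  have hlc : φF.leadingCoeff ≠ 0 := Polynomial.leadingCoeff_ne_zero.mpr hφF0
  have hlc' : rename some φF.leadingCoeff ≠ 0 := by
    rw [Ne, ← map_zero (rename (some : τ → Option τ)),
      (rename_injective _ (Option.some_injective τ)).eq_iff]
    exact hlc
  have hlcE : (optionEquivLeft ℤ τ (expand p F)).leadingCoeff ≠ 0 :=
    Polynomial.leadingCoeff_ne_zero.mpr ((map_ne_zero_iff _ (optionEquivLeft ℤ τ).injective).mpr hEne)
  have hlcE' : rename some (optionEquivLeft ℤ τ (expand p F)).leadingCoeff ≠ 0 := by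
    rw [Ne, ← map_zero (rename (some : τ → Option τ)),
      (rename_injective _ (Option.some_injective τ)).eq_iff]
    exact hlcE
  have hcardE : (optionEquivLeft ℤ τ (expand p F)).support.card ≤ m := by
    rw [option_expand]
    exact ((card_support_expand_le p hppos _).trans (card_support_map_le _ _)).trans hm
  set B0 : ℝ := m * 2 ^ m with hB0
  have hB0pos : 0 < B0 := by positivity
  -- pointwise
  have hpt : ∀ᵐ t : Tor (Option τ), (e : ℝ) * Real.log p + Real.log ‖ev t (rename some ρ)‖ ≤
      ((p * e : ℕ) : ℝ) * (fib (resT t) F).logMahlerMeasure +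
        e * (Real.log B0 + (fib (resT t) (expand p F)).logMahlerMeasure) := by
    filter_upwards [ae_ev_ne_zero hρ', ae_ev_ne_zero hlc', ae_ev_ne_zero hlcE'] with t h1 h2 h3
    have hres : ∀ G : MvPolynomial τ ℤ, ev t (rename some G) = ev (resT t) G := by
      intro G; rw [ev_rename]; rfl
    rw [hres] at h1 h2 h3 ⊢
    set s := resT t with hs
    have hfdeg : (fib s F).natDegree = e := by
      apply Polynomial.natDegree_map_of_leadingCoeff_ne_zero
      exact h2
    have hf0 : fib s F ≠ 0 := by
      intro h0
      have : (fib s F).coeff e = 0 := by rw [h0]; simp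
      rw [fib, Polynomial.coeff_map, Polynomial.coeff_natDegree] at this
      exact h2 this
    have hg0 : fib s (expand p F) ≠ 0 := by
      intro h0
      have : (fib s (expand p F)).coeff (optionEquivLeft ℤ τ (expand p F)).natDegree = 0 := by
        rw [h0]; simp
      rw [fib, Polynomial.coeff_map, Polynomial.coeff_natDegree] at this
      exact h3 this
    have hMf := Polynomial.mahlerMeasure_pos_of_ne_zero hf0
    have hMg := Polynomial.mahlerMeasure_pos_of_ne_zero hg0
    have hrel : fib s F ^ p - fib s (expand p F) = Polynomial.C (p : ℂ) * fib s H := by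
      rw [← fib_pow, ← fib_sub, hH, fib_mul, fib_C]
      simp
    have hgb : ∀ z : ℂ, ‖(fib s (expand p F)).eval z‖ ≤
        (B0 * (fib s (expand p F)).mahlerMeasure) * (max 1 ‖z‖) ^ (p * e) := by
      intro z
      exact norm_eval_le_sparse m _ ((card_support_map_le _ _).trans hcardE) (p * e)
        ((Polynomial.natDegree_map_le).trans hdegE) z
    have hdob := pointwise_dobro p (fib s F) (fib s H) (fib s (expand p F))
      (B0 * (fib s (expand p F)).mahlerMeasure) (mul_nonneg hB0pos.le hMg.le) e hfdeg
      ((Polynomial.natDegree_map_le).trans hdegH) hrel hgb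
    have hρs : Polynomial.resultant (fib s F) (fib s H) e (p * e) = ev s ρ := by
      rw [fib, fib, Polynomial.resultant_map_map]
    rw [hρs] at hdob
    have hρpos : 0 < ‖ev s ρ‖ := norm_pos_iff.mpr h1
    have hpp : (0 : ℝ) < p := by exact_mod_cast hppos
    rw [Polynomial.logMahlerMeasure_eq_log_MahlerMeasure,
      Polynomial.logMahlerMeasure_eq_log_MahlerMeasure]
    exact log_dobro hpp hρpos hMf hMg hB0pos hdob
  -- integrate
  have i1 := integrable_log_ev hρ'
  have i2 := integrable_fib hF0
  have i3 := integrable_fib hEne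
  have hu := mm_eq_fib hF0
  have hv := mm_eq_fib hEne
  rw [mm_expand p hppos] at hv
  have hr : mm (rename some ρ) = ∫ t : Tor (Option τ), Real.log ‖ev t (rename some ρ)‖ := rfl
  have e4 := mm_nonneg (rename some ρ)
  have hepos : (0 : ℝ) < e := by exact_mod_cast Nat.pos_of_ne_zero hdeg
  generalize mm (rename some ρ) = R at hr e4
  generalize mm F = M at hu hv ⊢
  exact dobro_integrate hppos hepos hpt i1 i2 i3 hr hu hv e4

end Pool.Agent.H27Mahler
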