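import Mathlib
import Pool.Agent.H27Mahler.Resul

open Finsupp (weight)
open MeasureTheory MvPolynomial

set_option linter.unusedSectionVars false

namespace Pool.Agent.H27Mahler

/-- the set of exponents with which the variable `y` occurs in `F` -/
noncomputable def yexp {σ : Type*} (y : σ) (F : MvPolynomial σ ℤ) : Finset ℕ :=
  F.support.image (fun s => s y)

theorem exists_good_prime (m : ℕ) (hm : 0 < m) :
    ∃ p : ℕ, p.Prime ∧ Real.log (m * 2 ^ m) + Real.log 2 ≤ Real.log p := by
  obtain ⟨p, hp1, hp2⟩ := Nat.exists_infinite_primes (m * 2 ^ m * 2)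
  refine ⟨p, hp2, ?_⟩
  have hm' : (0 : ℝ) < m := by exact_mod_cast hm
  rw [← Real.log_mul (by positivity) (by norm_num)]
  apply Real.log_le_log (by positivity)
  exact_mod_cast hp1

/-- lower bound for the measure of irreducible polynomials with a sparse variable -/
theorem mm_lower_option {τ : Type*} [Fintype τ] {m p : ℕ} (hp : p.Prime)
    (hpm : Real.log (m * 2 ^ m) + Real.log 2 ≤ Real.log p) {F : MvPolynomial (Option τ) ℤ}
    (hF : Irreducible F) (h2 : 1 < (yexp none F).card) (hm : (yexp none F).card ≤ m)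
    (h0 : mm F ≠ 0) : Real.log 2 / (p + 1) ≤ mm F := by
  classical
  have hlog2 : 0 < Real.log 2 := Real.log_pos (by norm_num)
  have hp1 : (1 : ℝ) ≤ (p : ℝ) + 1 := by
    have : (0 : ℝ) ≤ p := Nat.cast_nonneg _
    linarith
  by_cases hdvd : F ∣ expand p F
  · rcases mm_of_dvd_expand hp.one_lt hF.ne_zero hdvd with h | h
    · exact absurd h h0
    · exact (div_le_self hlog2.le hp1).trans h
  · have hdeg : (optionEquivLeft ℤ τ F).natDegree ≠ 0 := by
      intro h
      have h3 : (optionEquivLeft ℤ τ F).support ⊆ {0} := by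
        intro i hi
        have := Polynomial.le_natDegree_of_mem_supp i hi
        rw [Finset.mem_singleton]; omega
      rw [support_optionEquivLeft] at h3
      have h4 := Finset.card_le_card h3
      rw [Finset.card_singleton] at h4
      have h5 : (yexp none F).card = (F.support.image (fun s => s none)).card := rfl
      omega
    have h3 := mm_ge_of_not_dvd hp m hF hdeg (by rw [support_optionEquivLeft]; exact hm) hdvd
    rw [div_le_iff₀ (by linarith)]
    linarith

theorem yexp_rename {σ τ : Type*} (f : σ ≃ τ) (y : σ) (F : MvPolynomial σ ℤ) :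
    yexp (f y) (rename f F) = yexp y F := by
  classical
  unfold yexp
  rw [support_rename_of_injective f.injective, Finset.image_image]
  refine Finset.image_congr fun s _ => ?_
  simp [Finsupp.mapDomain_apply f.injective]

theorem mm_lower {σ : Type} [Fintype σ] {m p : ℕ} (hp : p.Prime)
    (hpm : Real.log (m * 2 ^ m) + Real.log 2 ≤ Real.log p) {F : MvPolynomial σ ℤ}
    (hF : Irreducible F) (y : σ) (h2 : 1 < (yexp y F).card) (hm : (yexp y F).card ≤ m)
    (h0 : mm F ≠ 0) : Real.log 2 / (p + 1) ≤ mm F := by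
  classical
  set f : σ ≃ Option {b : σ // b ≠ y} := (Equiv.optionSubtypeNe y).symm with hf
  have hfy : f y = none := by simp [hf]
  set G := rename f F with hG
  have hGm : mm G = mm F := mm_rename f f.injective F
  have hGi : Irreducible G := (MulEquiv.irreducible_iff (renameEquiv ℤ f)).mpr hF
  have hy : yexp none G = yexp y F := by rw [← hfy, hG, yexp_rename]
  rw [← hGm]
  exact mm_lower_option hp hpm hGi (by rw [hy]; exact h2) (by rw [hy]; exact hm)
    (by rw [hGm]; exact h0)

section dim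

variable {σ : Type} [Fintype σ] [DecidableEq σ]

theorem weight_single_dir (y : σ) (s : σ →₀ ℕ) :
    weight (Pi.single y (1 : ℤ)) s = (s y : ℤ) := by
  rw [weight_eq_sum, Finset.sum_eq_single y]
  · simp
  · intro i _ hi
    rw [Pi.single_eq_of_ne hi]; simp
  · intro h; exact absurd (Finset.mem_univ y) h

theorem wts_single (y : σ) (F : MvPolynomial σ ℤ) :
    (wts (Pi.single y (1 : ℤ)) F).card = (yexp y F).card := by
  have h : wts (Pi.single y (1 : ℤ)) F = (yexp y F).map ⟨fun n : ℕ => (n : ℤ), Nat.cast_injective⟩ := by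
    unfold wts yexp
    rw [Finset.map_eq_image, Finset.image_image]
    refine Finset.image_congr fun s _ => ?_
    exact weight_single_dir y s
  rw [h, Finset.card_map]

theorem finrank_yexp {T : ℝ} {m : ℕ} {F : MvPolynomial σ ℤ} (hF : Irreducible F) (y : σ)
    (h2 : 1 < (yexp y F).card) (hm : (yexp y F).card ≤ m) (hT : mm F ≤ T) :
    Fintype.card σ ≤ Module.finrank ℝ ↥(HS F) +
      dimBound (Real.log 2 + 2 * (Real.log (m * 2 ^ m) + T)) := by
  refine finrank_sparse (Pi.single y (1 : ℤ)) m hF ?_ (by rw [wts_single]; exact hm) hT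
  intro h
  rw [face_eq_self_iff] at h
  obtain ⟨a, ha, b, hb, hab⟩ := Finset.one_lt_card.mp h2
  unfold yexp at ha hb
  obtain ⟨s, hs, rfl⟩ := Finset.mem_image.mp ha
  obtain ⟨s', hs', rfl⟩ := Finset.mem_image.mp hb
  have h3 := h s hs s' hs'
  rw [weight_single_dir, weight_single_dir] at h3
  exact hab (by exact_mod_cast h3)

end dim

/-- products of polynomials whose factors have bounded dimension and measure bounded below -/
theorem product_bound {σ : Type*} [Fintype σ] {c T : ℝ} (D : ℕ) (F : MvPolynomial σ ℤ) :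
    F ≠ 0 → mm F ≤ T →
    (∀ P, Irreducible P → P ∣ F → P.totalDegree ≠ 0 → mm P ≠ 0 → mm P ≤ T →
      c ≤ mm P ∧ Fintype.card σ ≤ Module.finrank ℝ ↥(HS P) + D) →
    ∃ (G : MvPolynomial σ ℤ) (r : ℕ), G ≠ 0 ∧ mm G = mm F ∧ r * c ≤ mm F ∧
      Fintype.card σ ≤ Module.finrank ℝ ↥(HS G) + r * D := by
  classical
  refine WfDvdMonoid.induction_on_irreducible (motive := fun F : MvPolynomial σ ℤ =>
    F ≠ 0 → mm F ≤ T →
    (∀ P, Irreducible P → P ∣ F → P.totalDegree ≠ 0 → mm P ≠ 0 → mm P ≤ T →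
      c ≤ mm P ∧ Fintype.card σ ≤ Module.finrank ℝ ↥(HS P) + D) →
    ∃ (G : MvPolynomial σ ℤ) (r : ℕ), G ≠ 0 ∧ mm G = mm F ∧ r * c ≤ mm F ∧
      Fintype.card σ ≤ Module.finrank ℝ ↥(HS G) + r * D) F ?_ ?_ ?_
  · intro h; exact absurd rfl h
  · intro u hu _ _ _
    refine ⟨1, 0, one_ne_zero, by rw [mm_unit hu, mm_one], by rw [mm_unit hu]; simp, ?_⟩
    have h1 : (1 : MvPolynomial σ ℤ) = C 1 := C_1.symm
    rw [h1, HS_C, finrank_top, Module.finrank_pi]
    omega
  · intro a i ha hi ih _ hT hH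
    have hi0 : i ≠ 0 := hi.ne_zero
    have hmul := mm_mul hi0 ha
    have hni := mm_nonneg i
    have hna := mm_nonneg a
    obtain ⟨G, r, hG0, hGm, hr, hdim⟩ := ih ha (by linarith) (fun P hP hPa h1 h2 h3 =>
      hH P hP (hPa.mul_left i) h1 h2 h3)
    by_cases h0 : mm i = 0
    · refine ⟨G, r, hG0, by rw [hGm, hmul, h0, zero_add], by rw [hmul, h0, zero_add]; exact hr, hdim⟩
    by_cases hdeg : i.totalDegree = 0
    · rw [totalDegree_eq_zero_iff_eq_C] at hdeg
      refine ⟨i * G, r, mul_ne_zero hi0 hG0, by rw [mm_mul hi0 hG0, hGm, hmul],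
        by rw [hmul]; linarith, ?_⟩
      have h1 : HS G ≤ HS (i * G) := by
        refine le_trans ?_ (HS_mul_ge i G)
        rw [hdeg, HS_C, top_inf_eq]
      have h2 := Submodule.finrank_mono h1
      omega
    · obtain ⟨h1, h2⟩ := hH i hi (Dvd.intro _ rfl) hdeg h0 (by linarith)
      refine ⟨i * G, r + 1, mul_ne_zero hi0 hG0, by rw [mm_mul hi0 hG0, hGm, hmul], ?_, ?_⟩
      · push_cast
        rw [hmul]
        linarith
      · have h3 := Submodule.finrank_sup_add_finrank_inf_eq (HS i) (HS G)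
        have h4 : Module.finrank ℝ ↥(HS i ⊔ HS G) ≤ Module.finrank ℝ (σ → ℝ) :=
          Submodule.finrank_le _
        have h5 : Module.finrank ℝ (σ → ℝ) = Fintype.card σ := Module.finrank_pi ℝ
        have h6 := Submodule.finrank_mono (HS_mul_ge i G)
        have h7 : (r + 1) * D = r * D + D := by ring
        omega

/-- bounded number of variables for polynomials whose factors have a sparse variable -/
theorem sparse_variables (m : ℕ) (T : ℝ) : ∃ K : ℕ, ∀ (k : ℕ) (F : MvPolynomial (Fin k) ℤ), F ≠ 0 →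
    mm F ≤ T →
    (∀ P, Irreducible P → P ∣ F → P.totalDegree ≠ 0 → mm P ≠ 0 →
      ∃ y, 1 < (yexp y P).card ∧ (yexp y P).card ≤ m) →
    ∃ G : MvPolynomial (Fin K) ℤ, G ≠ 0 ∧ mm G = mm F := by
  classical
  rcases Nat.eq_zero_or_pos m with hm0 | hm0
  · -- no factor is allowed
    refine ⟨0, fun k F hF0 hT hH => ?_⟩
    obtain ⟨G, r, hG0, hGm, hr, hdim⟩ := product_bound (c := 0) 0 F hF0 hT (by
      intro P h1 h2 h3 h4 h5
      obtain ⟨y, h6, h7⟩ := hH P h1 h2 h3 h4
      omega)
    obtain ⟨G', h3, -, h4⟩ := reduce_vars 0 G.totalDegree k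
      (Fin k) G (Fintype.card_fin k) hG0 (fun i => degreeOf_le_totalDegree G i) (by omega)
    exact ⟨G', h3, h4.trans hGm⟩
  obtain ⟨p, hp, hpm⟩ := exists_good_prime m hm0
  set c : ℝ := Real.log 2 / (p + 1) with hc
  have hlog2 : 0 < Real.log 2 := Real.log_pos (by norm_num)
  have hcpos : 0 < c := by positivity
  set D : ℕ := dimBound (Real.log 2 + 2 * (Real.log (m * 2 ^ m) + T)) with hD
  refine ⟨⌈T / c⌉₊ * D, fun k F hF0 hT hH => ?_⟩
  obtain ⟨G, r, hG0, hGm, hr, hdim⟩ := product_bound (c := c) D F hF0 hT (by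
    intro P h1 h2 h3 h4 h5
    obtain ⟨y, h6, h7⟩ := hH P h1 h2 h3 h4
    exact ⟨mm_lower hp hpm h1 y h6 h7 h4, finrank_yexp h1 y h6 h7 h5⟩)
  have h1 : r ≤ ⌈T / c⌉₊ := by
    have h2 : (r : ℝ) ≤ T / c := by
      rw [le_div_iff₀ hcpos]; linarith
    exact_mod_cast h2.trans (Nat.le_ceil _)
  have h2 : r * D ≤ ⌈T / c⌉₊ * D := Nat.mul_le_mul_right _ h1
  obtain ⟨G', h3, -, h4⟩ := reduce_vars (⌈T / c⌉₊ * D) G.totalDegree k
    (Fin k) G (Fintype.card_fin k) hG0 (fun i => degreeOf_le_totalDegree G i) (by omega)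
  exact ⟨G', h3, h4.trans hGm⟩

end Pool.Agent.H27Mahler
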